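import Pool.Agent.W_2c7c9d_h91.Ext

/-! # MP_2c7c9d_co: the three alternatives for a bad arrangement

`bad_alt`: if `a` is not `Good` then (`D = 64 (r + 1)`) either there are two different nonempty zero-sum subsets of
`range w` (`AltC`), or for some `n ≤ w` there is a family `F` of more than `D` dangerous sets, and `extract` gives one of its
two alternatives (`AltB`, `AltA`; `range n ⊆ range w`).  (`by_contra`, construct `Good`.) -/

set_option autoImplicit false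

noncomputable section

namespace Pool.Agent.Zs91

open Finset Nat

variable {G : Type} [AddCommGroup G] {k : ℕ} [NeZero k] {A : Finset G} {w L R r : ℕ}

open Classical in
/-- The first alternative of `extract` (separated targets) for the arrangement `a`. -/
def AltB (w R r : ℕ) (a : Fin k ≃ {x // x ∈ A}) : Prop :=
  ∃ (X : Fin r → Finset ℕ) (u : Fin r → ℕ) (Y : Fin r → Finset ℕ), (∀ i, X i ⊆ range w) ∧
    (∀ i, R ≤ u i ∧ u i + R ≤ k) ∧ (∀ i j, i ≠ j → u i + R ≤ u j ∨ u j + R ≤ u i) ∧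
    (∀ i, Y i ⊆ Ico (u i) (u i + w)) ∧
    ∀ i, ∑ j ∈ X i, sq a j = pre (sq a) (u i) + ∑ j ∈ Y i, sq a j

/-- The second alternative of `extract` (triangular cluster) for the arrangement `a`. -/
def AltA (w R : ℕ) (a : Fin k ≃ {x // x ∈ A}) : Prop :=
  ∃ (n c : ℕ) (X : Fin 7 → Finset ℕ) (p : Fin 6 → ℕ) (u : Fin 7 → ℕ) (Y : Fin 7 → Finset ℕ), n ≤ w ∧ c ≤ k ∧
    (∀ i, X i ⊆ range n) ∧ Tri 6 X p ∧ (∀ i, c ≤ u i ∧ u i ≤ c + 2 * R ∧ n ≤ u i ∧ u i ≤ k) ∧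
    (∀ i, Y i ⊆ Ico (u i) (u i + w) ∧ Y i ⊆ range k) ∧
    ∀ i, ∑ j ∈ X i, sq a j = pre (sq a) (u i) + ∑ j ∈ Y i, sq a j

def AltC (w : ℕ) (a : Fin k ≃ {x // x ∈ A}) : Prop :=
  ∃ Z₁ Z₂ : Finset ℕ, Z₁ ⊆ range w ∧ Z₂ ⊆ range w ∧ Z₁.Nonempty ∧ Z₂.Nonempty ∧ Z₁ ≠ Z₂ ∧
    ∑ j ∈ Z₁, sq a j = 0 ∧ ∑ j ∈ Z₂, sq a j = 0

/-- A bad arrangement satisfies one of the alternatives. -/
theorem bad_alt (hR : 0 < R) (hRk : R ≤ k) (a : Fin k ≃ {x // x ∈ A})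
    (h : ¬ Good k w (64 * (r + 1)) (sq a)) : AltB w R r a ∨ AltA w R a ∨ AltC w a := by
  by_contra hcon
  rw [not_or, not_or] at hcon
  obtain ⟨hB, hA, hC⟩ := hcon
  apply h
  constructor
  · intro n hn F hF
    by_contra hc
    rw [not_le] at hc
    rcases extract hR hRk F hF hc.le with ⟨X, u, Y, h1, h2, h3, h4, h5⟩ |
      ⟨c, X, p, u, Y, h0, h1, h2, h3, h4, h5⟩
    · exact hB ⟨X, u, Y, fun i => (h1 i).trans (range_subset_range.2 hn), h2, h3, h4, h5⟩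
    · exact hA ⟨n, c, X, p, u, Y, hn, h0, h1, h2, h3, h4, h5⟩
  · intro Z₁ Z₂ h1 h2 h3 h4 h5 h6
    by_contra hne
    exact hC ⟨Z₁, Z₂, h1, h2, h3, h4, hne, h5, h6⟩

end Pool.Agent.Zs91
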