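import Pool.Agent.W_2c7c9d_h91.Piv

/-! # MP_2c7c9d_co: a triangular cluster

* `countA`: `pivot` with `J` = positions in `[0, n)` or in `[c, c + 2 R + w) ∩ [n, k)` (at most `2 R + 2 w` positions),
  `P = {p i}` (the `p i` are in `[0, n)`, since `X i.castSucc` and `X 6` are subsets of `[0, n)` that differ at `p i`; they are
  different: for `i < j` the sets `X j.castSucc` and `X 6` agree at `p i` and differ at `p j`).  For `a, a'` in the set that
  agree on `J \ P`: subtract equation `6` from equation `i`: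
  `∑_{X i} - ∑_{X 6} = (pre (u i) - pre (u 6)) + (∑_{Y i} - ∑_{Y 6})`, the right side only depends on the steps in
  `[c, c + 2 R + w) ∩ [n, k)` (`pre (u i) - pre (u 6)` is `±` a sum over a subinterval of `[c, c + 2 R)` above `n`), so it is
  the same for `a` and `a'`.  On the left side the steps `p j`, `j < i`, cancel (`X i` and `X 6` agree at `p j`), so by
  downward induction on `i` (from `5` to `0`) `a (p i) = a' (p i)`. -/

set_option autoImplicit false

noncomputable section

namespace Pool.Agent.Zs91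

open Finset Nat

open Classical in
theorem countA {G : Type} [AddCommGroup G] {k : ℕ} [NeZero k] {A : Finset G} (hA : A.card = k)
    {w R n c : ℕ} (hn : n ≤ w) (hk : (2 * R + 2 * w) ^ 2 ≤ k) (X : Fin 7 → Finset ℕ) (p : Fin 6 → ℕ)
    (u : Fin 7 → ℕ) (Y : Fin 7 → Finset ℕ) (hX : ∀ i, X i ⊆ range n) (hT : Tri 6 X p)
    (hu : ∀ i, c ≤ u i ∧ u i ≤ c + 2 * R ∧ n ≤ u i ∧ u i ≤ k)
    (hY : ∀ i, Y i ⊆ Ico (u i) (u i + w) ∧ Y i ⊆ range k) :
    (univ.filter (fun a : Fin k ≃ {x // x ∈ A} =>
      ∀ i, ∑ j ∈ X i, sq a j = pre (sq a) (u i) + ∑ j ∈ Y i, sq a j)).card * k ^ 6 ≤ 2 * k ! := by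
  classical
  have hnk : n ≤ k := (hu 0).2.2.1.trans (hu 0).2.2.2
  have hpn : ∀ i, p i < n := by
    intro i
    by_contra hc
    apply (hT i).1
    constructor
    · intro h1; exact absurd (mem_range.mp (hX _ h1)) hc
    · intro h1; exact absurd (mem_range.mp (hX _ h1)) hc
  have hinj : Function.Injective p := by
    have aux : ∀ i j : Fin 6, i < j → p i ≠ p j := by
      intro i j hlt hij
      have h1 := (hT i).2 j.castSucc (Fin.castSucc_lt_castSucc_iff.mpr hlt)
      rw [hij] at h1
      exact (hT j).1 h1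
    intro i j hij
    by_contra hne
    rcases lt_or_gt_of_ne hne with hlt | hlt
    · exact aux i j hlt hij
    · exact aux j i hlt hij.symm
  set J : Finset (Fin k) :=
    univ.filter fun j => (j : ℕ) < n ∨ (c ≤ (j : ℕ) ∧ (j : ℕ) < c + (2 * R + w)) with hJ
  set q : Fin 6 → Fin k := fun i => ⟨p i, (hpn i).trans_le hnk⟩ with hq
  set P : Finset (Fin k) := univ.image q with hP
  have hqinj : Function.Injective q := fun i j h => hinj (by simpa [hq] using h)
  have hPcard : P.card = 6 := by rw [hP, card_image_of_injective _ hqinj]; simp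
  have hPJ : P ⊆ J := by
    intro x hx
    obtain ⟨i, -, rfl⟩ := mem_image.mp hx
    exact mem_filter.mpr ⟨mem_univ _, Or.inl (hpn i)⟩
  have hJcard : J.card ≤ 2 * R + 2 * w := by
    have h1 : (J.image fun x : Fin k => (x : ℕ)) ⊆ range n ∪ Ico c (c + (2 * R + w)) := by
      intro x hx
      obtain ⟨y, hy, rfl⟩ := mem_image.mp hx
      rcases (mem_filter.mp hy).2 with h | h
      · exact mem_union_left _ (mem_range.mpr h)
      · exact mem_union_right _ (mem_Ico.mpr h)
    have h2 : (J.image fun x : Fin k => (x : ℕ)).card = J.card :=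
      card_image_of_injective _ Fin.val_injective
    have h3 := card_le_card h1
    have h4 := card_union_le (range n) (Ico c (c + (2 * R + w)))
    rw [card_range, Nat.card_Ico] at h4
    omega
  have hJ2 : J.card ^ 2 ≤ k := (Nat.pow_le_pow_left hJcard 2).trans hk
  have main := pivot (α := {x // x ∈ A}) (k := k) (by simp [hA]) J P hPJ hJ2
    (univ.filter (fun a : Fin k ≃ {x // x ∈ A} =>
      ∀ i, ∑ j ∈ X i, sq a j = pre (sq a) (u i) + ∑ j ∈ Y i, sq a j)) ?_
  · rw [hPcard] at main
    exact main
  intro a ha a' ha' hag x hx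
  simp only [mem_filter, mem_univ, true_and] at ha ha'
  obtain ⟨i₀, -, rfl⟩ := mem_image.mp hx
  set d : ℕ → G := fun j => sq a j - sq a' j with hd
  have hd0 : ∀ j < k, (j < n ∨ (c ≤ j ∧ j < c + (2 * R + w))) → (∀ l, p l ≠ j) → d j = 0 := by
    intro j hjk hj hl
    have hmem : (⟨j, hjk⟩ : Fin k) ∈ J \ P := by
      rw [mem_sdiff]
      refine ⟨mem_filter.mpr ⟨mem_univ _, hj⟩, fun h => ?_⟩
      obtain ⟨l, -, h2⟩ := mem_image.mp h
      exact hl l (by simpa [hq] using congrArg Fin.val h2)
    have := hag _ hmem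
    simp only [hd, sq, per_lt _ hjk, this, sub_self]
  have hd1 : ∀ j < k, n ≤ j → c ≤ j → j < c + (2 * R + w) → d j = 0 := by
    intro j hjk hj1 hj2 hj3
    refine hd0 j hjk (Or.inr ⟨hj2, hj3⟩) fun l hl => ?_
    have := hpn l
    omega
  have hpre : ∀ u1 u2, u1 ≤ u2 → n ≤ u1 → c ≤ u1 → u2 ≤ c + 2 * R → u2 ≤ k →
      ∑ j ∈ range u1, d j = ∑ j ∈ range u2, d j := by
    intro u1 u2 h12 h1 h2 h3 h4
    rw [← Finset.sum_range_add_sum_Ico _ h12, Finset.sum_eq_zero (s := Ico u1 u2), add_zero]
    intro j hj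
    rw [mem_Ico] at hj
    exact hd1 j (by omega) (by omega) (by omega) (by omega)
  have hY0 : ∀ i, ∑ j ∈ Y i, d j = 0 := by
    intro i
    refine Finset.sum_eq_zero fun j hj => ?_
    have h1 := mem_Ico.mp ((hY i).1 hj)
    have h2 := mem_range.mp ((hY i).2 hj)
    have h3 := hu i
    exact hd1 j h2 (by omega) (by omega) (by omega)
  have heq : ∀ i : Fin 7, ∑ j ∈ X i, d j = ∑ j ∈ range (u i), d j := by
    intro i
    have h0 := hY0 i
    have h1 := ha i
    have h2 := ha' i
    simp only [hd, sum_sub_distrib] at h0 ⊢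
    rw [h1, h2]
    unfold pre
    rw [add_sub_add_comm, h0, add_zero]
  have heq6 : ∀ i : Fin 7, ∑ j ∈ X i, d j = ∑ j ∈ X (Fin.last 6), d j := by
    intro i
    rw [heq, heq]
    have h1 := hu i
    have h2 := hu (Fin.last 6)
    rcases le_total (u i) (u (Fin.last 6)) with h | h
    · exact hpre _ _ h h1.2.2.1 h1.1 h2.2.1 h2.2.2.2
    · exact (hpre _ _ h h2.2.2.1 h2.1 h1.2.1 h1.2.2.2).symm
  have hfil : ∀ i, ∑ j ∈ range n, (if j ∈ X i then d j else 0) = ∑ j ∈ X i, d j := by
    intro i
    rw [← sum_filter, filter_mem_eq_inter, inter_eq_right.mpr (hX i)]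
  have key : ∀ i : Fin 6, d (p i) = 0 := by
    intro i
    induction i using WellFoundedGT.induction with
    | ind i ih =>
      have h1 : ∑ j ∈ range n, ((if j ∈ X i.castSucc then d j else 0) -
          (if j ∈ X (Fin.last 6) then d j else 0)) = 0 := by
        rw [sum_sub_distrib, hfil, hfil, heq6 i.castSucc, sub_self]
      rw [sum_eq_single (p i)] at h1
      · have h2 := (hT i).1
        by_cases h3 : p i ∈ X i.castSucc
        · by_cases h4 : p i ∈ X (Fin.last 6)
          · exact absurd ⟨fun _ => h4, fun _ => h3⟩ h2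
          · rw [if_pos h3, if_neg h4, sub_zero] at h1
            exact h1
        · by_cases h4 : p i ∈ X (Fin.last 6)
          · rw [if_neg h3, if_pos h4, zero_sub, neg_eq_zero] at h1
            exact h1
          · exact absurd ⟨fun h => absurd h h3, fun h => absurd h h4⟩ h2
      · intro j hj hne
        by_cases hl : ∃ l, p l = j
        · obtain ⟨l, rfl⟩ := hl
          have hli : l ≠ i := fun h => hne (by rw [h])
          rcases lt_or_gt_of_ne hli with h | h
          · have h2 := (hT l).2 i.castSucc (Fin.castSucc_lt_castSucc_iff.mpr h)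
            by_cases h3 : p l ∈ X (Fin.last 6)
            · rw [if_pos h3, if_pos (h2.mpr h3), sub_self]
            · rw [if_neg h3, if_neg fun h4 => h3 (h2.mp h4), sub_self]
          · rw [ih l h]
            simp
        · push Not at hl
          have h2 := mem_range.mp hj
          rw [hd0 j (by omega) (Or.inl h2) hl]
          simp
      · intro h
        exact absurd (mem_range.mpr (hpn i)) h
  have h1 := key i₀
  have hk' : p i₀ < k := (hpn i₀).trans_le hnk
  simp only [hd, sq, per_lt _ hk', sub_eq_zero] at h1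
  exact Subtype.ext h1

end Pool.Agent.Zs91
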