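import Pool.Agent.W_2c7c9d_h91.Alt
import Pool.Agent.W_2c7c9d_h91.CntA

/-! # MP_2c7c9d_co: the number of arrangements with a triangular cluster

`altA_card`: union bound over `(n, c, X, u, Y)`: `n ∈ range (w + 1)`, `c ∈ range (k + 1)`, and for each `i : Fin 7` `X i ⊆ range w`,
`u i ∈ Icc c (c + 2 R)`, `Y i` = the image under `(u i + ·)` of a subset of `range w`
(`(w + 1) (k + 1) (4 ^ w (2 R + 1)) ^ 7` choices), each with `countA` (`E.card ≤ 2 k ! / k ^ 6`); for the choices that do not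
satisfy the hypotheses of `countA` (`∃ p, Tri 6 X p`, `n ≤ u i ≤ k`, `Y i ⊆ range k`) take the empty set.  A convenient way:
write `u i = c + v i` with `v i ∈ range (2 R + 1)`, `Y i` = image of `Y' i ⊆ range w`, and index by
`range (w + 1) ×ˢ range (k + 1) ×ˢ Fintype.piFinset (fun _ : Fin 7 => (range w).powerset ×ˢ range (2 * R + 1) ×ˢ (range w).powerset)`. -/

set_option autoImplicit false

noncomputable section

namespace Pool.Agent.Zs91

open Finset Nat

variable {G : Type} [AddCommGroup G] {k : ℕ} [NeZero k] {A : Finset G} {w L R r : ℕ}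

theorem altA_shift {u w : ℕ} {Y : Finset ℕ} (hY : Y ⊆ Ico u (u + w)) :
    ∃ Y' ∈ (range w).powerset, Y'.image (fun j => u + j) = Y := by
  classical
  refine ⟨(range w).filter (fun j => u + j ∈ Y), ?_, ?_⟩
  · rw [mem_powerset]
    exact filter_subset _ _
  · ext x
    simp only [mem_image, mem_filter, mem_range]
    constructor
    · rintro ⟨j, ⟨-, h⟩, rfl⟩
      exact h
    · intro hx
      have h := mem_Ico.1 (hY hx)
      exact ⟨x - u, ⟨by omega, by rwa [Nat.add_sub_cancel' h.1]⟩, by omega⟩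

theorem altA_union {α β : Type} [Fintype α] (S : Finset β) (Q : α → Prop)
    [DecidablePred Q] (T : β → Finset α) (B : ℝ) (h1 : ∀ a, Q a → ∃ σ ∈ S, a ∈ T σ)
    (h2 : ∀ σ ∈ S, ((T σ).card : ℝ) ≤ B) : ((univ.filter Q).card : ℝ) ≤ S.card * B := by
  classical
  have h3 : univ.filter Q ⊆ S.biUnion T := by
    intro a ha
    obtain ⟨σ, hσ, h⟩ := h1 a (mem_filter.1 ha).2
    exact mem_biUnion.2 ⟨σ, hσ, h⟩
  have h4 : (univ.filter Q).card ≤ ∑ σ ∈ S, (T σ).card := (card_le_card h3).trans card_biUnion_le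
  calc ((univ.filter Q).card : ℝ) ≤ ((∑ σ ∈ S, (T σ).card : ℕ) : ℝ) := by exact_mod_cast h4
    _ = ∑ σ ∈ S, ((T σ).card : ℝ) := by push_cast; rfl
    _ ≤ ∑ _σ ∈ S, B := sum_le_sum h2
    _ = S.card * B := by rw [sum_const, nsmul_eq_mul]

/-- The conditions on a choice. -/
def CondA (k w R n c : ℕ) (X : Fin 7 → Finset ℕ) (u : Fin 7 → ℕ) (Y : Fin 7 → Finset ℕ) : Prop :=
  n ≤ w ∧ (∀ i, X i ⊆ range n) ∧ (∃ p : Fin 6 → ℕ, Tri 6 X p) ∧
    (∀ i, c ≤ u i ∧ u i ≤ c + 2 * R ∧ n ≤ u i ∧ u i ≤ k) ∧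
    (∀ i, Y i ⊆ Ico (u i) (u i + w) ∧ Y i ⊆ range k)

open Classical in
theorem altA_card (hA : A.card = k) (hk : (2 * R + 2 * w) ^ 2 ≤ k) :
    ((univ.filter (fun a : Fin k ≃ {x // x ∈ A} => AltA w R a)).card : ℝ) ≤
      (w + 1) * (k + 1) * ((4 : ℝ) ^ w * (2 * R + 1)) ^ 7 * (2 * k ! / (k : ℝ) ^ 6) := by
  have hk0 : (0 : ℝ) < k := by exact_mod_cast NeZero.pos k
  let S : Finset (ℕ × ℕ × (Fin 7 → Finset ℕ × ℕ × Finset ℕ)) :=
    range (w + 1) ×ˢ range (k + 1) ×ˢ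
    Fintype.piFinset (fun _ : Fin 7 => (range w).powerset ×ˢ range (2 * R + 1) ×ˢ (range w).powerset)
  have hS : ((S.card : ℕ) : ℝ) = (w + 1) * (k + 1) * ((4 : ℝ) ^ w * (2 * R + 1)) ^ 7 := by
    have h1 : S.card = (w + 1) * ((k + 1) * (2 ^ w * ((2 * R + 1) * 2 ^ w)) ^ 7) := by
      simp only [S, Fintype.card_piFinset, card_product, card_powerset, card_range, prod_const,
        Finset.card_univ, Fintype.card_fin]
    rw [h1]
    push_cast
    rw [show (4 : ℝ) = 2 * 2 by norm_num, mul_pow 2 2 w]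
    ring
  rw [← hS]
  refine altA_union S (fun a : Fin k ≃ {x // x ∈ A} => AltA w R a)
    (fun σ => univ.filter (fun a : Fin k ≃ {x // x ∈ A} =>
      CondA k w R σ.1 σ.2.1 (fun i => (σ.2.2 i).1) (fun i => σ.2.1 + (σ.2.2 i).2.1)
        (fun i => ((σ.2.2 i).2.2).image (fun j => σ.2.1 + (σ.2.2 i).2.1 + j)) ∧
      ∀ i, ∑ j ∈ (σ.2.2 i).1, sq a j = pre (sq a) (σ.2.1 + (σ.2.2 i).2.1) +
        ∑ j ∈ ((σ.2.2 i).2.2).image (fun j => σ.2.1 + (σ.2.2 i).2.1 + j), sq a j)) _ ?_ ?_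
  · rintro a ⟨n, c, X, p, u, Y, hn, hc, hX, hT, hu, hY, he⟩
    choose Y' hY' hYY using fun i => altA_shift (hY i).1
    have hcu : ∀ i, c + (u i - c) = u i := fun i => Nat.add_sub_cancel' (hu i).1
    refine ⟨(n, c, fun i => (X i, u i - c, Y' i)), ?_, ?_⟩
    · rw [mem_product, mem_product]
      refine ⟨mem_range.2 (Nat.lt_succ_of_le hn), mem_range.2 (Nat.lt_succ_of_le hc), ?_⟩
      rw [Fintype.mem_piFinset]
      intro i
      rw [mem_product, mem_product]
      have h1 : u i - c < 2 * R + 1 := by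
        have := (hu i).2.1
        omega
      exact ⟨mem_powerset.2 ((hX i).trans (range_subset_range.2 hn)), mem_range.2 h1, hY' i⟩
    · rw [mem_filter]
      refine ⟨mem_univ _, ⟨hn, hX, ⟨p, hT⟩, fun i => ?_, fun i => ?_⟩, fun i => ?_⟩
      · simp only [hcu i]
        exact hu i
      · simp only [hcu i, hYY i]
        exact hY i
      · simp only [hcu i, hYY i]
        exact he i
  · intro σ _
    by_cases hc : CondA k w R σ.1 σ.2.1 (fun i => (σ.2.2 i).1) (fun i => σ.2.1 + (σ.2.2 i).2.1)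
        (fun i => ((σ.2.2 i).2.2).image (fun j => σ.2.1 + (σ.2.2 i).2.1 + j))
    · obtain ⟨hn, hX, ⟨p, hT⟩, hu, hY⟩ := hc
      have h2 := countA hA hn hk (fun i => (σ.2.2 i).1) p (fun i => σ.2.1 + (σ.2.2 i).2.1)
        (fun i => ((σ.2.2 i).2.2).image (fun j => σ.2.1 + (σ.2.2 i).2.1 + j)) hX hT hu hY
      rw [le_div_iff₀ (by positivity)]
      refine le_trans ?_ (show ((_ : ℕ) : ℝ) ≤ _ from by exact_mod_cast h2)
      push_cast
      refine mul_le_mul_of_nonneg_right ?_ (by positivity)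
      norm_cast
      apply card_le_card
      intro a ha
      rw [mem_filter] at ha ⊢
      exact ⟨ha.1, ha.2.2⟩
    · rw [filter_eq_empty_iff.2 (fun a _ h => hc h.1), card_empty]
      push_cast
      positivity

end Pool.Agent.Zs91
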