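import Pool.Agent.W_2c7c9d_h91.Swp

/-! # MP_2c7c9d_co: averaging over swaps

* `avg_swap`: `∑_a #{ε | (tau e ε).trans a ∈ E} = ∑_ε #{a | (tau e ε).trans a ∈ E} = 2 ^ (r L) * E.card`
  (`a ↦ (tau e ε).trans a` is a bijection, `Finset.sum_comm`), and the left side is at most
  `∑_a ∏_i (2 ^ L * g i a) = 2 ^ (r L) ∑_a ∏_i g i a`. -/

set_option autoImplicit false

noncomputable section

namespace Pool.Agent.Zs91

open Finset Nat

open Classical in
theorem avg_swap {α : Type} [Fintype α] {k r L : ℕ} (e : (Fin r × Fin L) × Bool ↪ Fin k)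
    (E : Finset (Fin k ≃ α)) (g : Fin r → (Fin k ≃ α) → ℝ)
    (h : ∀ a : Fin k ≃ α, ((univ.filter (fun ε : Fin r × Fin L → Bool => (tau e ε).trans a ∈ E)).card : ℝ) ≤
      ∏ i, (2 ^ L * g i a)) :
    (E.card : ℝ) ≤ ∑ a : Fin k ≃ α, ∏ i, g i a := by
  classical
  have h1 : ∀ ε : Fin r × Fin L → Bool,
      ∑ a : Fin k ≃ α, (if (tau e ε).trans a ∈ E then (1 : ℝ) else 0) = E.card := by
    intro ε
    let Φ : (Fin k ≃ α) ≃ (Fin k ≃ α) :=
      { toFun := fun a => (tau e ε).trans a
        invFun := fun a => (tau e ε).symm.trans a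
        left_inv := fun a => by ext x; simp
        right_inv := fun a => by ext x; simp }
    have h2 : ∑ a : Fin k ≃ α, (if (tau e ε).trans a ∈ E then (1 : ℝ) else 0) =
        ∑ a : Fin k ≃ α, (if a ∈ E then (1 : ℝ) else 0) :=
      Equiv.sum_comp Φ fun a => if a ∈ E then (1 : ℝ) else 0
    rw [h2]
    simp
  have h3 : ∑ a : Fin k ≃ α,
      ((univ.filter (fun ε : Fin r × Fin L → Bool => (tau e ε).trans a ∈ E)).card : ℝ) =
      2 ^ (r * L) * E.card := by
    have h4 : ∀ a : Fin k ≃ α,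
        ((univ.filter (fun ε : Fin r × Fin L → Bool => (tau e ε).trans a ∈ E)).card : ℝ) =
        ∑ ε : Fin r × Fin L → Bool, (if (tau e ε).trans a ∈ E then (1 : ℝ) else 0) := by
      intro a
      rw [Finset.card_filter]
      push_cast
      rfl
    rw [Finset.sum_congr rfl fun a _ => h4 a, Finset.sum_comm,
      Finset.sum_congr rfl fun ε _ => h1 ε, Finset.sum_const, Finset.card_univ, nsmul_eq_mul]
    congr 1
    simp
  have h5 : ∑ a : Fin k ≃ α,
      ((univ.filter (fun ε : Fin r × Fin L → Bool => (tau e ε).trans a ∈ E)).card : ℝ) ≤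
      2 ^ (r * L) * ∑ a : Fin k ≃ α, ∏ i, g i a := by
    refine (Finset.sum_le_sum fun a _ => h a).trans (le_of_eq ?_)
    rw [Finset.mul_sum]
    refine Finset.sum_congr rfl fun a _ => ?_
    rw [Finset.prod_mul_distrib, Finset.prod_const, Finset.card_univ, Fintype.card_fin, ← pow_mul,
      mul_comm L r]
  rw [h3] at h5
  exact le_of_mul_le_mul_left h5 (by positivity)

end Pool.Agent.Zs91
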