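import Mathlib

/-! # MP_2c7c9d_co: positions next to separated targets

* `exists_e`: positions `p (i, j) = u i - 1 - j`, `q (i, j) = u i + w + j` (`i < r`, `j < L`): all are in
  `[u i - L, u i + w + L) ⊆ [0, k)`, and these intervals are disjoint for different `i` (`2 L + 2 w ≤ R`); inside one interval
  `p` is below `u i` and `q` is above it.
* `count_curry`: `Equiv.curry (Fin r) (Fin L) Bool` maps the set onto `Fintype.piFinset` of the single sets
  (`Fintype.card_piFinset`). -/

set_option autoImplicit false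

noncomputable section

namespace Pool.Agent.Zs91

open Finset Nat

theorem exists_e {k w L R r : ℕ} (hR : 2 * L + 2 * w ≤ R) (u : Fin r → ℕ)
    (hu : ∀ i, R ≤ u i ∧ u i + R ≤ k) (huu : ∀ i j, i ≠ j → u i + R ≤ u j ∨ u j + R ≤ u i) :
    ∃ e : (Fin r × Fin L) × Bool ↪ Fin k,
      (∀ i j, (e ((i, j), false) : ℕ) = u i - 1 - j) ∧ ∀ i j, (e ((i, j), true) : ℕ) = u i + w + j := by
  have h1 : ∀ (i : Fin r) (j : Fin L), u i - 1 - (j : ℕ) < k := by
    intro i j
    have := hu i
    have := j.2
    omega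
  have h2 : ∀ (i : Fin r) (j : Fin L), u i + w + (j : ℕ) < k := by
    intro i j
    have := hu i
    have := j.2
    omega
  let f : (Fin r × Fin L) × Bool → Fin k := fun x =>
    if x.2 = true then ⟨u x.1.1 + w + x.1.2, h2 _ _⟩ else ⟨u x.1.1 - 1 - x.1.2, h1 _ _⟩
  have hf : Function.Injective f := by
    rintro ⟨⟨i, j⟩, a⟩ ⟨⟨i', j'⟩, b⟩ h
    have hv : ((f ((i, j), a)) : ℕ) = (f ((i', j'), b) : ℕ) := congrArg Fin.val h
    have k1 := hu i
    have k2 := hu i'
    have k3 := j.2
    have k4 := j'.2
    have key : i = i' ∧ (j : ℕ) = j' ∧ a = b := by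
      by_cases hii : i = i'
      · subst hii
        cases a <;> cases b <;> simp [f] at hv ⊢ <;> omega
      · have k5 := huu i i' hii
        exfalso
        cases a <;> cases b <;> simp [f] at hv <;> omega
    obtain ⟨e1, e2, e3⟩ := key
    rw [e1, Fin.ext e2, e3]
  exact ⟨⟨f, hf⟩, fun i j => by simp [f], fun i j => by simp [f]⟩

open Classical in
theorem count_curry {r L : ℕ} (P : Fin r → (Fin L → Bool) → Prop) :
    (univ.filter (fun ε : Fin r × Fin L → Bool => ∀ i, P i (fun j => ε (i, j)))).card =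
      ∏ i, (univ.filter (fun ε : Fin L → Bool => P i ε)).card := by
  rw [← Fintype.card_piFinset]
  refine Finset.card_bij (fun ε _ => fun i j => ε (i, j)) ?_ ?_ ?_
  · intro ε hε
    simpa [Fintype.mem_piFinset] using hε
  · intro ε _ ε' _ h
    funext x
    exact congrFun (congrFun h x.1) x.2
  · intro g hg
    refine ⟨fun x => g x.1 x.2, ?_, rfl⟩
    simpa [Fintype.mem_piFinset] using hg

end Pool.Agent.Zs91
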