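import Pool.Agent.W_2c7c9d_h91.Defs

/-! # MP_2c7c9d_co: orthogonality bound

* `four`: the number of `ε` with `c + ∑_{j : ε j} d j = 0` is `∑_ε (1/|G|) ∑_χ χ (c + ∑_{j : ε j} d j)`
  (orthogonality: `AddChar.sum_apply_eq_ite`) `= (1/|G|) ∑_χ χ c ∏_j (1 + χ (d j))`
  (`Finset.prod_univ_sum` / `Fintype.piFinset`, or `Finset.prod_add`); take norms (`‖χ c‖ = 1`, `AddChar.norm_apply`). -/

set_option autoImplicit false

noncomputable section

namespace Pool.Agent.Zs91

open Finset Nat

open Classical in
theorem four {G : Type} [AddCommGroup G] [Fintype G] {L : ℕ} (c : G) (d : Fin L → G) :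
    ((univ.filter (fun ε : Fin L → Bool => c + ∑ j, (if ε j = true then d j else 0) = 0)).card : ℝ) ≤
      2 ^ L * ((∑ χ : AddChar G ℂ, ∏ j, (‖1 + χ (d j)‖ / 2)) / Fintype.card G) := by
  have hG : (0 : ℝ) < Fintype.card G := by exact_mod_cast Fintype.card_pos
  set S := univ.filter (fun ε : Fin L → Bool => c + ∑ j, (if ε j = true then d j else 0) = 0)
    with hS
  have key : ((S.card : ℕ) : ℂ) * (Fintype.card G : ℂ) =
      ∑ χ : AddChar G ℂ, χ c * ∏ j, (1 + χ (d j)) := by
    calc ((S.card : ℕ) : ℂ) * (Fintype.card G : ℂ)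
        = ∑ ε : Fin L → Bool,
            (if c + ∑ j, (if ε j = true then d j else 0) = 0 then (Fintype.card G : ℂ) else 0) := by
          rw [hS, Finset.card_filter, Nat.cast_sum, Finset.sum_mul]
          refine Finset.sum_congr rfl fun ε _ => ?_
          split_ifs <;> simp
      _ = ∑ ε : Fin L → Bool, ∑ χ : AddChar G ℂ,
            χ (c + ∑ j, (if ε j = true then d j else 0)) := by
          refine Finset.sum_congr rfl fun ε _ => ?_
          rw [AddChar.sum_apply_eq_ite]
      _ = ∑ χ : AddChar G ℂ, ∑ ε : Fin L → Bool,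
            χ (c + ∑ j, (if ε j = true then d j else 0)) := Finset.sum_comm
      _ = ∑ χ : AddChar G ℂ, χ c * ∏ j, (1 + χ (d j)) := by
          refine Finset.sum_congr rfl fun χ _ => ?_
          have h1 : ∏ j, (1 + χ (d j)) =
              ∏ j : Fin L, ∑ b : Bool, χ (if b = true then d j else 0) := by
            refine Finset.prod_congr rfl fun j _ => ?_
            rw [Fintype.sum_bool]
            simp [add_comm]
          rw [h1, Finset.prod_univ_sum, Fintype.piFinset_univ, Finset.mul_sum]
          refine Finset.sum_congr rfl fun ε _ => ?_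
          rw [AddChar.map_add_eq_mul]
          congr 1
          have h5 : ∀ (t : Finset (Fin L)) (g : Fin L → G), χ (∑ j ∈ t, g j) = ∏ j ∈ t, χ (g j) := by
            intro t g
            induction t using Finset.induction_on with
            | empty => simp
            | insert a t ha ih =>
              rw [Finset.sum_insert ha, Finset.prod_insert ha, AddChar.map_add_eq_mul, ih]
          exact h5 _ _
  have h2 : (S.card : ℝ) * Fintype.card G ≤ ∑ χ : AddChar G ℂ, ∏ j, ‖1 + χ (d j)‖ := by
    have h3 : ‖((S.card : ℕ) : ℂ) * (Fintype.card G : ℂ)‖ = (S.card : ℝ) * Fintype.card G := by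
      rw [norm_mul]; simp
    rw [← h3, key]
    refine (norm_sum_le _ _).trans (Finset.sum_le_sum fun χ _ => ?_)
    rw [norm_mul, AddChar.norm_apply, one_mul, norm_prod]
  have h4 : ∑ χ : AddChar G ℂ, ∏ j, ‖1 + χ (d j)‖ =
      2 ^ L * ∑ χ : AddChar G ℂ, ∏ j, (‖1 + χ (d j)‖ / 2) := by
    rw [Finset.mul_sum]
    refine Finset.sum_congr rfl fun χ _ => ?_
    rw [Finset.prod_div_distrib, Finset.prod_const, Finset.card_univ, Fintype.card_fin]
    field_simp
  rw [← mul_div_assoc, le_div_iff₀ hG, ← h4]
  exact h2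

end Pool.Agent.Zs91
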