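import Mathlib

/-! # MP_2c7c9d_co: number of bijections with prescribed values

* `ext_card`: bijections that agree with `a₀` on `J`: `a ↦ a.trans a₀.symm` is a permutation of `Fin k` that fixes
  `J` pointwise; these are the permutations of the complement (`Equiv.Perm.subtypeEquivSubtypePerm`,
  `Fintype.card_perm`). -/

set_option autoImplicit false

noncomputable section

namespace Pool.Agent.Zs91

open Finset Nat

theorem ext_card {α : Type} [Fintype α] [DecidableEq α] {k : ℕ} (hα : Fintype.card α = k)
    (J : Finset (Fin k)) (a₀ : Fin k ≃ α) :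
    (univ.filter (fun a : Fin k ≃ α => ∀ x ∈ J, a x = a₀ x)).card = (k - J.card)! := by
  classical
  have h1 : (univ.filter (fun a : Fin k ≃ α => ∀ x ∈ J, a x = a₀ x)).card =
      Fintype.card {f : Equiv.Perm (Fin k) // ∀ x, ¬ (x ∉ J) → f x = x} := by
    rw [← Fintype.card_subtype]
    refine Fintype.card_congr ?_
    refine
      { toFun := fun a => ⟨a.1.trans a₀.symm, fun x hx => ?_⟩
        invFun := fun f => ⟨f.1.trans a₀, fun x hx => ?_⟩
        left_inv := fun a => ?_
        right_inv := fun f => ?_ }
    · rw [not_not] at hx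
      simp [a.2 x hx]
    · simp [f.2 x (not_not.2 hx)]
    · ext x
      simp
    · ext x
      simp
  rw [h1, ← Fintype.card_congr (Equiv.Perm.subtypeEquivSubtypePerm (fun x : Fin k => x ∉ J)),
    Fintype.card_perm]
  congr 1
  rw [Fintype.card_subtype_compl, Fintype.card_fin]
  simp

end Pool.Agent.Zs91
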