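import Pool.Agent.W_2c7c9d_h91.Desc
import Pool.Agent.W_2c7c9d_h91.ExtC

/-! # MP_2c7c9d_co: the sum over all bijections of a product

* `sum_prod_le`: group the `a` by their values at the positions `e _` (`N = 2 r L` positions; for given values at most
  `(k - N) !` bijections, `ext_card` with `J` the range of `e`, `J.card = N`): the sum is
  `≤ (k - N) ! * ∑_{f : (Fin r × Fin L) × Bool → α} ∏_i Φ (fun j => (f ((i, j), false), f ((i, j), true)))`
  `= (k - N) ! * (∑_{f : Fin L → α × α} Φ f) ^ r` (`Equiv` between `(Fin r × Fin L) × Bool → α` and `Fin r → (Fin L → α × α)`,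
  `Finset.prod_univ_sum`, `Fintype.piFinset_univ`), and `k ^ N * (k - N) ! ≤ 2 * k !` (`desc`), `k ^ N = (k ^ (2 L)) ^ r`. -/

set_option autoImplicit false

noncomputable section

namespace Pool.Agent.Zs91

open Finset Nat

/-- the values at the positions as `r` lists of `L` pairs -/
def Spl_equiv (α : Type) (r L : ℕ) : ((Fin r × Fin L) × Bool → α) ≃ (Fin r → (Fin L → α × α)) where
  toFun g := fun i j => (g ((i, j), false), g ((i, j), true))
  invFun h := fun x => if x.2 then (h x.1.1 x.1.2).2 else (h x.1.1 x.1.2).1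
  left_inv g := by
    funext x
    obtain ⟨⟨i, j⟩, b⟩ := x
    cases b <;> simp
  right_inv h := by
    funext i j
    simp

theorem Spl_fib {α : Type} [Fintype α] [DecidableEq α] {k r L : ℕ} (hα : Fintype.card α = k)
    (e : (Fin r × Fin L) × Bool ↪ Fin k) (g : (Fin r × Fin L) × Bool → α) :
    (univ.filter (fun a : Fin k ≃ α => (fun x => a (e x)) = g)).card ≤ (k - 2 * r * L)! := by
  rcases (univ.filter (fun a : Fin k ≃ α => (fun x => a (e x)) = g)).eq_empty_or_nonempty with h | h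
  · rw [h]
    simp
  · obtain ⟨a₀, ha₀⟩ := h
    rw [mem_filter] at ha₀
    have h1 := ext_card hα (univ.map e) a₀
    have h2 : (univ.map e).card = 2 * r * L := by
      rw [card_map, Finset.card_univ, Fintype.card_prod, Fintype.card_prod, Fintype.card_fin,
        Fintype.card_fin, Fintype.card_bool]
      ring
    rw [h2] at h1
    rw [← h1]
    refine card_le_card fun a ha => ?_
    rw [mem_filter] at ha ⊢
    refine ⟨mem_univ _, fun x hx => ?_⟩
    rw [mem_map] at hx
    obtain ⟨y, _, rfl⟩ := hx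
    have h3 := congrFun (ha.2.trans ha₀.2.symm) y
    exact h3

theorem sum_prod_le {α : Type} [Fintype α] [DecidableEq α] {k r L : ℕ} (hα : Fintype.card α = k)
    (hk0 : 0 < k) (hk : (2 * r * L) ^ 2 ≤ k) (e : (Fin r × Fin L) × Bool ↪ Fin k) (Φ : (Fin L → α × α) → ℝ)
    (hΦ : ∀ f, 0 ≤ Φ f) :
    ∑ a : Fin k ≃ α, ∏ i, Φ (fun j => (a (e ((i, j), false)), a (e ((i, j), true)))) ≤
      2 * k ! * ((∑ f, Φ f) / (k : ℝ) ^ (2 * L)) ^ r := by
  have hS : 0 ≤ ∑ f, Φ f := sum_nonneg fun f _ => hΦ f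
  -- step 1: the sum over all tuples of values
  have h1 : ∑ a : Fin k ≃ α, ∏ i, Φ (fun j => (a (e ((i, j), false)), a (e ((i, j), true)))) ≤
      ∑ g : (Fin r × Fin L) × Bool → α,
        ((k - 2 * r * L)! : ℝ) * ∏ i, Φ (fun j => (g ((i, j), false), g ((i, j), true))) := by
    rw [← Finset.sum_fiberwise (s := (univ : Finset (Fin k ≃ α)))
      (g := fun a : Fin k ≃ α => (fun x => a (e x) : (Fin r × Fin L) × Bool → α))]
    refine sum_le_sum fun g _ => ?_
    have h2 : ∀ a ∈ univ.filter (fun a : Fin k ≃ α => (fun x => a (e x)) = g),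
        ∏ i, Φ (fun j => (a (e ((i, j), false)), a (e ((i, j), true)))) =
          ∏ i, Φ (fun j => (g ((i, j), false), g ((i, j), true))) := by
      intro a ha
      rw [mem_filter] at ha
      rw [← ha.2]
    rw [sum_congr rfl h2, sum_const, nsmul_eq_mul]
    refine mul_le_mul_of_nonneg_right ?_ (prod_nonneg fun i _ => hΦ _)
    exact_mod_cast Spl_fib hα e g
  -- step 2: the sum over the tuples of values is a power
  have h2 : ∑ g : (Fin r × Fin L) × Bool → α, ∏ i, Φ (fun j => (g ((i, j), false), g ((i, j), true))) =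
      (∑ f, Φ f) ^ r := by
    have h0 : ∑ g : (Fin r × Fin L) × Bool → α, ∏ i, Φ (fun j => (g ((i, j), false), g ((i, j), true))) =
        ∑ h : Fin r → (Fin L → α × α), ∏ i, Φ (h i) :=
      Fintype.sum_equiv (Spl_equiv α r L)
        (fun g : (Fin r × Fin L) × Bool → α => ∏ i, Φ (fun j => (g ((i, j), false), g ((i, j), true))))
        (fun h => ∏ i, Φ (h i)) (fun g => rfl)
    rw [h0]
    have h3 := Finset.prod_univ_sum (fun _ : Fin r => (univ : Finset (Fin L → α × α)))
      (fun _ f => Φ f)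
    rw [Fintype.piFinset_univ] at h3
    rw [← h3, prod_const, Finset.card_univ, Fintype.card_fin]
  rw [← mul_sum, h2] at h1
  refine h1.trans ?_
  -- step 3: factorials
  have h3 := desc (k := k) (N := 2 * r * L) hk
  have hk' : (0 : ℝ) < (k : ℝ) ^ (2 * r * L) := by positivity
  have h4 : ((k : ℝ) ^ (2 * L)) ^ r = (k : ℝ) ^ (2 * r * L) := by
    rw [← pow_mul]
    congr 1
    ring
  rw [div_pow, h4, ← mul_div_assoc, le_div_iff₀ hk']
  have h5 : ((k : ℝ) ^ (2 * r * L)) * ((k - 2 * r * L)! : ℝ) ≤ 2 * k ! := by exact_mod_cast h3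
  calc ((k - 2 * r * L)! : ℝ) * (∑ f, Φ f) ^ r * (k : ℝ) ^ (2 * r * L)
      = (((k : ℝ) ^ (2 * r * L)) * ((k - 2 * r * L)! : ℝ)) * (∑ f, Φ f) ^ r := by ring
    _ ≤ 2 * k ! * (∑ f, Φ f) ^ r := mul_le_mul_of_nonneg_right h5 (pow_nonneg hS r)

end Pool.Agent.Zs91
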