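import Pool.Agent.W_2c7c9d_h91.Defs

/-! # MP_2c7c9d_co: theta as an average

* `sum_theta`: exchange the sums over `f` and `χ` (`Finset.sum_comm`), `∑_f ∏_j ψ (f j) = (∑_{p} ψ p) ^ L` (`Finset.prod_univ_sum`
  or `Finset.sum_pow'`, `Fintype.piFinset_univ`), `∑_{p ∈ A × A}` as an iterated sum (`Finset.sum_coe_sort`, `Finset.sum_product`),
  the names of `x` and `y` exchanged (`Finset.sum_comm`), and `(A.card ^ 2) ^ L = A.card ^ (2 L)`. -/

set_option autoImplicit false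

noncomputable section

namespace Pool.Agent.Zs91

open Finset Nat

/-- The sum over all pairs of values of the Fourier weight is `theta`. -/
theorem sum_theta {G : Type} [AddCommGroup G] [Fintype G] (A : Finset G) (L : ℕ) :
    (∑ f : Fin L → {x // x ∈ A} × {x // x ∈ A},
      (∑ χ : AddChar G ℂ, ∏ j, (‖1 + χ ((f j).2 - (f j).1 : G)‖ / 2)) / Fintype.card G) /
        (A.card : ℝ) ^ (2 * L) = theta A L := by
  classical
  have h1 : ∀ χ : AddChar G ℂ, (∑ p : {x // x ∈ A} × {x // x ∈ A}, ‖1 + χ (p.2 - p.1 : G)‖ / 2) =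
      ∑ x ∈ A, ∑ y ∈ A, ‖1 + χ (x - y)‖ / 2 := by
    intro χ
    rw [Fintype.sum_prod_type, Finset.sum_comm]
    have h2 : ∀ y : {x // x ∈ A}, (∑ x : {x // x ∈ A}, ‖1 + χ ((y : G) - (x : G))‖ / 2) =
        ∑ x ∈ A, ‖1 + χ ((y : G) - x)‖ / 2 := fun y =>
      Finset.sum_coe_sort A (fun x => ‖1 + χ ((y : G) - x)‖ / 2)
    rw [Finset.sum_congr rfl fun y _ => h2 y]
    exact Finset.sum_coe_sort A (fun y => ∑ x ∈ A, ‖1 + χ (y - x)‖ / 2)
  have h3 : ∀ χ : AddChar G ℂ, (∑ f : Fin L → {x // x ∈ A} × {x // x ∈ A},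
      ∏ j, (‖1 + χ ((f j).2 - (f j).1 : G)‖ / 2)) =
      (∑ x ∈ A, ∑ y ∈ A, ‖1 + χ (x - y)‖ / 2) ^ L := by
    intro χ
    rw [← h1 χ, Fintype.sum_pow]
  unfold theta
  rw [← Finset.sum_div, Finset.sum_comm, Finset.sum_congr rfl fun χ _ => h3 χ, div_div,
    mul_comm, ← div_div, Finset.sum_div]
  congr 1
  refine Finset.sum_congr rfl fun χ _ => ?_
  rw [div_pow, ← pow_mul]

end Pool.Agent.Zs91
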