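import Pool.Agent.W_2c7c9d_h91.Swp
import Pool.Agent.W_2c7c9d_h91.Four
import Pool.Agent.W_2c7c9d_h91.Avg
import Pool.Agent.W_2c7c9d_h91.Spl
import Pool.Agent.W_2c7c9d_h91.Sth
import Pool.Agent.W_2c7c9d_h91.CtB

/-! # MP_2c7c9d_co: separated targets

`countB`.  Positions `p (i, j) = u i - 1 - j`, `q (i, j) = u i + w + j` (`i < r`, `j < L`), `e ((i, j), false) = p`,
`e ((i, j), true) = q` from `exists_e`: all are in `[w, k)`, so not in `[0, w)`, and not in `[u l, u l + w)` for any `l`
(`2 L + 2 w ≤ R`).  Apply `avg_swap` with `E` the given set and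
`g i a = (∑ χ, ∏ j, ‖1 + χ (d i j)‖ / 2) / |G|`, `d i j = a (q (i, j)) - a (p (i, j))`, and then
`sum_prod_le` (`α = {x // x ∈ A}`), `sum_theta`.  Hypothesis of `avg_swap`: let `b = (tau e ε).trans a`, `b x = a (tau e ε x)`.
Then `∑_{X i} sq b = ∑_{X i} sq a`, `∑_{Y i} sq b = ∑_{Y i} sq a` (`tau_out`; the elements of `X i` and `Y i` are less than `k`:
`u i + w ≤ u i + R ≤ k`; `per_lt`), and (`sum_tau` with `U` the positions `x` with `(x : ℕ) < u i`, `f x = a x`:
`q (l, j) < u i` implies `p (l, j) < u i`; `p (l, j) < u i ≤ q (l, j)` iff `l = i`)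
`pre (sq b) (u i) = pre (sq a) (u i) + ∑_j if ε (i, j) then d i j else 0`.  So the `i`-th equation for `b` is
`c i + ∑_j (if ε (i, j) then d i j else 0) = 0` with `c i = pre (sq a) (u i) + ∑_{Y i} sq a - ∑_{X i} sq a`; the conditions for
different `i` concern different coordinates of `ε`: `count_curry` (the number of `ε` with
`P i (ε (i, ·))` for all `i` is the product of the numbers for the single `i`), and `four` bounds each factor by
`2 ^ L * g i a`. -/

set_option autoImplicit false

noncomputable section

namespace Pool.Agent.Zs91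

open Finset Nat

theorem cntB_pre {G : Type} [AddCommGroup G] {k : ℕ} [NeZero k] (g : Fin k → G) {n : ℕ} (hn : n ≤ k) :
    pre (per g) n = ∑ x ∈ univ.filter (fun x : Fin k => (x : ℕ) < n), g x := by
  have h1 : range n = (range k).filter (· < n) := by
    ext x; simp only [mem_range, mem_filter]; omega
  rw [pre, h1, Finset.sum_filter, Finset.sum_range, Finset.sum_filter]
  refine Finset.sum_congr rfl fun x _ => ?_
  rw [per_lt g x.2]

open Classical in
theorem countB {G : Type} [AddCommGroup G] [Fintype G] {k : ℕ} [NeZero k] {A : Finset G}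
    (hA : A.card = k) {w L R r : ℕ} (hR : 2 * L + 2 * w ≤ R) (hk : (2 * r * L) ^ 2 ≤ k)
    (X : Fin r → Finset ℕ) (u : Fin r → ℕ) (Y : Fin r → Finset ℕ) (hX : ∀ i, X i ⊆ range w)
    (hu : ∀ i, R ≤ u i ∧ u i + R ≤ k) (huu : ∀ i j, i ≠ j → u i + R ≤ u j ∨ u j + R ≤ u i)
    (hY : ∀ i, Y i ⊆ Ico (u i) (u i + w)) :
    ((univ.filter (fun a : Fin k ≃ {x // x ∈ A} =>
      ∀ i, ∑ j ∈ X i, sq a j = pre (sq a) (u i) + ∑ j ∈ Y i, sq a j)).card : ℝ) ≤
        2 * k ! * theta A L ^ r := by
  obtain ⟨e, he1, he2⟩ := exists_e hR u hu huu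
  set E : Finset (Fin k ≃ {x // x ∈ A}) := univ.filter (fun a : Fin k ≃ {x // x ∈ A} =>
      ∀ i, ∑ j ∈ X i, sq a j = pre (sq a) (u i) + ∑ j ∈ Y i, sq a j) with hE
  let Φ : (Fin L → {x // x ∈ A} × {x // x ∈ A}) → ℝ := fun f =>
    (∑ χ : AddChar G ℂ, ∏ j, (‖1 + χ ((f j).2 - (f j).1 : G)‖ / 2)) / Fintype.card G
  have hΦ : ∀ f, 0 ≤ Φ f := fun f => by positivity
  have hcardA : Fintype.card {x // x ∈ A} = k := by rw [Fintype.card_coe, hA]
  have hmain : (E.card : ℝ) ≤ ∑ a : Fin k ≃ {x // x ∈ A}, ∏ i,
      Φ (fun j => (a (e ((i, j), false)), a (e ((i, j), true)))) := by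
    refine (avg_swap e E (fun i a => Φ (fun j => (a (e ((i, j), false)), a (e ((i, j), true)))))
      ?_).trans (le_of_eq (Finset.sum_congr (by ext; simp) fun _ _ => rfl))
    intro a
    let d : Fin r → Fin L → G := fun i j => (a (e ((i, j), true)) : G) - (a (e ((i, j), false)) : G)
    let c : Fin r → G := fun i => pre (sq a) (u i) + ∑ j ∈ Y i, sq a j - ∑ j ∈ X i, sq a j
    have hequiv : ∀ ε : Fin r × Fin L → Bool, (tau e ε).trans a ∈ E ↔
        ∀ i, c i + ∑ j, (if ε (i, j) = true then d i j else 0) = 0 := by
      intro ε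
      set b : Fin k ≃ {x // x ∈ A} := (tau e ε).trans a with hb
      have hbx : ∀ x, b x = a (tau e ε x) := fun x => rfl
      -- outside of the positions
      have hout : ∀ x : ℕ, x < k → (∀ l j, x ≠ u l - 1 - (j : Fin L) ∧ x ≠ u l + w + j) →
          sq b x = sq a x := by
        intro x hx hne
        rw [sq, sq, per_lt _ hx, per_lt _ hx, hbx]
        congr 2
        apply tau_out
        rintro ⟨⟨l, j⟩, bb⟩ hy
        have hv : (e ((l, j), bb) : ℕ) = x := by rw [hy]
        cases bb
        · rw [he1] at hv
          exact (hne l j).1 hv.symm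
        · rw [he2] at hv
          exact (hne l j).2 hv.symm
      have hXs : ∀ i, ∑ j ∈ X i, sq b j = ∑ j ∈ X i, sq a j := by
        intro i
        refine Finset.sum_congr rfl fun x hx => ?_
        have hxw : x < w := mem_range.1 (hX i hx)
        have hui := hu i
        refine hout x (by omega) fun l j => ?_
        have hul := hu l
        have hj := j.2
        constructor <;> omega
      have hYs : ∀ i, ∑ j ∈ Y i, sq b j = ∑ j ∈ Y i, sq a j := by
        intro i
        refine Finset.sum_congr rfl fun x hx => ?_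
        have hxw := mem_Ico.1 (hY i hx)
        have hui := hu i
        refine hout x (by omega) fun l j => ?_
        have hul := hu l
        have hj := j.2
        by_cases hli : l = i
        · subst hli
          constructor <;> omega
        · rcases huu l i hli with h | h <;> constructor <;> omega
      have hpre : ∀ i, pre (sq b) (u i) = pre (sq a) (u i) +
          ∑ j, (if ε (i, j) = true then d i j else 0) := by
        intro i
        have hui := hu i
        have huk : u i ≤ k := by omega
        rw [sq, sq, cntB_pre _ huk, cntB_pre _ huk]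
        set U := univ.filter (fun x : Fin k => (x : ℕ) < u i) with hU
        have hmemU : ∀ x : Fin k, x ∈ U ↔ (x : ℕ) < u i := fun x => by simp [hU]
        have hs := sum_tau e ε U (by
          rintro ⟨l, j⟩ h
          rw [hmemU, he2] at h
          rw [hmemU, he1]
          omega) (fun x => (a x : G))
        have hs' : ∑ x ∈ U, (b x : G) = ∑ x ∈ U, (a (tau e ε x) : G) := rfl
        rw [hs', hs]
        congr 1
        rw [Fintype.sum_prod_type, Finset.sum_eq_single i]
        · refine Finset.sum_congr rfl fun j _ => ?_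
          have hj := j.2
          have h1 : e ((i, j), false) ∈ U := by rw [hmemU, he1]; omega
          have h2 : e ((i, j), true) ∉ U := by rw [hmemU, he2]; omega
          by_cases hε : ε (i, j) = true
          · rw [if_pos ⟨hε, h1, h2⟩, if_pos hε]
          · rw [if_neg (fun h => hε h.1), if_neg hε]
        · intro l _ hl
          refine Finset.sum_eq_zero fun j _ => ?_
          rw [if_neg]
          rintro ⟨_, h1, h2⟩
          rw [hmemU, he1] at h1
          rw [hmemU, he2] at h2
          have hul := hu l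
          have hj := j.2
          rcases huu l i hl with h | h <;> omega
        · intro h
          exact absurd (Finset.mem_univ i) h
      have hmem : b ∈ E ↔ ∀ i, ∑ j ∈ X i, sq b j = pre (sq b) (u i) + ∑ j ∈ Y i, sq b j := by
        rw [hE, Finset.mem_filter]
        exact ⟨fun h => h.2, fun h => ⟨Finset.mem_univ _, h⟩⟩
      rw [hmem]
      refine forall_congr' fun i => ?_
      rw [hXs i, hYs i, hpre i]
      show _ ↔ (pre (sq a) (u i) + ∑ j ∈ Y i, sq a j - ∑ j ∈ X i, sq a j) +
        ∑ j, (if ε (i, j) = true then d i j else 0) = 0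
      constructor
      · intro h
        rw [h]; abel
      · intro h
        have h' : pre (sq a) (u i) + ∑ j, (if ε (i, j) = true then d i j else 0) +
            ∑ j ∈ Y i, sq a j - ∑ j ∈ X i, sq a j = 0 := by
          calc _ = (pre (sq a) (u i) + ∑ j ∈ Y i, sq a j - ∑ j ∈ X i, sq a j) +
                ∑ j, (if ε (i, j) = true then d i j else 0) := by abel
            _ = 0 := h
        exact (sub_eq_zero.1 h').symm
    refine le_trans (b := ((∏ i, (univ.filter (fun ε : Fin L → Bool =>
          c i + ∑ j, (if ε j = true then d i j else 0) = 0)).card : ℕ) : ℝ)) (le_of_eq ?_) ?_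
    · rw [Nat.cast_inj, ← count_curry (fun i (ε : Fin L → Bool) =>
        c i + ∑ j, (if ε j = true then d i j else 0) = 0)]
      congr 1
      ext ε
      simp only [Finset.mem_filter, Finset.mem_univ, true_and]
      exact hequiv ε
    rw [Nat.cast_prod]
    refine Finset.prod_le_prod (fun i _ => Nat.cast_nonneg _) fun i _ => ?_
    exact four (c i) (d i)
  refine hmain.trans ((sum_prod_le hcardA (NeZero.pos k) hk e Φ hΦ).trans (le_of_eq ?_))
  have hst := sum_theta A L
  rw [hA] at hst
  rw [← hst]

end Pool.Agent.Zs91
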