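import Pool.Agent.W_2c7c9d_h91.Alt
import Pool.Agent.W_2c7c9d_h91.CntB

/-! # MP_2c7c9d_co: the number of arrangements with separated targets

`altB_card`: union bound over `(X, u, Y)`, `X i ⊆ range w`, `u i ∈ range (k + 1)`, `Y i` = the image under `(u i + ·)` of a subset
of `range w` (`((2 ^ w) (k + 1) (2 ^ w)) ^ r` choices, e.g. functions `Fin r → (powerset × range × powerset)`,
`Fintype.piFinset`), each with `countB` (for the choices that do not satisfy the hypotheses of `countB` take the empty set;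
`0 ≤ theta`). -/

set_option autoImplicit false

noncomputable section

namespace Pool.Agent.Zs91

open Finset Nat

variable {G : Type} [AddCommGroup G] {k : ℕ} [NeZero k] {A : Finset G} {w L R r : ℕ}

theorem altB_theta_nonneg [Fintype G] (A : Finset G) (L : ℕ) : 0 ≤ theta A L := by
  unfold theta
  positivity

theorem altB_shift {u w : ℕ} {Y : Finset ℕ} (hY : Y ⊆ Ico u (u + w)) :
    ∃ Y' ∈ (range w).powerset, Y'.image (fun j => u + j) = Y := by
  classical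
  refine ⟨(range w).filter (fun j => u + j ∈ Y), ?_, ?_⟩
  · rw [mem_powerset]
    exact filter_subset _ _
  · ext x
    simp only [mem_image, mem_filter, mem_range]
    constructor
    · rintro ⟨j, ⟨-, h⟩, rfl⟩
      exact h
    · intro hx
      have h := mem_Ico.1 (hY hx)
      exact ⟨x - u, ⟨by omega, by rwa [Nat.add_sub_cancel' h.1]⟩, by omega⟩

theorem altB_union {α β : Type} [Fintype α] (S : Finset β) (Q : α → Prop)
    [DecidablePred Q] (T : β → Finset α) (B : ℝ) (h1 : ∀ a, Q a → ∃ σ ∈ S, a ∈ T σ)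
    (h2 : ∀ σ ∈ S, ((T σ).card : ℝ) ≤ B) : ((univ.filter Q).card : ℝ) ≤ S.card * B := by
  classical
  have h3 : univ.filter Q ⊆ S.biUnion T := by
    intro a ha
    obtain ⟨σ, hσ, h⟩ := h1 a (mem_filter.1 ha).2
    exact mem_biUnion.2 ⟨σ, hσ, h⟩
  have h4 : (univ.filter Q).card ≤ ∑ σ ∈ S, (T σ).card := (card_le_card h3).trans card_biUnion_le
  calc ((univ.filter Q).card : ℝ) ≤ ((∑ σ ∈ S, (T σ).card : ℕ) : ℝ) := by exact_mod_cast h4
    _ = ∑ σ ∈ S, ((T σ).card : ℝ) := by push_cast; rfl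
    _ ≤ ∑ _σ ∈ S, B := sum_le_sum h2
    _ = S.card * B := by rw [sum_const, nsmul_eq_mul]

open Classical in
theorem altB_card [Fintype G] (hA : A.card = k) (hR : 2 * L + 2 * w ≤ R) (hk : (2 * r * L) ^ 2 ≤ k) :
    ((univ.filter (fun a : Fin k ≃ {x // x ∈ A} => AltB w R r a)).card : ℝ) ≤
      ((4 : ℝ) ^ w * (k + 1)) ^ r * (2 * k ! * theta A L ^ r) := by
  have hθ := altB_theta_nonneg A L
  let S : Finset (Fin r → Finset ℕ × ℕ × Finset ℕ) :=
    Fintype.piFinset (fun _ : Fin r => (range w).powerset ×ˢ range (k + 1) ×ˢ (range w).powerset)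
  have hS : ((S.card : ℕ) : ℝ) = ((4 : ℝ) ^ w * (k + 1)) ^ r := by
    have h1 : S.card = (2 ^ w * ((k + 1) * 2 ^ w)) ^ r := by
      simp only [S, Fintype.card_piFinset, card_product, card_powerset, card_range, prod_const,
        Finset.card_univ, Fintype.card_fin]
    rw [h1]
    push_cast
    congr 1
    rw [show (4 : ℝ) = 2 * 2 by norm_num, mul_pow]
    ring
  rw [← hS]
  refine altB_union S (fun a : Fin k ≃ {x // x ∈ A} => AltB w R r a)
    (fun σ => univ.filter (fun a : Fin k ≃ {x // x ∈ A} =>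
      ((∀ i, (σ i).1 ⊆ range w) ∧ (∀ i, R ≤ (σ i).2.1 ∧ (σ i).2.1 + R ≤ k) ∧
        (∀ i j, i ≠ j → (σ i).2.1 + R ≤ (σ j).2.1 ∨ (σ j).2.1 + R ≤ (σ i).2.1) ∧
        (∀ i, ((σ i).2.2).image (fun j => (σ i).2.1 + j) ⊆ Ico ((σ i).2.1) ((σ i).2.1 + w))) ∧
      ∀ i, ∑ j ∈ (σ i).1, sq a j = pre (sq a) ((σ i).2.1) +
        ∑ j ∈ ((σ i).2.2).image (fun j => (σ i).2.1 + j), sq a j)) _ ?_ ?_
  · rintro a ⟨X, u, Y, hX, hu, huu, hY, he⟩
    choose Y' hY' hYY using fun i => altB_shift (hY i)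
    refine ⟨fun i => (X i, u i, Y' i), ?_, ?_⟩
    · rw [Fintype.mem_piFinset]
      intro i
      rw [mem_product, mem_product]
      have h1 : u i < k + 1 := by
        have := (hu i).2
        omega
      exact ⟨mem_powerset.2 (hX i), mem_range.2 h1, hY' i⟩
    · rw [mem_filter]
      refine ⟨mem_univ _, ⟨hX, hu, huu, fun i => ?_⟩, fun i => ?_⟩
      · simp only [hYY i]
        exact hY i
      · simp only [hYY i]
        exact he i
  · intro σ _
    by_cases hc : (∀ i, (σ i).1 ⊆ range w) ∧ (∀ i, R ≤ (σ i).2.1 ∧ (σ i).2.1 + R ≤ k) ∧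
        (∀ i j, i ≠ j → (σ i).2.1 + R ≤ (σ j).2.1 ∨ (σ j).2.1 + R ≤ (σ i).2.1) ∧
        (∀ i, ((σ i).2.2).image (fun j => (σ i).2.1 + j) ⊆ Ico ((σ i).2.1) ((σ i).2.1 + w))
    · refine le_trans ?_ (countB hA hR hk (fun i => (σ i).1) (fun i => (σ i).2.1)
        (fun i => ((σ i).2.2).image (fun j => (σ i).2.1 + j)) hc.1 hc.2.1 hc.2.2.1 hc.2.2.2)
      have h3 : (univ.filter (fun a : Fin k ≃ {x // x ∈ A} =>
        ((∀ i, (σ i).1 ⊆ range w) ∧ (∀ i, R ≤ (σ i).2.1 ∧ (σ i).2.1 + R ≤ k) ∧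
        (∀ i j, i ≠ j → (σ i).2.1 + R ≤ (σ j).2.1 ∨ (σ j).2.1 + R ≤ (σ i).2.1) ∧
        (∀ i, ((σ i).2.2).image (fun j => (σ i).2.1 + j) ⊆ Ico ((σ i).2.1) ((σ i).2.1 + w))) ∧
        ∀ i, ∑ j ∈ (σ i).1, sq a j = pre (sq a) ((σ i).2.1) +
        ∑ j ∈ ((σ i).2.2).image (fun j => (σ i).2.1 + j), sq a j)).card ≤
        (univ.filter (fun a : Fin k ≃ {x // x ∈ A} =>
        ∀ i, ∑ j ∈ (σ i).1, sq a j = pre (sq a) ((σ i).2.1) +
        ∑ j ∈ ((σ i).2.2).image (fun j => (σ i).2.1 + j), sq a j)).card := by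
        apply card_le_card
        intro a ha
        rw [mem_filter] at ha ⊢
        exact ⟨ha.1, ha.2.2⟩
      exact_mod_cast h3
    · rw [show (univ.filter (fun a : Fin k ≃ {x // x ∈ A} =>
        ((∀ i, (σ i).1 ⊆ range w) ∧ (∀ i, R ≤ (σ i).2.1 ∧ (σ i).2.1 + R ≤ k) ∧
        (∀ i j, i ≠ j → (σ i).2.1 + R ≤ (σ j).2.1 ∨ (σ j).2.1 + R ≤ (σ i).2.1) ∧
        (∀ i, ((σ i).2.2).image (fun j => (σ i).2.1 + j) ⊆ Ico ((σ i).2.1) ((σ i).2.1 + w))) ∧
        ∀ i, ∑ j ∈ (σ i).1, sq a j = pre (sq a) ((σ i).2.1) +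
        ∑ j ∈ ((σ i).2.2).image (fun j => (σ i).2.1 + j), sq a j)) = ∅ from by
        apply filter_eq_empty_iff.2
        intro a _ h
        exact hc h.1]
      rw [card_empty]
      push_cast
      positivity

end Pool.Agent.Zs91
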