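import Pool.Agent.W_2c7c9d_h91.Piv

/-! # MP_2c7c9d_co: two zero-sum sets

* `countC`: there is `q` in exactly one of `Z₁`, `Z₂`; by symmetry `q ∈ Z₁ \ Z₂`; let `q' ∈ Z₂`.  `pivot` with `J = [0, w)`,
  `P = {q, q'}` (`q ≠ q'`; `w ^ 2 ≤ k` gives `w ≤ k`, positions as elements of `Fin k`; `sq a j = a ⟨j, _⟩` for `j < k`, `per_lt`):
  the second equation gives `a q'`, then the first one gives `a q`. -/

set_option autoImplicit false

noncomputable section

namespace Pool.Agent.Zs91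

open Finset Nat

theorem cntC_pt {G : Type} [AddCommGroup G] {Z : Finset ℕ} {f g : ℕ → G} {q : ℕ} (hq : q ∈ Z)
    (hs : ∑ j ∈ Z, f j = ∑ j ∈ Z, g j) (h : ∀ j ∈ Z, j ≠ q → f j = g j) : f q = g q := by
  rw [← Finset.add_sum_erase Z f hq, ← Finset.add_sum_erase Z g hq,
    Finset.sum_congr rfl (fun j hj => h j (Finset.mem_of_mem_erase hj) (Finset.ne_of_mem_erase hj))]
    at hs
  exact add_right_cancel hs

open Classical in
theorem cntC_aux {G : Type} [AddCommGroup G] {k : ℕ} [NeZero k] {A : Finset G} (hA : A.card = k) {w : ℕ}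
    (hk : w ^ 2 ≤ k) (Z₁ Z₂ : Finset ℕ) (h1 : Z₁ ⊆ range w) (h2 : Z₂ ⊆ range w)
    {q q' : ℕ} (hq1 : q ∈ Z₁) (hq2 : q ∉ Z₂) (hq' : q' ∈ Z₂) :
    (univ.filter (fun a : Fin k ≃ {x // x ∈ A} =>
      ∑ j ∈ Z₁, sq a j = 0 ∧ ∑ j ∈ Z₂, sq a j = 0)).card * k ^ 2 ≤ 2 * k ! := by
  have hwk : w ≤ k := le_trans (Nat.le_self_pow two_ne_zero w) hk
  have hqk : q < k := lt_of_lt_of_le (mem_range.1 (h1 hq1)) hwk
  have hqk' : q' < k := lt_of_lt_of_le (mem_range.1 (h2 hq')) hwk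
  have hne : q ≠ q' := fun h => hq2 (h ▸ hq')
  set J : Finset (Fin k) := univ.filter (fun x : Fin k => (x : ℕ) < w) with hJ
  have hJc : J.card ≤ w := by
    have : J.card = (J.image (fun x : Fin k => (x : ℕ))).card :=
      (Finset.card_image_of_injective _ Fin.val_injective).symm
    rw [this]
    refine (Finset.card_le_card (t := range w) ?_).trans (by simp)
    intro y hy
    obtain ⟨x, hx, rfl⟩ := Finset.mem_image.1 hy
    rw [hJ, Finset.mem_filter] at hx
    exact mem_range.2 hx.2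
  have hP2 : ({⟨q, hqk⟩, ⟨q', hqk'⟩} : Finset (Fin k)).card = 2 := by
    rw [Finset.card_pair]
    intro h
    exact hne (congrArg Fin.val h)
  have hsub : ({⟨q, hqk⟩, ⟨q', hqk'⟩} : Finset (Fin k)) ⊆ J := by
    intro x hx
    rw [Finset.mem_insert, Finset.mem_singleton] at hx
    rw [hJ, Finset.mem_filter]
    refine ⟨Finset.mem_univ _, ?_⟩
    rcases hx with rfl | rfl
    · exact mem_range.1 (h1 hq1)
    · exact mem_range.1 (h2 hq')
  have hmain := pivot (α := {x // x ∈ A}) (by rw [Fintype.card_coe, hA]) J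
    {⟨q, hqk⟩, ⟨q', hqk'⟩} hsub ((Nat.pow_le_pow_left hJc 2).trans hk)
    (univ.filter (fun a : Fin k ≃ {x // x ∈ A} =>
      ∑ j ∈ Z₁, sq a j = 0 ∧ ∑ j ∈ Z₂, sq a j = 0)) (by
      intro a ha a' ha' hag
      rw [Finset.mem_filter] at ha ha'
      have hag' : ∀ j, j < w → j ≠ q → j ≠ q' → sq a j = sq a' j := by
        intro j hj hjq hjq'
        have hjk : j < k := lt_of_lt_of_le hj hwk
        rw [sq, sq, per_lt _ hjk, per_lt _ hjk]
        congr 1
        apply hag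
        rw [Finset.mem_sdiff, hJ, Finset.mem_filter, Finset.mem_insert, Finset.mem_singleton]
        refine ⟨⟨Finset.mem_univ _, hj⟩, ?_⟩
        rintro (h | h)
        · exact hjq (congrArg Fin.val h)
        · exact hjq' (congrArg Fin.val h)
      have e2 : sq a q' = sq a' q' := by
        refine cntC_pt hq' (ha.2.2.trans ha'.2.2.symm) fun j hj hjq' => ?_
        exact hag' j (mem_range.1 (h2 hj)) (fun h => hq2 (h ▸ hj)) hjq'
      have e1 : sq a q = sq a' q := by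
        refine cntC_pt hq1 (ha.2.1.trans ha'.2.1.symm) fun j hj hjq => ?_
        by_cases hjq' : j = q'
        · rw [hjq']; exact e2
        · exact hag' j (mem_range.1 (h1 hj)) hjq hjq'
      rw [sq, sq, per_lt _ hqk, per_lt _ hqk] at e1
      rw [sq, sq, per_lt _ hqk', per_lt _ hqk'] at e2
      intro x hx
      rw [Finset.mem_insert, Finset.mem_singleton] at hx
      rcases hx with rfl | rfl
      · exact Subtype.ext e1
      · exact Subtype.ext e2)
  rw [hP2] at hmain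
  convert hmain

open Classical in
theorem countC {G : Type} [AddCommGroup G] {k : ℕ} [NeZero k] {A : Finset G} (hA : A.card = k) {w : ℕ}
    (hk : w ^ 2 ≤ k) (Z₁ Z₂ : Finset ℕ) (h1 : Z₁ ⊆ range w) (h2 : Z₂ ⊆ range w) (h3 : Z₁.Nonempty)
    (h4 : Z₂.Nonempty) (h5 : Z₁ ≠ Z₂) :
    (univ.filter (fun a : Fin k ≃ {x // x ∈ A} =>
      ∑ j ∈ Z₁, sq a j = 0 ∧ ∑ j ∈ Z₂, sq a j = 0)).card * k ^ 2 ≤ 2 * k ! := by
  by_cases hsub : Z₁ ⊆ Z₂
  · have hns : ¬ Z₂ ⊆ Z₁ := fun h => h5 (Finset.Subset.antisymm hsub h)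
    obtain ⟨q, hq2, hq1⟩ := Finset.not_subset.1 hns
    obtain ⟨q', hq'⟩ := h3
    have := cntC_aux hA hk Z₂ Z₁ h2 h1 hq2 hq1 hq'
    refine le_trans (le_of_eq ?_) this
    congr 2
    ext a
    simp only [Finset.mem_filter, Finset.mem_univ, true_and]
    exact and_comm
  · obtain ⟨q, hq1, hq2⟩ := Finset.not_subset.1 hsub
    obtain ⟨q', hq'⟩ := h4
    exact cntC_aux hA hk Z₁ Z₂ h1 h2 hq1 hq2 hq'

end Pool.Agent.Zs91
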