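import Pool.Agent.W_2c7c9d_h91.Alt
import Pool.Agent.W_2c7c9d_h91.CntC

/-! # MP_2c7c9d_co: the number of arrangements with two zero-sum sets

`altC_card`: union bound over the pairs `(Z₁, Z₂)` of subsets of `range w` (`4 ^ w` pairs), each with `countC`; the pairs
that do not satisfy the hypotheses of `countC` give the empty set. -/

set_option autoImplicit false

noncomputable section

namespace Pool.Agent.Zs91

open Finset Nat

variable {G : Type} [AddCommGroup G] {k : ℕ} [NeZero k] {A : Finset G} {w L R r : ℕ}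

open Classical in
theorem altC_card (hA : A.card = k) (hk : w ^ 2 ≤ k) :
    ((univ.filter (fun a : Fin k ≃ {x // x ∈ A} => AltC w a)).card : ℝ) ≤
      (4 : ℝ) ^ w * (2 * k ! / (k : ℝ) ^ 2) := by
  have hk0 : (0 : ℝ) < (k : ℝ) ^ 2 := by
    have : 0 < k := NeZero.pos k
    positivity
  set T : Finset ℕ × Finset ℕ → Finset (Fin k ≃ {x // x ∈ A}) := fun p =>
    univ.filter (fun a : Fin k ≃ {x // x ∈ A} =>
      ∑ j ∈ p.1, sq a j = 0 ∧ ∑ j ∈ p.2, sq a j = 0) with hT
  set P : Finset (Finset ℕ × Finset ℕ) := ((range w).powerset ×ˢ (range w).powerset).filter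
    (fun p => p.1.Nonempty ∧ p.2.Nonempty ∧ p.1 ≠ p.2) with hP
  have hsub : univ.filter (fun a : Fin k ≃ {x // x ∈ A} => AltC w a) ⊆ P.biUnion T := by
    intro a ha
    rw [Finset.mem_filter] at ha
    obtain ⟨Z₁, Z₂, h1, h2, h3, h4, h5, h6, h7⟩ := ha.2
    rw [Finset.mem_biUnion]
    refine ⟨(Z₁, Z₂), ?_, ?_⟩
    · rw [hP, Finset.mem_filter, Finset.mem_product, Finset.mem_powerset, Finset.mem_powerset]
      exact ⟨⟨h1, h2⟩, h3, h4, h5⟩
    · rw [hT, Finset.mem_filter]
      exact ⟨Finset.mem_univ _, h6, h7⟩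
  have hone : ∀ p ∈ P, ((T p).card : ℝ) ≤ 2 * k ! / (k : ℝ) ^ 2 := by
    intro p hp
    rw [hP, Finset.mem_filter, Finset.mem_product, Finset.mem_powerset, Finset.mem_powerset] at hp
    have h := countC hA hk p.1 p.2 hp.1.1 hp.1.2 hp.2.1 hp.2.2.1 hp.2.2.2
    rw [le_div_iff₀ hk0]
    exact_mod_cast h
  have hPc : (P.card : ℝ) ≤ (4 : ℝ) ^ w := by
    have h1 : P.card ≤ ((range w).powerset ×ˢ (range w).powerset).card :=
      Finset.card_le_card (Finset.filter_subset _ _)
    rw [Finset.card_product, Finset.card_powerset, Finset.card_range, ← mul_pow] at h1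
    exact_mod_cast h1
  calc ((univ.filter (fun a : Fin k ≃ {x // x ∈ A} => AltC w a)).card : ℝ)
      ≤ ((P.biUnion T).card : ℝ) := by exact_mod_cast Finset.card_le_card hsub
    _ ≤ ((∑ p ∈ P, (T p).card : ℕ) : ℝ) := by exact_mod_cast Finset.card_biUnion_le
    _ = ∑ p ∈ P, ((T p).card : ℝ) := by push_cast; rfl
    _ ≤ ∑ _p ∈ P, (2 * k ! / (k : ℝ) ^ 2) := Finset.sum_le_sum hone
    _ = (P.card : ℝ) * (2 * k ! / (k : ℝ) ^ 2) := by rw [Finset.sum_const, nsmul_eq_mul]
    _ ≤ (4 : ℝ) ^ w * (2 * k ! / (k : ℝ) ^ 2) := by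
        apply mul_le_mul_of_nonneg_right hPc
        positivity

end Pool.Agent.Zs91
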