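import Mathlib

/-! # MP_2c7c9d_co: the choice of the parameters

`params`.  Put `κ₁ = κ / 4`, `r = ⌈4 / κ₁⌉`, `D = 64 (r + 1)`, `m = D + 3`, `w = 4 m` (constants), and for large `k`:
`L = ⌊√k / (16 (r + w))⌋`, `R = 2 L + 2 w`, `t = ⌊k ^ κ₁⌋`, `η = 8 log k / L`.
* `(2 r L)² ≤ k`: `2 r L ≤ √k / 8`.  `(2 R + 2 w)² ≤ k`: `2 R + 2 w = 4 L + 6 w ≤ √k / 4 + 6 w ≤ √k`.
* `(3 t + 1)² 2 η ≤ 16 k ^ (2 κ₁) * 16 log k / L ≤ C k ^ (2 κ₁ - 1/2) log k → 0` (`2 κ₁ ≤ 1/20`).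
* `9 t² η k ≤ 72 k ^ (1 + 2 κ₁) log k / L ≤ C k ^ (1/2 + κ/2) log k ≤ k ^ (1/2 + κ)`.
* `θ₀ = 2 / (t k) + 1 / k ^ (1 + κ) + (√(1 - η / 2)) ^ L ≤ 4 k ^ (-1 - κ₁) + k ^ (-1 - κ) + k ^ (-2) ≤ 6 k ^ (-1 - κ₁)`
  (`t ≥ k ^ κ₁ / 2`; `√(1 - η/2) ≤ exp (-η / 4)`, `η L / 4 = 2 log k`).
* last inequality: the first term is `≤ 2 k (4 ^ w * 2 k * 6 k ^ (-1 - κ₁)) ^ r ≤ C k ^ (1 - r κ₁) ≤ C k ^ (-3)`, the second one
  `≤ C k * k * (√k) ^ 7 / k ^ 6 * k = C k ^ (- 1/2 + ...)`: exactly `k * (w + 1) (k + 1) (4 ^ w (2 R + 1)) ^ 7 * 2 / k ^ 6 ≤ C k ^ (2 + 7/2 - 6)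
  = C k ^ (-1/2)` (`2 R + 1 ≤ √k`), the third one `≤ C / k`.  Each is `< 1/4` for large `k`.
Suggestion: prove the statements one by one as `∀ᶠ k : ℕ in atTop`, combine with `Filter.Eventually.and`; useful:
`isLittleO_log_rpow_atTop`, `tendsto_rpow_neg_atTop`. -/

set_option autoImplicit false

noncomputable section

namespace Pool.Agent.Zs91

open Real

theorem asy_sqrt_pow_le {K η : ℝ} {L : ℕ} (hK : 0 < K) (h : η * L = 8 * log K) :
    (√(1 - η / 2)) ^ L ≤ 1 / K ^ 2 := by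
  have h1 : √(1 - η / 2) ≤ exp (-(η / 4)) := by
    rw [Real.sqrt_le_left (exp_pos _).le]
    have h2 := add_one_le_exp (-(η / 2))
    have h3 : exp (-(η / 4)) ^ 2 = exp (-(η / 2)) := by
      rw [← exp_nat_mul]
      congr 1
      push_cast
      ring
    rw [h3]
    linarith
  calc (√(1 - η / 2)) ^ L ≤ (exp (-(η / 4))) ^ L := pow_le_pow_left₀ (sqrt_nonneg _) h1 _
    _ = exp (-(log K + log K)) := by
        rw [← exp_nat_mul]
        congr 1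
        have : (L : ℝ) * -(η / 4) = -(η * L) / 4 := by ring
        rw [this, h]
        ring
    _ = 1 / K ^ 2 := by
        rw [exp_neg, exp_add, exp_log hK]
        rw [one_div, pow_two]

theorem params_aux {κ₁ : ℝ} (h0 : 0 < κ₁) (h1 : κ₁ ≤ 1 / 40) (r W : ℕ) (hr : 4 ≤ r * κ₁) (hW : 1 ≤ W) :
    ∀ᶠ k : ℕ in Filter.atTop, ∃ (t L R : ℕ) (η : ℝ), 0 < t ∧ 0 < η ∧ 0 < R ∧
      (3 * t + 1 : ℝ) ^ 2 * (2 * η) ≤ 1 ∧ 9 * (t : ℝ) ^ 2 * η * k ≤ (k : ℝ) ^ (1 / 2 + 4 * κ₁) ∧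
      2 * W ≤ k ∧ 2 * L + 2 * W ≤ R ∧ (2 * r * L) ^ 2 ≤ k ∧
      (2 * R + 2 * W) ^ 2 ≤ k ∧
      (k : ℝ) * (((4 : ℝ) ^ W * (k + 1)) ^ r *
          (2 * (2 / (t * k) + 1 / (k : ℝ) ^ (1 + 4 * κ₁) + (√(1 - η / 2)) ^ L) ^ r) +
        (W + 1) * (k + 1) * ((4 : ℝ) ^ W * (2 * R + 1)) ^ 7 * (2 / (k : ℝ) ^ 6) +
        (4 : ℝ) ^ W * (2 / (k : ℝ) ^ 2)) < 1 := by
  have hcast : Filter.Tendsto (fun k : ℕ => (k : ℝ)) Filter.atTop Filter.atTop :=
    tendsto_natCast_atTop_atTop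
  obtain ⟨q, hq⟩ : ∃ q : ℝ, q = r + W := ⟨_, rfl⟩
  have hW' : (1 : ℝ) ≤ W := by exact_mod_cast hW
  have hr0 : (0 : ℝ) ≤ r := Nat.cast_nonneg r
  have hq1 : 1 ≤ q := by rw [hq]; linarith
  have hq0 : 0 < q := by linarith
  obtain ⟨C, hC⟩ : ∃ C : ℝ, C = (4 : ℝ) ^ W := ⟨_, rfl⟩
  have hC1 : 1 ≤ C := by rw [hC]; exact one_le_pow₀ (by norm_num)
  have hC0 : 0 < C := by linarith
  obtain ⟨M, hM⟩ : ∃ M : ℝ, M = 2 * (12 * C) ^ r + 4 * (W + 1) * C ^ 7 + 2 * C := ⟨_, rfl⟩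
  have hM0 : 0 < M := by rw [hM]; positivity
  -- the eventual facts
  have e1 : ∀ᶠ k : ℕ in Filter.atTop, log (k : ℝ) ≤ 1 / (8192 * q) * (k : ℝ) ^ (1 / 8 : ℝ) := by
    have h := (isLittleO_log_rpow_atTop (r := (1 / 8 : ℝ)) (by norm_num)).def
      (c := 1 / (8192 * q)) (by positivity)
    filter_upwards [hcast.eventually h] with k hk
    refine (le_abs_self _).trans ?_
    rw [Real.norm_eq_abs, Real.norm_eq_abs,
      abs_of_nonneg (Real.rpow_nonneg (Nat.cast_nonneg k) _)] at hk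
    exact hk
  have e2 : ∀ᶠ k : ℕ in Filter.atTop, log (k : ℝ) ≤ 1 / (2304 * q) * (k : ℝ) ^ (2 * κ₁) := by
    have h := (isLittleO_log_rpow_atTop (r := 2 * κ₁) (by positivity)).def
      (c := 1 / (2304 * q)) (by positivity)
    filter_upwards [hcast.eventually h] with k hk
    refine (le_abs_self _).trans ?_
    rw [Real.norm_eq_abs, Real.norm_eq_abs,
      abs_of_nonneg (Real.rpow_nonneg (Nat.cast_nonneg k) _)] at hk
    exact hk
  have e3 : ∀ᶠ k : ℕ in Filter.atTop, 2 ≤ (k : ℝ) ^ κ₁ :=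
    ((tendsto_rpow_atTop h0).comp hcast).eventually_ge_atTop 2
  have e4 : ∀ᶠ k : ℕ in Filter.atTop, (32 * q + 8 * W + M + 1) ^ 2 ≤ (k : ℝ) :=
    hcast.eventually_ge_atTop _
  filter_upwards [e1, e2, e3, e4] with k e1 e2 e3 e4
  obtain ⟨K, hK⟩ : ∃ K : ℝ, K = (k : ℝ) := ⟨_, rfl⟩
  rw [← hK] at e1 e2 e3 e4
  obtain ⟨s, hs⟩ : ∃ s : ℝ, s = √K := ⟨_, rfl⟩
  have hK0' : 0 ≤ K := by rw [hK]; exact Nat.cast_nonneg k
  have hs0' : 0 ≤ s := by rw [hs]; exact Real.sqrt_nonneg _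
  have hss : s ^ 2 = K := by rw [hs]; exact Real.sq_sqrt hK0'
  have hsb : 32 * q + 8 * W + M + 1 ≤ s := by
    rw [hs]
    exact Real.le_sqrt_of_sq_le e4
  have hs1 : 1 ≤ s := by linarith
  have hs0 : 0 < s := by linarith
  have hK1 : 1 < K := by
    rw [← hss]
    have h2 : 1 < s := by linarith
    exact one_lt_pow₀ h2 (by norm_num)
  have hK0 : 0 < K := by linarith
  have hlog : 0 < log K := Real.log_pos hK1
  -- `L`
  obtain ⟨L, hL⟩ : ∃ L : ℕ, L = ⌊s / (16 * q)⌋₊ := ⟨_, rfl⟩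
  have hLu : (L : ℝ) ≤ s / (16 * q) := by
    rw [hL]
    exact Nat.floor_le (by positivity)
  have hLl : s / (32 * q) ≤ L := by
    have h2 : s / (16 * q) < L + 1 := by
      rw [hL]
      exact Nat.lt_floor_add_one _
    have h3 : s / (16 * q) = s / (32 * q) + s / (32 * q) := by
      field_simp
      ring
    have h4 : 1 ≤ s / (32 * q) := by
      rw [le_div_iff₀ (by positivity)]
      linarith
    linarith
  have hL0 : (0 : ℝ) < L := lt_of_lt_of_le (by positivity) hLl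
  -- `t`
  obtain ⟨t, ht⟩ : ∃ t : ℕ, t = ⌊K ^ κ₁⌋₊ := ⟨_, rfl⟩
  have htu : (t : ℝ) ≤ K ^ κ₁ := by
    rw [ht]
    exact Nat.floor_le (by positivity)
  have htl : K ^ κ₁ / 2 ≤ t := by
    have h2 : K ^ κ₁ < t + 1 := by
      rw [ht]
      exact Nat.lt_floor_add_one _
    linarith
  have ht1 : (1 : ℝ) ≤ t := by linarith
  have ht0 : 0 < t := by exact_mod_cast lt_of_lt_of_le zero_lt_one ht1
  -- `η`
  obtain ⟨η, hη⟩ : ∃ η : ℝ, η = 8 * log K / L := ⟨_, rfl⟩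
  have hη0 : 0 < η := by rw [hη]; positivity
  have hηL : η * L = 8 * log K := by
    rw [hη]
    field_simp
  have hηu : η ≤ 256 * q * log K / s := by
    rw [hη, div_le_div_iff₀ hL0 hs0]
    have h2 : s ≤ 32 * q * L := by
      rw [div_le_iff₀ (by positivity)] at hLl
      linarith
    have h3 : 0 ≤ 8 * log K := by positivity
    calc 8 * log K * s ≤ 8 * log K * (32 * q * L) := mul_le_mul_of_nonneg_left h2 h3
      _ = 256 * q * log K * L := by ring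
  have hKk2 : (K ^ κ₁) ^ 2 = K ^ (2 * κ₁) := by
    rw [← Real.rpow_natCast, ← Real.rpow_mul hK0.le]
    congr 1
    push_cast
    ring
  have ht2 : (t : ℝ) ^ 2 ≤ K ^ (2 * κ₁) := by
    rw [← hKk2]
    exact pow_le_pow_left₀ (by positivity) htu 2
  have hsK : s = K ^ (1 / 2 : ℝ) := by rw [hs, Real.sqrt_eq_rpow]
  -- `R`
  obtain ⟨R, hR⟩ : ∃ R : ℕ, R = 2 * L + 2 * W := ⟨_, rfl⟩
  have hRW : (2 * R + 2 * W : ℝ) ≤ s := by
    rw [hR]
    push_cast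
    have h2 : s / (16 * q) ≤ s / 16 := by
      apply div_le_div_of_nonneg_left hs0.le (by norm_num)
      linarith
    linarith
  refine ⟨t, L, R, η, ht0, hη0, by omega, ?_, ?_, ?_, by omega, ?_, ?_, ?_⟩
  · -- (4)
    have h2 : (3 * t + 1 : ℝ) ^ 2 ≤ 16 * K ^ (2 * κ₁) := by
      calc (3 * t + 1 : ℝ) ^ 2 ≤ (4 * t) ^ 2 :=
            pow_le_pow_left₀ (by positivity) (by linarith only [ht1]) 2
        _ = 16 * (t : ℝ) ^ 2 := by ring
        _ ≤ 16 * K ^ (2 * κ₁) := by gcongr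
    have h3 : K ^ (2 * κ₁) ≤ K ^ (1 / 8 : ℝ) :=
      Real.rpow_le_rpow_of_exponent_le hK1.le (by linarith)
    have h4 : η ≤ 1 / 32 * (K ^ (1 / 8 : ℝ) / s) := by
      refine hηu.trans ?_
      rw [← mul_div_assoc]
      apply div_le_div_of_nonneg_right _ hs0.le
      calc 256 * q * log K ≤ 256 * q * (1 / (8192 * q) * K ^ (1 / 8 : ℝ)) := by gcongr
        _ = 1 / 32 * K ^ (1 / 8 : ℝ) := by
          field_simp
          norm_num
    have h5 : K ^ (1 / 8 : ℝ) * K ^ (1 / 8 : ℝ) ≤ s := by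
      rw [← Real.rpow_add hK0, hsK]
      exact Real.rpow_le_rpow_of_exponent_le hK1.le (by norm_num)
    calc (3 * t + 1 : ℝ) ^ 2 * (2 * η)
        ≤ (16 * K ^ (1 / 8 : ℝ)) * (2 * (1 / 32 * (K ^ (1 / 8 : ℝ) / s))) := by
          gcongr
          linarith
      _ = (K ^ (1 / 8 : ℝ) * K ^ (1 / 8 : ℝ)) / s := by ring
      _ ≤ 1 := by
          rw [div_le_one hs0]
          exact h5
  · -- (5)
    rw [← hK]
    calc 9 * (t : ℝ) ^ 2 * η * K ≤ 9 * K ^ (2 * κ₁) * (256 * q * log K / s) * K := by gcongr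
      _ ≤ 9 * K ^ (2 * κ₁) * (256 * q * (1 / (2304 * q) * K ^ (2 * κ₁)) / s) * K := by gcongr
      _ = K ^ (2 * κ₁) * K ^ (2 * κ₁) * (K / s) := by
          field_simp
          norm_num
      _ = K ^ (1 / 2 + 4 * κ₁) := by
          have h2 : K / s = K ^ (1 / 2 : ℝ) := by
            rw [← hsK, ← hss]
            field_simp
          rw [h2, ← Real.rpow_add hK0, ← Real.rpow_add hK0]
          congr 1
          ring
  · -- (6)
    have h2 : ((2 * W : ℕ) : ℝ) ≤ (k : ℝ) := by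
      rw [← hK, ← hss]
      push_cast
      have h3 : (1 : ℝ) * (2 * W) ≤ s * s := by
        apply mul_le_mul hs1 (by linarith) (by positivity) hs0.le
      linarith only [h3, pow_two s]
    exact_mod_cast h2
  · -- (8)
    have h2 : (((2 * r * L) ^ 2 : ℕ) : ℝ) ≤ (k : ℝ) := by
      rw [← hK, ← hss]
      push_cast
      apply pow_le_pow_left₀ (by positivity)
      have h3 : (16 * q) * L ≤ s := by
        rw [le_div_iff₀ (by positivity)] at hLu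
        linarith
      have h4 : (2 * r : ℝ) ≤ 16 * q := by rw [hq]; linarith
      calc (2 * r * L : ℝ) ≤ 16 * q * L := mul_le_mul_of_nonneg_right h4 hL0.le
        _ ≤ s := h3
    exact_mod_cast h2
  · -- (9)
    have h2 : (((2 * R + 2 * W) ^ 2 : ℕ) : ℝ) ≤ (k : ℝ) := by
      rw [← hK, ← hss]
      push_cast
      exact pow_le_pow_left₀ (by positivity) hRW 2
    exact_mod_cast h2
  · -- (10)
    rw [← hK, ← hC]
    have hKκ : 0 < K ^ κ₁ := by positivity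
    have hKκK : K ^ κ₁ ≤ K := by
      calc K ^ κ₁ ≤ K ^ (1 : ℝ) := Real.rpow_le_rpow_of_exponent_le hK1.le (by linarith)
        _ = K := Real.rpow_one K
    have hθ : 2 / (t * K) + 1 / K ^ (1 + 4 * κ₁) + (√(1 - η / 2)) ^ L ≤ 6 / (K * K ^ κ₁) := by
      have a1 : 2 / (t * K) ≤ 4 / (K * K ^ κ₁) := by
        rw [div_le_div_iff₀ (by positivity) (by positivity)]
        calc 2 * (K * K ^ κ₁) = (4 * K) * (K ^ κ₁ / 2) := by ring
          _ ≤ (4 * K) * t := by gcongr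
          _ = 4 * (t * K) := by ring
      have a2 : 1 / K ^ (1 + 4 * κ₁) ≤ 1 / (K * K ^ κ₁) := by
        apply one_div_le_one_div_of_le (by positivity)
        calc K * K ^ κ₁ = K ^ (1 + κ₁) := by rw [Real.rpow_add hK0, Real.rpow_one]
          _ ≤ K ^ (1 + 4 * κ₁) := Real.rpow_le_rpow_of_exponent_le hK1.le (by linarith)
      have a3 : (√(1 - η / 2)) ^ L ≤ 1 / (K * K ^ κ₁) := by
        refine (asy_sqrt_pow_le hK0 hηL).trans ?_
        apply one_div_le_one_div_of_le (by positivity)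
        rw [pow_two]
        gcongr
      have a4 : 6 / (K * K ^ κ₁) = 4 / (K * K ^ κ₁) + 1 / (K * K ^ κ₁) + 1 / (K * K ^ κ₁) := by ring
      linarith
    obtain ⟨θ, hθd⟩ : ∃ θ : ℝ, θ = 2 / (t * K) + 1 / K ^ (1 + 4 * κ₁) + (√(1 - η / 2)) ^ L := ⟨_, rfl⟩
    rw [← hθd] at hθ ⊢
    have hθ0 : 0 ≤ θ := by rw [hθd]; positivity
    -- first term
    have b1 : K * ((C * (K + 1)) ^ r * (2 * θ ^ r)) ≤ 2 * (12 * C) ^ r / s := by
      have c1 : C * (K + 1) * θ ≤ 12 * C / K ^ κ₁ := by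
        calc C * (K + 1) * θ ≤ C * (2 * K) * (6 / (K * K ^ κ₁)) := by
              gcongr
              linarith
          _ = 12 * C / K ^ κ₁ := by
              field_simp
              norm_num
      have c2 : (C * (K + 1) * θ) ^ r ≤ (12 * C) ^ r / K ^ 4 := by
        calc (C * (K + 1) * θ) ^ r ≤ (12 * C / K ^ κ₁) ^ r := pow_le_pow_left₀ (by positivity) c1 r
          _ = (12 * C) ^ r / (K ^ κ₁) ^ r := div_pow _ _ _
          _ ≤ (12 * C) ^ r / K ^ 4 := by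
              apply div_le_div_of_nonneg_left (by positivity) (by positivity)
              rw [← Real.rpow_natCast (K ^ κ₁) r, ← Real.rpow_mul hK0.le, ← Real.rpow_natCast K 4]
              apply Real.rpow_le_rpow_of_exponent_le hK1.le
              push_cast
              linarith
      calc K * ((C * (K + 1)) ^ r * (2 * θ ^ r)) = 2 * K * (C * (K + 1) * θ) ^ r := by
            rw [mul_pow _ θ r]
            ring
        _ ≤ 2 * K * ((12 * C) ^ r / K ^ 4) := by gcongr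
        _ = 2 * (12 * C) ^ r / K ^ 3 := by
            field_simp
        _ ≤ 2 * (12 * C) ^ r / s := by
            apply div_le_div_of_nonneg_left (by positivity) hs0
            rw [← hss]
            calc s = s ^ 1 := (pow_one s).symm
              _ ≤ s ^ 6 := pow_le_pow_right₀ hs1 (by norm_num)
              _ = (s ^ 2) ^ 3 := by ring
    -- second term
    have hR1 : (2 * R + 1 : ℝ) ≤ s := by linarith
    have b2 : K * ((W + 1) * (K + 1) * (C * (2 * R + 1)) ^ 7 * (2 / K ^ 6)) ≤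
        4 * (W + 1) * C ^ 7 / s := by
      calc K * ((W + 1) * (K + 1) * (C * (2 * R + 1)) ^ 7 * (2 / K ^ 6))
          ≤ K * ((W + 1) * (2 * K) * (C * s) ^ 7 * (2 / K ^ 6)) := by
            gcongr
            linarith
        _ = 4 * (W + 1) * C ^ 7 / s := by
            rw [← hss]
            field_simp
            norm_num
    -- third term
    have b3 : K * (C * (2 / K ^ 2)) ≤ 2 * C / s := by
      calc K * (C * (2 / K ^ 2)) = 2 * C / K := by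
            field_simp
        _ ≤ 2 * C / s := by
            apply div_le_div_of_nonneg_left (by positivity) hs0
            rw [← hss, pow_two]
            exact le_mul_of_one_le_right hs0.le hs1
    have b4 : M / s < 1 := by
      rw [div_lt_one hs0]
      linarith
    have b5 : M / s = 2 * (12 * C) ^ r / s + 4 * (W + 1) * C ^ 7 / s + 2 * C / s := by
      rw [hM]
      ring
    calc _ = K * ((C * (K + 1)) ^ r * (2 * θ ^ r)) +
          K * ((W + 1) * (K + 1) * (C * (2 * R + 1)) ^ 7 * (2 / K ^ 6)) +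
          K * (C * (2 / K ^ 2)) := by ring
      _ ≤ M / s := by
          rw [b5]
          linarith
      _ < 1 := b4

theorem params {κ : ℝ} (h0 : 0 < κ) (h1 : κ ≤ 1 / 10) :
    ∃ r k₀ : ℕ, ∀ k : ℕ, k₀ ≤ k → ∃ (t L R : ℕ) (η : ℝ), 0 < t ∧ 0 < η ∧ 0 < R ∧
      (3 * t + 1 : ℝ) ^ 2 * (2 * η) ≤ 1 ∧ 9 * (t : ℝ) ^ 2 * η * k ≤ (k : ℝ) ^ (1 / 2 + κ) ∧
      8 * (64 * (r + 1) + 3) ≤ k ∧ 2 * L + 2 * (4 * (64 * (r + 1) + 3)) ≤ R ∧ (2 * r * L) ^ 2 ≤ k ∧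
      (2 * R + 2 * (4 * (64 * (r + 1) + 3))) ^ 2 ≤ k ∧
      (k : ℝ) * (((4 : ℝ) ^ (4 * (64 * (r + 1) + 3)) * (k + 1)) ^ r *
          (2 * (2 / (t * k) + 1 / (k : ℝ) ^ (1 + κ) + (√(1 - η / 2)) ^ L) ^ r) +
        ((4 * (64 * (r + 1) + 3) : ℕ) + 1) * (k + 1) *
          ((4 : ℝ) ^ (4 * (64 * (r + 1) + 3)) * (2 * R + 1)) ^ 7 * (2 / (k : ℝ) ^ 6) +
        (4 : ℝ) ^ (4 * (64 * (r + 1) + 3)) * (2 / (k : ℝ) ^ 2)) < 1 := by
  obtain ⟨κ₁, hκ₁⟩ : ∃ κ₁ : ℝ, κ = 4 * κ₁ := ⟨κ / 4, by ring⟩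
  subst hκ₁
  have h0' : 0 < κ₁ := by linarith
  refine ⟨⌈4 / κ₁⌉₊, ?_⟩
  have hr : 4 ≤ (⌈4 / κ₁⌉₊ : ℝ) * κ₁ := by
    have h2 := Nat.le_ceil (4 / κ₁)
    rw [div_le_iff₀ h0'] at h2
    exact h2
  have h3 := params_aux h0' (by linarith) ⌈4 / κ₁⌉₊ (4 * (64 * (⌈4 / κ₁⌉₊ + 1) + 3)) hr (by omega)
  obtain ⟨k₀, hk₀⟩ := Filter.eventually_atTop.1 h3
  refine ⟨k₀, fun k hk => ?_⟩
  obtain ⟨t, L, R, η, g1, g2, g3, g4, g5, g6, g7, g8, g9, g10⟩ := hk₀ k hk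
  have g6' : 8 * (64 * (⌈4 / κ₁⌉₊ + 1) + 3) ≤ k := by
    calc 8 * (64 * (⌈4 / κ₁⌉₊ + 1) + 3) = 2 * (4 * (64 * (⌈4 / κ₁⌉₊ + 1) + 3)) := by ring
      _ ≤ k := g6
  exact ⟨t, L, R, η, g1, g2, g3, g4, g5, g6', g7, g8, g9, g10⟩

end Pool.Agent.Zs91
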