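import Pool.Agent.W_2c7c9d_h91.BlkA

/-! # MP_2c7c9d_co: a good order of a block

* `block_order`: for `σ : Equiv.Perm (Fin n)` let `ρ = List.ofFn (fun i => (σ i : ℕ))`, so `(ρ.take i).toFinset` is the image
  under `σ` of `{j | j < i}` and `((ρ.drop i).take l).toFinset` the image of `{j | i ≤ j < i + l}`.  At most `D (n - 1) !`
  permutations map an initial segment `{j | j < i}`, `0 < i < n`, onto a member of `F` (`i` = the cardinality of the member;
  `card_image`, `fact_le`), and at most `(n - z + 1) z ! (n - z) ! ≤ 2 (n - 1) !` map an interval `[i, i + z)`, `i + z ≤ n`,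
  onto `Z`, `z = Z.card` (`card_image`, `fact_le'`; the list has no repetitions, so a segment of length `l` with set of
  elements `Z` has `l = z`).  `D (n - 1) ! + 2 (n - 1) ! < n !`. -/

set_option autoImplicit false

noncomputable section

namespace Pool.Agent.Zs91

open Finset Nat

/-- The interval `[i, i + l)` of positions. -/
def segB (n i l : ℕ) : Finset (Fin n) := univ.filter (fun j : Fin n => i ≤ (j : ℕ) ∧ (j : ℕ) < i + l)

theorem segB_card {n i l : ℕ} (h : i + l ≤ n) : (segB n i l).card = l := by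
  have : (segB n i l).image (fun j : Fin n => (j : ℕ)) = Ico i (i + l) := by
    ext a
    simp only [segB, mem_image, mem_filter, mem_univ, true_and, mem_Ico]
    constructor
    · rintro ⟨j, hj, rfl⟩
      exact hj
    · intro ha
      exact ⟨⟨a, by omega⟩, ha, rfl⟩
  have h2 := card_image_of_injective (segB n i l) (f := fun j : Fin n => (j : ℕ)) Fin.val_injective
  rw [this, card_Ico] at h2
  omega

/-- The list of a permutation. -/
def lstB {n : ℕ} (σ : Equiv.Perm (Fin n)) : List ℕ := List.ofFn (fun i => (σ i : ℕ))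

theorem seg_toFinset {n : ℕ} (σ : Equiv.Perm (Fin n)) (i l : ℕ) (h : i + l ≤ n) :
    (((lstB σ).drop i).take l).toFinset = (segB n i l).image (fun j => (σ j : ℕ)) := by
  ext a
  simp only [List.mem_toFinset, segB, mem_image, mem_filter, mem_univ, true_and]
  rw [List.mem_iff_getElem]
  constructor
  · rintro ⟨m, hm, rfl⟩
    have hm' : m < l ∧ i + m < n := by
      simp only [List.length_take, List.length_drop, lstB, List.length_ofFn] at hm
      omega
    refine ⟨⟨i + m, hm'.2⟩, ⟨by simp, by simp [hm'.1]⟩, ?_⟩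
    simp [lstB, List.getElem_take, List.getElem_drop]
  · rintro ⟨j, ⟨h1, h2⟩, rfl⟩
    refine ⟨(j : ℕ) - i, ?_, ?_⟩
    · simp only [List.length_take, List.length_drop, lstB, List.length_ofFn]
      omega
    · simp only [lstB, List.getElem_take, List.getElem_drop, List.getElem_ofFn]
      congr 2
      ext
      simp
      omega

theorem count_seg {n : ℕ} (i l : ℕ) (h : i + l ≤ n) (X : Finset ℕ) :
    (univ.filter (fun σ : Equiv.Perm (Fin n) =>
      (segB n i l).image (fun j => (σ j : ℕ)) = X)).card ≤ l ! * (n - l)! := by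
  refine le_trans (card_le_card ?_)
    (card_image (segB n i l) (univ.filter (fun a : Fin n => (a : ℕ) ∈ X)) (segB_card h))
  intro σ hσ
  simp only [mem_filter, mem_univ, true_and] at hσ ⊢
  ext a
  rw [← hσ]
  simp only [mem_image, mem_filter, mem_univ, true_and]
  constructor
  · rintro ⟨j, hj, rfl⟩
    exact ⟨j, hj, rfl⟩
  · rintro ⟨j, hj, h⟩
    exact ⟨j, hj, Fin.ext h⟩

theorem card_seg {n : ℕ} (σ : Equiv.Perm (Fin n)) (i l : ℕ) (h : i + l ≤ n) :
    ((segB n i l).image (fun j => (σ j : ℕ))).card = l := by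
  rw [card_image_of_injective _ (fun a b hab => σ.injective (Fin.ext hab)), segB_card h]

theorem block_order {n D : ℕ} (hn : D + 3 ≤ n) (F : Finset (Finset ℕ)) (hF : F.card ≤ D)
    (Z : Finset ℕ) (hZ1 : 2 ≤ Z.card) (hZ2 : Z.card + 1 ≤ n) :
    ∃ ρ : List ℕ, ρ.Perm (List.range n) ∧
      (∀ i, 0 < i → i < n → (ρ.take i).toFinset ∉ F) ∧
      ∀ i l, i + l ≤ n → ((ρ.drop i).take l).toFinset ≠ Z := by
  classical
  set B1 : Finset (Equiv.Perm (Fin n)) := F.biUnion (fun X =>
    if 0 < X.card ∧ X.card < n then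
      univ.filter (fun σ : Equiv.Perm (Fin n) => (segB n 0 X.card).image (fun j => (σ j : ℕ)) = X)
    else ∅) with hB1
  set B2 : Finset (Equiv.Perm (Fin n)) := (range (n - Z.card + 1)).biUnion (fun i =>
    univ.filter (fun σ : Equiv.Perm (Fin n) => (segB n i Z.card).image (fun j => (σ j : ℕ)) = Z)) with hB2
  have c1 : B1.card ≤ D * (n - 1)! := by
    refine card_biUnion_le.trans ?_
    refine (sum_le_card_nsmul _ _ ((n - 1)!) ?_).trans ?_
    · intro X hX
      split_ifs with hc
      · exact (count_seg 0 X.card (by omega) X).trans (fact_le hc.1 hc.2)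
      · simp
    · rw [smul_eq_mul]
      exact Nat.mul_le_mul_right _ hF
  have c2 : B2.card ≤ 2 * (n - 1)! := by
    refine card_biUnion_le.trans ?_
    refine (sum_le_card_nsmul _ _ (Z.card ! * (n - Z.card)!) ?_).trans ?_
    · intro i hi
      rw [mem_range] at hi
      exact count_seg i Z.card (by omega) Z
    · rw [smul_eq_mul, card_range]
      exact fact_le' hZ1 hZ2
  have c3 : (B1 ∪ B2).card < (univ : Finset (Equiv.Perm (Fin n))).card := by
    rw [Finset.card_univ, Fintype.card_perm, Fintype.card_fin]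
    refine (card_union_le _ _).trans_lt ?_
    have h1 : n ! = n * (n - 1)! := by
      obtain ⟨m, rfl⟩ : ∃ m, n = m + 1 := ⟨n - 1, by omega⟩
      simp [Nat.factorial_succ]
    have h2 : 0 < (n - 1)! := Nat.factorial_pos _
    rw [h1]
    calc B1.card + B2.card ≤ D * (n - 1)! + 2 * (n - 1)! := Nat.add_le_add c1 c2
      _ = (D + 2) * (n - 1)! := by ring
      _ < n * (n - 1)! := Nat.mul_lt_mul_of_pos_right (by omega) h2
  obtain ⟨σ, -, hσ⟩ := exists_mem_notMem_of_card_lt_card c3
  rw [mem_union, not_or] at hσ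
  refine ⟨lstB σ, ?_, ?_, ?_⟩
  · refine (List.perm_ext_iff_of_nodup ?_ (List.nodup_range)).2 ?_
    · rw [lstB, List.nodup_ofFn]
      exact fun a b hab => σ.injective (Fin.ext hab)
    · intro a
      rw [lstB, List.mem_ofFn, List.mem_range]
      constructor
      · rintro ⟨i, rfl⟩
        exact (σ i).2
      · intro ha
        exact ⟨σ.symm ⟨a, ha⟩, by simp⟩
  · intro i hi0 hin hF'
    have h1 := seg_toFinset σ 0 i (by omega)
    rw [List.drop_zero] at h1
    rw [h1] at hF'
    have h2 := card_seg σ 0 i (by omega)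
    refine hσ.1 (mem_biUnion.2 ⟨_, hF', ?_⟩)
    rw [if_pos (by rw [h2]; exact ⟨hi0, hin⟩), mem_filter]
    refine ⟨mem_univ _, ?_⟩
    rw [h2]
  · intro i l hil hZ
    rw [seg_toFinset σ i l hil] at hZ
    have h2 := card_seg σ i l hil
    rw [hZ] at h2
    subst h2
    refine hσ.2 (mem_biUnion.2 ⟨i, mem_range.2 (by omega), ?_⟩)
    rw [mem_filter]
    exact ⟨mem_univ _, hZ⟩

end Pool.Agent.Zs91
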