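import Mathlib

/-! # MP_2c7c9d_co: permutations that map a set onto a set

* `card_image`: permutations `σ` of `Fin n` that map `S` onto `X`, `S.card = j`: at most `j ! (n - j) !` (restrict `σ` to
  `S ≃ X` and `Sᶜ ≃ Xᶜ`; the map `σ ↦` (two restrictions) is injective; if `X.card ≠ j` there are none).
* `fact_le`: `j ! (n - j) ! ≤ (n - 1) !` for `0 < j < n` (`n.choose j ≥ n`, or induction).
* `fact_le'`: `z ! (n - z + 1) ! ≤ 2 (n - 1) !` for `2 ≤ z ≤ n - 1` (e.g. `(n - 1)! = (n-1)...(z+1) z !` and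
  `(n - z + 1)! = 2 * 3 * ... * (n - z + 1)` has the factors `3, ..., n - z + 1` which are at most `z + 1, ..., n - 1`). -/

set_option autoImplicit false

noncomputable section

namespace Pool.Agent.Zs91

open Finset Nat

theorem card_image {n j : ℕ} (S X : Finset (Fin n)) (hS : S.card = j) :
    (univ.filter (fun σ : Equiv.Perm (Fin n) => S.image σ = X)).card ≤ j ! * (n - j)! := by
  classical
  rcases (univ.filter (fun σ : Equiv.Perm (Fin n) => S.image σ = X)).eq_empty_or_nonempty with h0 | ⟨σ₀, h0⟩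
  · rw [h0]; simp
  rw [mem_filter] at h0
  have hX : X.card = j := by
    rw [← h0.2, Finset.card_image_of_injective _ σ₀.injective, hS]
  let Y := {σ : Equiv.Perm (Fin n) // S.image σ = X}
  have hYin : ∀ (σ : Y) (x : Fin n), x ∈ S → σ.1 x ∈ X := by
    rintro ⟨σ, hσ⟩ x hx
    exact hσ ▸ mem_image_of_mem _ hx
  have hYout : ∀ (σ : Y) (x : Fin n), x ∈ Sᶜ → σ.1 x ∈ Xᶜ := by
    rintro ⟨σ, hσ⟩ x hx
    rw [mem_compl] at hx ⊢
    intro hc
    have hc' : σ x ∈ image (⇑σ) S := by rw [hσ]; exact hc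
    obtain ⟨y, hy, h⟩ := mem_image.1 hc'
    exact hx (σ.injective h ▸ hy)
  let f : Y → (S ↪ X) × ((Sᶜ : Finset (Fin n)) ↪ (Xᶜ : Finset (Fin n))) := fun σ =>
    (⟨fun x => ⟨σ.1 x.1, hYin σ x.1 x.2⟩, fun a b hab => Subtype.ext (σ.1.injective (Subtype.ext_iff.1 hab))⟩,
      ⟨fun x => ⟨σ.1 x.1, hYout σ x.1 x.2⟩, fun a b hab => Subtype.ext (σ.1.injective (Subtype.ext_iff.1 hab))⟩)
  have hf : Function.Injective f := by
    intro σ τ h
    apply Subtype.ext
    ext x
    have h1 := congrArg Prod.fst h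
    have h2 := congrArg Prod.snd h
    by_cases hx : x ∈ S
    · have := DFunLike.congr_fun h1 ⟨x, hx⟩
      exact congrArg Fin.val (Subtype.ext_iff.1 this)
    · have := DFunLike.congr_fun h2 ⟨x, mem_compl.2 hx⟩
      exact congrArg Fin.val (Subtype.ext_iff.1 this)
  have h3 := Fintype.card_le_of_injective f hf
  rw [Fintype.card_prod, Fintype.card_embedding_eq, Fintype.card_embedding_eq, Fintype.card_coe,
    Fintype.card_coe, Fintype.card_coe, Fintype.card_coe, card_compl, card_compl, Fintype.card_fin,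
    hS, hX, Nat.descFactorial_self, Nat.descFactorial_self, Fintype.card_subtype] at h3
  exact h3

theorem fact_aux (a : ℕ) : ∀ b : ℕ, (a + 1)! * (b + 1)! ≤ (a + b + 1)!
  | 0 => by simp
  | b + 1 => by
    have h1 := fact_aux a b
    calc (a + 1)! * (b + 1 + 1)! = (b + 2) * ((a + 1)! * (b + 1)!) := by
          rw [Nat.factorial_succ (b + 1)]; ring
      _ ≤ (a + b + 2) * (a + b + 1)! := Nat.mul_le_mul (by omega) h1
      _ = (a + (b + 1) + 1)! := by
          rw [show a + (b + 1) + 1 = (a + b + 1) + 1 by ring, Nat.factorial_succ (a + b + 1)]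

theorem fact_aux' (a : ℕ) : ∀ b : ℕ, (b + 2)! * (a + 2)! ≤ 2 * (a + b + 2)!
  | 0 => by simp
  | b + 1 => by
    have h1 := fact_aux' a b
    calc (b + 1 + 2)! * (a + 2)! = (b + 3) * ((b + 2)! * (a + 2)!) := by
          rw [show b + 1 + 2 = (b + 2) + 1 by ring, Nat.factorial_succ (b + 2)]; ring
      _ ≤ (a + b + 3) * (2 * (a + b + 2)!) := Nat.mul_le_mul (by omega) h1
      _ = 2 * (a + (b + 1) + 2)! := by
          rw [show a + (b + 1) + 2 = (a + b + 2) + 1 by ring, Nat.factorial_succ (a + b + 2)]; ring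

theorem fact_le {n j : ℕ} (h1 : 0 < j) (h2 : j < n) : j ! * (n - j)! ≤ (n - 1)! := by
  obtain ⟨a, rfl⟩ : ∃ a, j = a + 1 := ⟨j - 1, by omega⟩
  obtain ⟨b, rfl⟩ : ∃ b, n = a + b + 2 := ⟨n - a - 2, by omega⟩
  have := fact_aux a b
  rwa [show a + b + 2 - (a + 1) = b + 1 by omega, show a + b + 2 - 1 = a + b + 1 by omega]

theorem fact_le' {n z : ℕ} (h1 : 2 ≤ z) (h2 : z + 1 ≤ n) :
    (n - z + 1) * (z ! * (n - z)!) ≤ 2 * (n - 1)! := by
  obtain ⟨a, rfl⟩ : ∃ a, z = a + 2 := ⟨z - 2, by omega⟩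
  obtain ⟨b, rfl⟩ : ∃ b, n = a + b + 3 := ⟨n - a - 3, by omega⟩
  have := fact_aux' a b
  rw [show a + b + 3 - (a + 2) = b + 1 by omega, show a + b + 3 - 1 = a + b + 2 by omega]
  refine le_trans (le_of_eq ?_) this
  rw [show b + 2 = (b + 1) + 1 by ring, Nat.factorial_succ (b + 1)]
  ring

end Pool.Agent.Zs91
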