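import Pool.Agent.W_2c7c9d_h91.Rt
import Pool.Agent.W_2c7c9d_h91.Blk

/-! # MP_2c7c9d_co: re-ordering a good arrangement: a block

Throughout `s` has period `k`, `pre s k = 0`, `m = D + 3`, `w = 4 m`, and all rotations of `s` are `Good k w D`.
`pre (fun j => s (v + j)) x` is the difference of the vertices `v + x` and `v` (`pre_add`).

* `block_exists`: `F` = all dangerous subsets of `range n` (a filter of the powerset of `range n`, classical), at most `D`.
  If there is a nonempty zero-sum subset `Z` of `range n` with less than `n` elements take it (`Z.card ≥ 2` as no `s j`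
  is `0`); otherwise `Z = range 2`.  `block_order`.  If the sum over `((ρ.drop i).take l)`, `0 < l < n`, is `0`, its set of
  elements is a nonempty zero-sum subset of `range n` with `l < n` elements, so it is the set `Z` (uniqueness:
  `Good.zero`), contradiction.  (A `Dng` set is a subset of `range n`; `ρ` has no repetitions, so the sum of the list is the
  sum over the set of its elements, `List.sum_toFinset`.) -/

set_option autoImplicit false

noncomputable section

namespace Pool.Agent.Zs91

open Finset

variable {G : Type} [AddCommGroup G] {k D m w : ℕ} {s : ℕ → G}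

theorem block_exists (h0 : ∀ j, s j ≠ 0) (hm : m = D + 3) {v n : ℕ} (hgood : Good k (4 * m) D (rt s v))
    (hn : m ≤ n) (hn' : n ≤ 4 * m) (hv : v + n ≤ k) (hc : Clean k m s v) :
    ∃ ρ, BC k m (4 * m) s v n ρ := by
  classical
  set F := (range n).powerset.filter (Dng k (4 * m) (rt s v) n) with hF
  have hFc : F.card ≤ D := hgood.few n hn' F fun X hX => (mem_filter.1 hX).2
  -- segments with sum zero are equal to `Z`
  obtain ⟨Z, hZ1, hZ2, hZ3⟩ : ∃ Z : Finset ℕ, 2 ≤ Z.card ∧ Z.card + 1 ≤ n ∧
      ∀ S : Finset ℕ, S ⊆ range n → S.Nonempty → S.card < n → ∑ j ∈ S, rt s v j = 0 → S = Z := by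
    by_cases hz : ∃ Z : Finset ℕ, Z ⊆ range n ∧ Z.Nonempty ∧ Z.card < n ∧ ∑ j ∈ Z, rt s v j = 0
    · obtain ⟨Z, h1, h2, h3, h4⟩ := hz
      have hsub : range n ⊆ range (4 * m) := range_subset_range.2 hn'
      refine ⟨Z, ?_, h3, fun S g1 g2 _ g4 =>
        hgood.zero S Z (g1.trans hsub) (h1.trans hsub) g2 h2 g4 h4⟩
      by_contra h
      have h5 : Z.card = 1 := by
        have := card_pos.2 h2
        omega
      obtain ⟨a, rfl⟩ := card_eq_one.1 h5
      rw [sum_singleton] at h4
      exact h0 _ h4
    · refine ⟨range 2, by simp, by simp; omega, fun S g1 g2 g3 g4 => ?_⟩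
      exact absurd ⟨S, g1, g2, g3, g4⟩ hz
  obtain ⟨ρ, hp, hs, hco⟩ := block_order (by omega) F hFc Z hZ1 hZ2
  have hnd : ρ.Nodup := hp.nodup_iff.2 List.nodup_range
  have hlen : ρ.length = n := by rw [hp.length_eq, List.length_range]
  refine ⟨ρ, hp, hn, by omega, hn', hv, hc, fun i h1 h2 hD => ?_, fun i l h1 h2 h3 h4 => ?_⟩
  · exact hs i h1 h2 (mem_filter.2 ⟨mem_powerset.2 hD.1, hD⟩)
  · have hsl : ((ρ.drop i).take l).Sublist ρ := (List.take_sublist _ _).trans (List.drop_sublist _ _)
    have hnd2 : ((ρ.drop i).take l).Nodup := hnd.sublist hsl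
    have hcard : ((ρ.drop i).take l).toFinset.card = l := by
      rw [List.toFinset_card_of_nodup hnd2, List.length_take, List.length_drop, hlen]
      omega
    refine hco i l h1 (hZ3 _ ?_ ?_ (by omega) ?_)
    · intro x hx
      rw [List.mem_toFinset] at hx
      exact mem_range.2 (List.mem_range.1 (hp.subset (hsl.subset hx)))
    · rw [← card_pos]
      omega
    · rw [List.sum_toFinset _ hnd2]
      exact h4

end Pool.Agent.Zs91
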