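import Pool.Agent.W_2c7c9d_h91.ChnL

/-! # MP_2c7c9d_co: re-ordering a good arrangement: the vertices of a chain are distinct

Throughout `s` has period `k`, `pre s k = 0`, `m = D + 3`, `w = 4 m`, and all rotations of `s` are `Good k w D`.
`pre (fun j => s (v + j)) x` is the difference of the vertices `v + x` and `v` (`pre_add`).

* `chain_distinct`: `chain_loc2` for a chain from `0` (`pre s 0 = 0`).  Same block: the difference of the two sums is
  the sum over `((ρ.drop i).take (i' - i))`, `0 < i' - i < n`: `BC.cont`.  Different blocks: suppose
  `pre s v + ∑_{j ∈ take i ρ} s (v + j) = pre s v' + ∑_{j ∈ take i' ρ'} s (v' + j)`.  If `0 < i`: `take i ρ` is dangerous for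
  the rotation by `v` with `u = v' - v ≥ n`, `Y = {u + j | j ∈ take i' ρ'}`, against `BC.safe` (`take i ρ` is a proper nonempty
  subset of `range n`).  If `i = 0 < i'`: `take i' ρ'` is dangerous for the rotation by `v'`, `u = k - v' + v`, `Y = ∅` (the
  vertex `v` is the vertex `v + k`, `pre_shift`; `n' ≤ k - v' ≤ u ≤ k`).  If `i = i' = 0`: `v` is clean,
  `m ≤ n ≤ v' - v ≤ k - n' ≤ k - m`. -/

set_option autoImplicit false

noncomputable section

namespace Pool.Agent.Zs91

open Finset

variable {G : Type} [AddCommGroup G] {k D m w : ℕ} {s : ℕ → G}

private theorem nodup_of {v n : ℕ} {ρ : List ℕ} (hb : BC k m w s v n ρ) : ρ.Nodup :=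
  hb.perm.nodup_iff.2 List.nodup_range

private theorem len_of {v n : ℕ} {ρ : List ℕ} (hb : BC k m w s v n ρ) : ρ.length = n := by
  rw [hb.perm.length_eq, List.length_range]

private theorem sum_take {v n : ℕ} {ρ : List ℕ} (hb : BC k m w s v n ρ) (i : ℕ) :
    ((ρ.take i).map (rt s v)).sum = ∑ j ∈ (ρ.take i).toFinset, rt s v j :=
  (List.sum_toFinset _ ((nodup_of hb).sublist (List.take_sublist _ _))).symm

private theorem take_sub {v n : ℕ} {ρ : List ℕ} (hb : BC k m w s v n ρ) (i : ℕ) :
    (ρ.take i).toFinset ⊆ range n := by
  intro j hj
  rw [List.mem_toFinset] at hj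
  have := (hb.perm.mem_iff).1 (List.mem_of_mem_take hj)
  simpa using this

private theorem take_card {v n : ℕ} {ρ : List ℕ} (hb : BC k m w s v n ρ) {i : ℕ} (hi : i < n) :
    (ρ.take i).toFinset.card = i := by
  rw [List.toFinset_card_of_nodup ((nodup_of hb).sublist (List.take_sublist _ _)), List.length_take,
    len_of hb]
  omega

theorem chain_distinct (hper : ∀ j, s (j + k) = s j) (hsum : pre s k = 0) (hk : 8 * m ≤ k)
    {L : List ℕ} (h : Chn k m w s 0 L) {t t' : ℕ} (htt : t < t') (ht : t' < k) :
    ((L.take t).map s).sum ≠ ((L.take t').map s).sum := by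
  intro heq
  rcases chain_loc2 h htt (by omega) with ⟨v, n, ρ, i, i', hb, h1, h2, h3, h4, h5, h6⟩ |
    ⟨v, n, ρ, i, v', n', ρ', i', hb, hb', hvv, hin, hin', h1, h2, h5, h6⟩
  · rw [pre_zero, zero_add] at h5 h6
    rw [heq, h6] at h5
    have h7 := add_left_cancel h5
    -- the sum over the middle segment is zero
    have h8 : ρ.take i' = ρ.take i ++ (ρ.drop i).take (i' - i) := by
      have h9 : i' = i + (i' - i) := by omega
      conv_lhs => rw [h9]
      rw [List.take_add]
    rw [h8, List.map_append, List.sum_append] at h7
    have h10 : (((ρ.drop i).take (i' - i)).map (rt s v)).sum = 0 := by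
      simpa using h7
    exact hb.cont i (i' - i) (by omega) (by omega) (by omega) h10
  · rw [pre_zero, zero_add] at h5 h6
    have he : pre s v + ((ρ.take i).map (rt s v)).sum = pre s v' + ((ρ'.take i').map (rt s v')).sum := by
      rw [← h5, ← h6, heq]
    have hbd := hb.bd
    have hbd' := hb'.bd
    have hlow' := hb'.low
    have hlow := hb.low
    have hpos := hb.pos
    have hpos' := hb'.pos
    have hhigh := hb.high
    have hhigh' := hb'.high
    obtain ⟨d, rfl⟩ := Nat.exists_eq_add_of_le (show v ≤ v' by omega)
    rcases Nat.eq_zero_or_pos i with rfl | hi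
    · rcases Nat.eq_zero_or_pos i' with rfl | hi'
      · -- both starting vertices
        simp only [List.take_zero, List.map_nil, List.sum_nil, add_zero] at he
        rw [pre_add] at he
        exact hb.clean d (by omega) (by omega) (by simpa using he)
      · simp only [List.take_zero, List.map_nil, List.sum_nil, add_zero] at he
        refine hb'.safe i' hi' hin' ⟨take_sub hb' i', ?_, ?_, k - d, ∅, by omega, by omega, by simp,
          by simp, ?_⟩
        · rw [← Finset.card_pos, take_card hb' hin']; exact hi'
        · intro hcon
          have := congrArg Finset.card hcon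
          rw [take_card hb' hin', card_range] at this
          omega
        · rw [← sum_take hb', sum_empty, add_zero]
          have h7 : pre s (v + d + (k - d)) = pre s v := by
            have : v + d + (k - d) = v + k := by omega
            rw [this]
            exact pre_shift hper hsum v
          rw [pre_add s (v + d)] at h7
          have h8 : pre s (v + d) + ((ρ'.take i').map (rt s (v + d))).sum =
              pre s (v + d) + pre (rt s (v + d)) (k - d) := by
            rw [← he, ← h7]
          exact add_left_cancel h8
    · refine hb.safe i hi hin ⟨take_sub hb i, ?_, ?_, d,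
        (ρ'.take i').toFinset.image (fun j => d + j), by omega, by omega, ?_, ?_, ?_⟩
      · rw [← Finset.card_pos, take_card hb hin]; exact hi
      · intro hcon
        have := congrArg Finset.card hcon
        rw [take_card hb hin, card_range] at this
        omega
      · intro x hx
        rw [mem_image] at hx
        obtain ⟨j, hj, rfl⟩ := hx
        have := mem_range.1 (take_sub hb' i' hj)
        rw [mem_Ico]
        omega
      · intro x hx
        rw [mem_image] at hx
        obtain ⟨j, hj, rfl⟩ := hx
        have := mem_range.1 (take_sub hb' i' hj)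
        rw [mem_range]
        omega
      · rw [← sum_take hb, sum_image (fun a _ b _ hab => by omega)]
        have h7 : ∑ j ∈ (ρ'.take i').toFinset, rt s v (d + j) =
            ((ρ'.take i').map (rt s (v + d))).sum := by
          rw [sum_take hb']
          exact sum_congr rfl fun j _ => by simp [rt, add_assoc]
        rw [h7]
        rw [pre_add, add_assoc] at he
        exact add_left_cancel he

end Pool.Agent.Zs91
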