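import Pool.Agent.W_2c7c9d_h91.Rt
import Pool.Agent.W_2c7c9d_h91.BlkE

/-! # MP_2c7c9d_co: re-ordering a good arrangement: a chain of blocks

Throughout `s` has period `k`, `pre s k = 0`, `m = D + 3`, `w = 4 m`, and all rotations of `s` are `Good k w D`.
`pre (fun j => s (v + j)) x` is the difference of the vertices `v + x` and `v` (`pre_add`).

* `chain_exists`: strong induction on `k - v`.  If `k - v ≤ 4 m`: one block of length `k - v` (`block_exists`), then `nil`.
  Otherwise `clean_exists` at `v + m` gives a clean `v'` with `v + m < v' < v + 2 m`; block `[v, v')`, and `v' + m ≤ k`.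
* `chain_perm`: induction; `List.range' v (k - v) = List.range' v n ++ List.range' (v + n) (k - (v + n))`
  (`List.range'_append`), `(List.range n).map (v + ·) = List.range' v n` (`List.range'_eq_map_range`). -/

set_option autoImplicit false

noncomputable section

namespace Pool.Agent.Zs91

open Finset

variable {G : Type} [AddCommGroup G] {k D m w : ℕ} {s : ℕ → G}

theorem chain_exists (hper : ∀ j, s (j + k) = s j) (h0 : ∀ j, s j ≠ 0) (hm : m = D + 3)
    (hk : 8 * m ≤ k) (hgood : ∀ v, Good k (4 * m) D (rt s v)) (v : ℕ) (hv : v + m ≤ k)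
    (hc : Clean k m s v) : ∃ L, Chn k m (4 * m) s v L := by
  obtain ⟨d, hd⟩ : ∃ d, k - v = d := ⟨_, rfl⟩
  induction d using Nat.strong_induction_on generalizing v with
  | _ d ih =>
    rcases Nat.lt_or_ge (4 * m) (k - v) with h | h
    · obtain ⟨x, hx0, hxm, hcl⟩ := clean_exists hper hm hk hgood (v + m)
      obtain ⟨ρ, hρ⟩ := block_exists (v := v) (n := m + x) h0 hm (hgood v) (by omega) (by omega)
        (by omega) hc
      rw [add_assoc] at hcl
      obtain ⟨L, hL⟩ := ih (k - (v + (m + x))) (by omega) (v + (m + x)) (by omega) hcl rfl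
      exact ⟨_, Chn.cons v (m + x) ρ L hρ hL⟩
    · obtain ⟨ρ, hρ⟩ := block_exists (v := v) (n := k - v) h0 hm (hgood v) (by omega) (by omega)
        (by omega) hc
      have hvk : v + (k - v) = k := by omega
      have hnil : Chn k m (4 * m) s (v + (k - v)) [] := by
        rw [hvk]
        exact Chn.nil
      exact ⟨_, Chn.cons v (k - v) ρ [] hρ hnil⟩

theorem chain_perm {v : ℕ} {L : List ℕ} (h : Chn k m w s v L) : v ≤ k ∧ L.Perm (List.range' v (k - v)) := by
  induction h with
  | nil => simp
  | cons v n ρ L h hL ih =>
    obtain ⟨h1, h2⟩ := ih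
    refine ⟨by omega, ?_⟩
    have e : List.range' v (k - v) = (List.range n).map (fun j => v + j) ++
        List.range' (v + n) (k - (v + n)) := by
      rw [← List.range'_eq_map_range]
      have := List.range'_append_1 (s := v) (m := n) (n := k - (v + n))
      rw [this]
      congr 1
      omega
    rw [e]
    exact (h.perm.map _).append h2

end Pool.Agent.Zs91
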