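import Pool.Agent.W_2c7c9d_h91.Rt

/-! # MP_2c7c9d_co: re-ordering a good arrangement: positions in a chain

Throughout `s` has period `k`, `pre s k = 0`, `m = D + 3`, `w = 4 m`, and all rotations of `s` are `Good k w D`.
`pre (fun j => s (v + j)) x` is the difference of the vertices `v + x` and `v` (`pre_add`).

* `chain_loc`: every position `t < L.length` of a chain from `v₀` lies in a block: induction on the chain (if `t` is not in
  the first block: the sum of the whole first block is `pre (rt s v) n`, because `ρ` is a permutation of `range n`, and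
  `pre s v + pre (rt s v) n = pre s (v + n)` by `pre_add`; a chain from `v` has `v ≤ k`).
* `chain_loc2`: two positions `t < t'`: in the same block or in blocks `[v, v + n)`, `[v', v' + n')` with `v + n ≤ v'`
  (induction; if `t` is in the first block and `t'` is not, use `chain_loc` for the rest). -/

set_option autoImplicit false

noncomputable section

namespace Pool.Agent.Zs91

open Finset

variable {G : Type} [AddCommGroup G] {k D m w : ℕ} {s : ℕ → G}

private theorem take_low (v : ℕ) (ρ L : List ℕ) {t : ℕ} (h : t ≤ ρ.length) :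
    ((ρ.map (fun j => v + j) ++ L).take t).map s = (ρ.take t).map (rt s v) := by
  rw [List.take_append_of_le_length (by simpa using h), ← List.map_take, List.map_map]
  rfl

private theorem take_high {v n : ℕ} {ρ : List ℕ} (L : List ℕ) (hb : BC k m w s v n ρ) {t : ℕ}
    (h : n ≤ t) :
    pre s v + (((ρ.map (fun j => v + j) ++ L).take t).map s).sum =
      pre s (v + n) + ((L.take (t - n)).map s).sum := by
  have hlen : (ρ.map (fun j => v + j)).length = n := by
    rw [List.length_map, hb.perm.length_eq, List.length_range]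
  obtain ⟨c, rfl⟩ := Nat.exists_eq_add_of_le h
  have h1 : (ρ.map (fun j => v + j) ++ L).take (n + c) = ρ.map (fun j => v + j) ++ L.take c := by
    conv_lhs => rw [← hlen]
    exact List.take_length_add_append c
  rw [h1, List.map_append, List.sum_append, Nat.add_sub_cancel_left, pre_add, ← add_assoc]
  congr 2
  rw [List.map_map, (hb.perm.map _).sum_eq]
  rfl

theorem chain_loc {v₀ : ℕ} {L : List ℕ} (h : Chn k m w s v₀ L) {t : ℕ} (ht : v₀ + t < k) :
    ∃ v n ρ i, BC k m w s v n ρ ∧ v₀ ≤ v ∧ v₀ + t = v + i ∧ i < n ∧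
      pre s v₀ + ((L.take t).map s).sum = pre s v + ((ρ.take i).map (rt s v)).sum := by
  induction h generalizing t with
  | nil => omega
  | cons v n ρ L hb hL ih =>
    have hlen : ρ.length = n := by rw [hb.perm.length_eq, List.length_range]
    by_cases htn : t < n
    · exact ⟨v, n, ρ, t, hb, le_rfl, rfl, htn, by rw [take_low v ρ L (by omega)]⟩
    · push Not at htn
      obtain ⟨v', n', ρ', i, hb', h1, h2, h3, h4⟩ := ih (t := t - n) (by omega)
      exact ⟨v', n', ρ', i, hb', by omega, by omega, h3, by rw [take_high L hb htn]; exact h4⟩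

theorem chain_loc2 {v₀ : ℕ} {L : List ℕ} (h : Chn k m w s v₀ L) {t t' : ℕ} (htt : t < t')
    (ht : v₀ + t' < k) :
    (∃ v n ρ i i', BC k m w s v n ρ ∧ v₀ + t = v + i ∧ v₀ + t' = v + i' ∧ i < i' ∧ i' < n ∧
      pre s v₀ + ((L.take t).map s).sum = pre s v + ((ρ.take i).map (rt s v)).sum ∧
      pre s v₀ + ((L.take t').map s).sum = pre s v + ((ρ.take i').map (rt s v)).sum) ∨
    ∃ v n ρ i v' n' ρ' i', BC k m w s v n ρ ∧ BC k m w s v' n' ρ' ∧ v + n ≤ v' ∧ i < n ∧ i' < n' ∧
      v₀ + t = v + i ∧ v₀ + t' = v' + i' ∧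
      pre s v₀ + ((L.take t).map s).sum = pre s v + ((ρ.take i).map (rt s v)).sum ∧
      pre s v₀ + ((L.take t').map s).sum = pre s v' + ((ρ'.take i').map (rt s v')).sum := by
  induction h generalizing t t' with
  | nil => omega
  | cons v n ρ L hb hL ih =>
    have hlen : ρ.length = n := by rw [hb.perm.length_eq, List.length_range]
    by_cases htn' : t' < n
    · exact Or.inl ⟨v, n, ρ, t, t', hb, rfl, rfl, htt, htn', by rw [take_low v ρ L (by omega)],
        by rw [take_low v ρ L (by omega)]⟩
    · push Not at htn'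
      by_cases htn : t < n
      · obtain ⟨v', n', ρ', i, hb', h1, h2, h3, h4⟩ := chain_loc hL (t := t' - n) (by omega)
        exact Or.inr ⟨v, n, ρ, t, v', n', ρ', i, hb, hb', h1, htn, h3, rfl, by omega,
          by rw [take_low v ρ L (by omega)], by rw [take_high L hb htn']; exact h4⟩
      · push Not at htn
        have hih := ih (t := t - n) (t' := t' - n) (by omega) (by omega)
        rw [take_high L hb htn, take_high L hb htn']
        rcases hih with ⟨v', n', ρ', i, i', h1, h2, h3, h4, h5, h6, h7⟩ |
          ⟨v₁, n₁, ρ₁, i₁, v₂, n₂, ρ₂, i₂, h1, h2, h3, h4, h5, h6, h7, h8, h9⟩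
        · exact Or.inl ⟨v', n', ρ', i, i', h1, by omega, by omega, h4, h5, h6, h7⟩
        · exact Or.inr ⟨v₁, n₁, ρ₁, i₁, v₂, n₂, ρ₂, i₂, h1, h2, h3, h4, h5, by omega, by omega, h8, h9⟩

end Pool.Agent.Zs91
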