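import Pool.Agent.W_2c7c9d_h91.AltA
import Pool.Agent.W_2c7c9d_h91.AltB
import Pool.Agent.W_2c7c9d_h91.AltC

/-! # MP_2c7c9d_co: most arrangements are good -/

set_option autoImplicit false

noncomputable section

namespace Pool.Agent.Zs91

open Finset Nat

variable {G : Type} [AddCommGroup G] {k : ℕ} [NeZero k] {A : Finset G} {w L R r : ℕ}

open Classical in
theorem bad_card [Fintype G] (hA : A.card = k) (hR0 : 0 < R) (hR : 2 * L + 2 * w ≤ R)
    (h1 : (2 * r * L) ^ 2 ≤ k) (h2 : (2 * R + 2 * w) ^ 2 ≤ k) :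
    ((univ.filter (fun a : Fin k ≃ {x // x ∈ A} => ¬ Good k w (64 * (r + 1)) (sq a))).card : ℝ) ≤
      ((4 : ℝ) ^ w * (k + 1)) ^ r * (2 * k ! * theta A L ^ r) +
      (w + 1) * (k + 1) * ((4 : ℝ) ^ w * (2 * R + 1)) ^ 7 * (2 * k ! / (k : ℝ) ^ 6) +
      (4 : ℝ) ^ w * (2 * k ! / (k : ℝ) ^ 2) := by
  have hw : w ^ 2 ≤ k := le_trans (Nat.pow_le_pow_left (by omega) 2) h2
  have hRk : R ≤ k := by
    have h3 : R ≤ 2 * R + 2 * w := by omega
    have h4 : 2 * R + 2 * w ≤ (2 * R + 2 * w) ^ 2 := by nlinarith [Nat.zero_le (2 * R + 2 * w)]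
    omega
  have hB := altB_card (w := w) (R := R) hA hR h1
  have hAA := altA_card (w := w) (R := R) hA h2
  have hC := altC_card (w := w) hA hw
  refine le_trans ?_ (add_le_add (add_le_add hB hAA) hC)
  norm_cast
  refine le_trans (card_le_card (t := (univ.filter (fun a : Fin k ≃ {x // x ∈ A} => AltB w R r a) ∪
    univ.filter (fun a : Fin k ≃ {x // x ∈ A} => AltA w R a)) ∪
    univ.filter (fun a : Fin k ≃ {x // x ∈ A} => AltC w a)) ?_)
    (le_trans (card_union_le _ _) (Nat.add_le_add_right (card_union_le _ _) _))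
  intro a ha
  simp only [mem_filter, mem_univ, true_and, mem_union] at ha ⊢
  rcases bad_alt hR0 hRk a ha with h | h | h
  · exact Or.inl (Or.inl h)
  · exact Or.inl (Or.inr h)
  · exact Or.inr h

end Pool.Agent.Zs91
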