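import Mathlib

/-! # MP_2c7c9d_co: definitions

`s : ℕ → G` is the `k`-periodic extension of a cyclic arrangement `a : Fin k → G` of a set of `k` elements with sum
zero; vertex `u` of the closed walk is `pre s u`, step `j` leads from vertex `j` to vertex `j + 1`.

* `Dng k w s n X`: the proper nonempty subset `X` of the window `[0, n)` is dangerous: the vertex `∑ X` reached
  by the steps in `X` from the vertex `0` is equal to a vertex reached from a vertex `u` with `n ≤ u ≤ k` by
  some of the `w` steps after `u` (none of them beyond `k`).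
* `Good k w D s`: at most `D` dangerous sets for every window length `n ≤ w`, and at most one nonempty zero-sum
  subset of `[0, w)`.
* `theta A L`: the Fourier bound for the concentration of a sum of `L` random differences of elements of `A`. -/

set_option autoImplicit false

noncomputable section

namespace Pool.Agent.Zs91

open Finset

/-- The vertex `u`. -/
def pre {G : Type} [AddCommGroup G] (s : ℕ → G) (u : ℕ) : G := ∑ j ∈ range u, s j

/-- `X` is dangerous for the window `[0, n)`. -/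
def Dng {G : Type} [AddCommGroup G] (k w : ℕ) (s : ℕ → G) (n : ℕ) (X : Finset ℕ) : Prop :=
  X ⊆ range n ∧ X.Nonempty ∧ X ≠ range n ∧
    ∃ (u : ℕ) (Y : Finset ℕ), n ≤ u ∧ u ≤ k ∧ Y ⊆ Ico u (u + w) ∧ Y ⊆ range k ∧
      ∑ j ∈ X, s j = pre s u + ∑ j ∈ Y, s j

structure Good {G : Type} [AddCommGroup G] (k w D : ℕ) (s : ℕ → G) : Prop where
  few : ∀ n ≤ w, ∀ F : Finset (Finset ℕ), (∀ X ∈ F, Dng k w s n X) → F.card ≤ D
  zero : ∀ Z₁ Z₂ : Finset ℕ, Z₁ ⊆ range w → Z₂ ⊆ range w → Z₁.Nonempty → Z₂.Nonempty →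
    ∑ j ∈ Z₁, s j = 0 → ∑ j ∈ Z₂, s j = 0 → Z₁ = Z₂

/-- Periodic extension. -/
def per {G : Type} {k : ℕ} [NeZero k] (a : Fin k → G) (j : ℕ) : G :=
  a ⟨j % k, Nat.mod_lt _ (NeZero.pos k)⟩

/-- Periodic extension of an arrangement of `A`. -/
def sq {G : Type} {k : ℕ} [NeZero k] {A : Finset G} (a : Fin k ≃ {x // x ∈ A}) : ℕ → G :=
  per fun i => (a i : G)

/-- The Fourier bound. -/
def theta {G : Type} [AddCommGroup G] [Fintype G] (A : Finset G) (L : ℕ) : ℝ :=
  (∑ χ : AddChar G ℂ,
    ((∑ x ∈ A, ∑ y ∈ A, ‖1 + χ (x - y)‖ / 2) / (A.card : ℝ) ^ 2) ^ L) / Fintype.card G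

/-- The family `X 0, ..., X b` is triangular with pivots `p 0, ..., p (b - 1)`. -/
def Tri (b : ℕ) (X : Fin (b + 1) → Finset ℕ) (p : Fin b → ℕ) : Prop :=
  ∀ i : Fin b, ¬ (p i ∈ X i.castSucc ↔ p i ∈ X (Fin.last b)) ∧
    ∀ j : Fin (b + 1), i.castSucc < j → (p i ∈ X j ↔ p i ∈ X (Fin.last b))

section basic

variable {G : Type} [AddCommGroup G] {k : ℕ}

theorem pre_zero (s : ℕ → G) : pre s 0 = 0 := by simp [pre]

theorem pre_succ (s : ℕ → G) (u : ℕ) : pre s (u + 1) = pre s u + s u := by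
  simp [pre, sum_range_succ]

theorem pre_add (s : ℕ → G) (u v : ℕ) : pre s (u + v) = pre s u + pre (fun j => s (u + j)) v := by
  simp [pre, sum_range_add]

theorem per_add [NeZero k] (a : Fin k → G) (j : ℕ) : per a (j + k) = per a j := by
  simp [per]

theorem per_lt [NeZero k] (a : Fin k → G) {j : ℕ} (h : j < k) : per a j = a ⟨j, h⟩ := by
  simp [per, Nat.mod_eq_of_lt h]

theorem pre_per [NeZero k] (a : Fin k → G) : pre (per a) k = ∑ i, a i := by
  rw [pre, Finset.sum_range]
  exact Finset.sum_congr rfl fun i _ => per_lt a i.2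

end basic

end Pool.Agent.Zs91
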