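import Mathlib

/-! # MP_2c7c9d_co: a lower bound for the descending factorial

* `desc`: `2 k * k.descFactorial N ≥ (2 k - N ^ 2) * k ^ N` by induction on `N` (in `ℤ` or `ℝ`:
  `(k - N) (2 k - N²) = k (2 k - (N + 1)²) + N³ + k`; `k.descFactorial (N + 1) = (k - N) * k.descFactorial N`),
  and `k ! = k.descFactorial N * (k - N) !` (`Nat.factorial_mul_descFactorial`); with `N ^ 2 ≤ k`: `2 k - N² ≥ k`, so
  `k ^ N ≤ 2 * k.descFactorial N` (for `k = 0` also `N = 0`). -/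

set_option autoImplicit false

noncomputable section

namespace Pool.Agent.Zs91

open Nat

theorem desc_aux (k : ℕ) : ∀ N : ℕ, N ≤ k →
    (2 * (k : ℤ) - (N : ℤ) ^ 2) * (k : ℤ) ^ N ≤ 2 * k * (k.descFactorial N : ℤ) := by
  intro N
  induction N with
  | zero => intro _; simp
  | succ N ih =>
    intro hN
    have h1 := ih (by omega)
    rw [Nat.descFactorial_succ]
    push_cast [Nat.cast_sub (show N ≤ k by omega)]
    have h2 : (0 : ℤ) ≤ (k : ℤ) - N := by
      have : (N : ℤ) + 1 ≤ k := by exact_mod_cast hN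
      linarith
    have h3 := mul_le_mul_of_nonneg_left h1 h2
    have h4 : (2 * (k : ℤ) - ((N : ℤ) + 1) ^ 2) * (k : ℤ) ^ (N + 1) =
        ((k : ℤ) - N) * ((2 * (k : ℤ) - (N : ℤ) ^ 2) * (k : ℤ) ^ N) -
          ((N : ℤ) ^ 3 + k) * (k : ℤ) ^ N := by ring
    have h5 : (0 : ℤ) ≤ ((N : ℤ) ^ 3 + k) * (k : ℤ) ^ N := by positivity
    rw [h4]
    linarith

theorem desc {k N : ℕ} (h : N ^ 2 ≤ k) : k ^ N * (k - N)! ≤ 2 * k ! := by
  have hNk : N ≤ k := le_trans (by nlinarith [Nat.zero_le N]) h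
  rcases Nat.eq_zero_or_pos k with hk | hk
  · subst hk
    have : N = 0 := by omega
    subst this
    simp
  have h1 := desc_aux k N hNk
  have h2 : (N : ℤ) ^ 2 ≤ k := by exact_mod_cast h
  have h3 : (k : ℤ) * (k : ℤ) ^ N ≤ (2 * (k : ℤ) - (N : ℤ) ^ 2) * (k : ℤ) ^ N :=
    mul_le_mul_of_nonneg_right (by linarith) (by positivity)
  have h4 : (k : ℤ) * (k : ℤ) ^ N ≤ k * (2 * (k.descFactorial N : ℤ)) := by linarith
  have h5 : (k : ℤ) ^ N ≤ 2 * (k.descFactorial N : ℤ) :=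
    le_of_mul_le_mul_left h4 (by exact_mod_cast hk)
  have h6 : k ^ N ≤ 2 * k.descFactorial N := by exact_mod_cast h5
  calc k ^ N * (k - N)! ≤ (2 * k.descFactorial N) * (k - N)! := Nat.mul_le_mul_right _ h6
    _ = 2 * ((k - N)! * k.descFactorial N) := by ring
    _ = 2 * k ! := by rw [Nat.factorial_mul_descFactorial hNk]

end Pool.Agent.Zs91
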