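import Pool.Agent.W_2c7c9d_h91.Defs

/-! # MP_2c7c9d_co: greedy separated subset

* `greedy`: take `C ⊆ U` of maximal cardinality among the subsets whose elements are pairwise at distance at
  least `R` (`Finset.exists_max_image` on a filter of the powerset of `U`).  If `r ≤ C.card` the elements of `C` give `f`
  (`Finset.equivFin`, or `C.orderEmbOfFin`).  Otherwise every `u ∈ U` is at distance less than `R` from some `c ∈ C`
  (`0 < R`; if `u ∈ C` take `c = u`; if `u ∉ C` then `insert u C` would be larger). -/

set_option autoImplicit false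

noncomputable section

namespace Pool.Agent.Zs91

open Finset

theorem greedy (U : Finset ℕ) (r : ℕ) {R : ℕ} (hR : 0 < R) :
    (∃ f : Fin r → ℕ, (∀ i, f i ∈ U) ∧ ∀ i j, i ≠ j → f i + R ≤ f j ∨ f j + R ≤ f i) ∨
      ∃ C : Finset ℕ, C ⊆ U ∧ C.card < r ∧ ∀ u ∈ U, ∃ c ∈ C, u < c + R ∧ c < u + R := by
  classical
  let P : Finset ℕ → Prop := fun C => ∀ x ∈ C, ∀ y ∈ C, x ≠ y → x + R ≤ y ∨ y + R ≤ x
  obtain ⟨C, hC, hmax⟩ := Finset.exists_max_image (U.powerset.filter P) Finset.card
    ⟨∅, by simp [P]⟩
  rw [mem_filter, mem_powerset] at hC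
  obtain ⟨hCU, hP⟩ := hC
  by_cases hr : r ≤ C.card
  · left
    obtain ⟨D, hDC, hD⟩ := Finset.exists_subset_card_eq hr
    let e := D.equivFinOfCardEq hD
    refine ⟨fun i => (e.symm i : ℕ), fun i => hCU (hDC (e.symm i).2), fun i j hij => ?_⟩
    apply hP _ (hDC (e.symm i).2) _ (hDC (e.symm j).2)
    intro h
    exact hij (e.symm.injective (Subtype.ext h))
  · right
    refine ⟨C, hCU, by omega, fun u hu => ?_⟩
    by_contra hcon
    push Not at hcon
    have huC : u ∉ C := fun h => by
      have := hcon u h (by omega)
      omega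
    have hins : insert u C ∈ U.powerset.filter P := by
      rw [mem_filter, mem_powerset]
      refine ⟨insert_subset hu hCU, ?_⟩
      intro x hx y hy hxy
      rw [mem_insert] at hx hy
      rcases hx with rfl | hx <;> rcases hy with rfl | hy
      · exact absurd rfl hxy
      · by_cases h : x < y + R
        · left; exact hcon y hy h
        · right; omega
      · by_cases h : y < x + R
        · right; exact hcon x hx h
        · left; omega
      · exact hP x hx y hy hxy
    have := hmax _ hins
    rw [card_insert_of_notMem huC] at this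
    omega

end Pool.Agent.Zs91
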