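import Pool.Agent.W_2c7c9d_h91.ExtA
import Pool.Agent.W_2c7c9d_h91.ExtB

/-! # MP_2c7c9d_co: extraction of separated targets or of a triangular cluster

* `extract`: choose `u X`, `Y X` for every `X ∈ F` (from `Dng`).  Let `F₀ ⊆ F` be the members with `R ≤ u X` and
  `u X + R ≤ k`, `U = F₀.image u`.  `greedy`: in the first case pick for each `f i` a member of `F₀` with this
  target (left alternative).  In the second case every `X ∈ F` lies in one of at most `r + 1` regions: (a) `u X < R`;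
  (b) `k < u X + R`; (c) for some `c ∈ C`: `u X < c + R` and `c < u X + R`.  So (pigeonhole, e.g. a map from `F` to
  `Option (Option ℕ)` with values in a set of `C.card + 2 ≤ r + 1` elements,
  `Finset.exists_le_card_fiber_of_mul_le_card_of_maps_to`) one region contains at least `64` members; the targets of
  this region are in `[c, c + 2 R]` with `c = 0`, `c = k - R`, `c = c' - R` (`c' ∈ C`) respectively;
  apply `split_tri` with `b = 6` to these members. -/

set_option autoImplicit false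

noncomputable section

namespace Pool.Agent.Zs91

open Finset

theorem extract {G : Type} [AddCommGroup G] {k w r R n : ℕ} {s : ℕ → G} (hR : 0 < R) (hRk : R ≤ k)
    (F : Finset (Finset ℕ)) (hF : ∀ X ∈ F, Dng k w s n X) (hcard : 64 * (r + 1) ≤ F.card) :
    (∃ (X : Fin r → Finset ℕ) (u : Fin r → ℕ) (Y : Fin r → Finset ℕ), (∀ i, X i ⊆ range n) ∧
      (∀ i, R ≤ u i ∧ u i + R ≤ k) ∧ (∀ i j, i ≠ j → u i + R ≤ u j ∨ u j + R ≤ u i) ∧
      (∀ i, Y i ⊆ Ico (u i) (u i + w)) ∧
      ∀ i, ∑ j ∈ X i, s j = pre s (u i) + ∑ j ∈ Y i, s j) ∨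
    ∃ (c : ℕ) (X : Fin 7 → Finset ℕ) (p : Fin 6 → ℕ) (u : Fin 7 → ℕ) (Y : Fin 7 → Finset ℕ), c ≤ k ∧
      (∀ i, X i ⊆ range n) ∧ Tri 6 X p ∧ (∀ i, c ≤ u i ∧ u i ≤ c + 2 * R ∧ n ≤ u i ∧ u i ≤ k) ∧
      (∀ i, Y i ⊆ Ico (u i) (u i + w) ∧ Y i ⊆ range k) ∧
      ∀ i, ∑ j ∈ X i, s j = pre s (u i) + ∑ j ∈ Y i, s j := by
  classical
  choose! u Y hu using fun X hX => (hF X hX).2.2.2
  let F₀ := F.filter (fun X => R ≤ u X ∧ u X + R ≤ k)
  rcases greedy (F₀.image u) r hR with ⟨f, hfU, hf⟩ | ⟨C, hCU, hCr, hC⟩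
  · left
    have h1 : ∀ i, ∃ X ∈ F₀, u X = f i := fun i => by simpa only [mem_image] using hfU i
    choose X hX hXf using h1
    have hXF : ∀ i, X i ∈ F := fun i => (mem_filter.1 (hX i)).1
    refine ⟨X, f, fun i => Y (X i), fun i => (hF _ (hXF i)).1, fun i => ?_, hf, fun i => ?_, fun i => ?_⟩
    · rw [← hXf i]; exact (mem_filter.1 (hX i)).2
    · rw [← hXf i]; exact (hu _ (hXF i)).2.2.1
    · rw [← hXf i]; exact (hu _ (hXF i)).2.2.2.2
  · right
    let T : Finset ℕ := insert 0 (insert (k - R) (C.image (fun c => c - R)))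
    have hTcard : T.card ≤ r + 1 := by
      have h1 := Finset.card_insert_le 0 (insert (k - R) (C.image (fun c => c - R)))
      have h2 := Finset.card_insert_le (k - R) (C.image (fun c => c - R))
      have h3 : (C.image (fun c => c - R)).card ≤ C.card := Finset.card_image_le
      change (insert 0 (insert (k - R) (C.image (fun c => c - R)))).card ≤ r + 1
      omega
    have hCmem : ∀ c ∈ C, R ≤ c ∧ c + R ≤ k := by
      intro c hc
      obtain ⟨X, hX, rfl⟩ := mem_image.1 (hCU hc)
      exact (mem_filter.1 hX).2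
    have hTk : ∀ c ∈ T, c ≤ k := by
      intro c hc
      simp only [T, mem_insert, mem_image] at hc
      rcases hc with rfl | rfl | ⟨c', hc', rfl⟩
      · exact Nat.zero_le _
      · exact Nat.sub_le _ _
      · have := hCmem c' hc'; omega
    have hcc : ∀ X, ∃ c, X ∈ F → (c ∈ T ∧ c ≤ u X ∧ u X ≤ c + 2 * R) := by
      intro X
      by_cases hXF : X ∈ F
      · have hk := (hu X hXF).2.1
        by_cases ha : u X < R
        · exact ⟨0, fun _ => ⟨by simp [T], Nat.zero_le _, by omega⟩⟩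
        · by_cases hb : k < u X + R
          · exact ⟨k - R, fun _ => ⟨by simp [T], by omega, by omega⟩⟩
          · obtain ⟨c, hc, h1, h2⟩ := hC (u X) (mem_image_of_mem u (mem_filter.2 ⟨hXF, by omega, by omega⟩))
            have h3 := hCmem c hc
            refine ⟨c - R, fun _ => ⟨?_, by omega, by omega⟩⟩
            simp only [T, mem_insert, mem_image]
            exact Or.inr (Or.inr ⟨c, hc, rfl⟩)
      · exact ⟨0, fun h => absurd h hXF⟩
    choose cc hcc using hcc
    have hcardT : T.card * 64 ≤ F.card := by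
      calc T.card * 64 ≤ (r + 1) * 64 := Nat.mul_le_mul_right _ hTcard
        _ = 64 * (r + 1) := Nat.mul_comm _ _
        _ ≤ F.card := hcard
    obtain ⟨c, hcT, hfib⟩ := Finset.exists_le_card_fiber_of_mul_le_card_of_maps_to (s := F) (t := T) (f := cc)
      (fun X hX => (hcc X hX).1) ⟨0, by simp [T]⟩ hcardT
    obtain ⟨X, p, hX, hT⟩ := split_tri 6 (F.filter (fun X => cc X = c)) (by simpa using hfib)
    have hXF : ∀ i, X i ∈ F := fun i => (mem_filter.1 (hX i)).1
    have hXc : ∀ i, cc (X i) = c := fun i => (mem_filter.1 (hX i)).2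
    refine ⟨c, X, p, fun i => u (X i), fun i => Y (X i), hTk c hcT, fun i => (hF _ (hXF i)).1, hT,
      fun i => ?_, fun i => ?_, fun i => ?_⟩
    · have h := (hcc _ (hXF i)).2
      rw [hXc i] at h
      exact ⟨h.1, h.2, (hu _ (hXF i)).1, (hu _ (hXF i)).2.1⟩
    · exact ⟨(hu _ (hXF i)).2.2.1, (hu _ (hXF i)).2.2.2.1⟩
    · exact (hu _ (hXF i)).2.2.2.2


end Pool.Agent.Zs91
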