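import Pool.Agent.W_2c7c9d_h91.Defs

/-! # MP_2c7c9d_co: extraction of a triangular family

* `split_tri`: by induction on `b`.  `b = 0`: any member of `F`.  Step: `2 ^ (b + 1) ≤ F.card`, so there are two
  different members, and some `q` that is in one and not in the other.  Let `F₁`, `F₂` be the members that
  contain / do not contain `q`; both are nonempty; the larger one, `F'`, has at least `2 ^ b` members: take `X'`, `p'`
  for it, and a member `X₀` of the other one; `X = Fin.cons X₀ X'`, `p = Fin.cons q p'`.  The last set of the family is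
  in `F'`, `X₀` is not, so they differ at `q`; all the later sets are in `F'` and agree with the last one at `q`. -/

set_option autoImplicit false

noncomputable section

namespace Pool.Agent.Zs91

open Finset

/-- Step: members of `F'` agree at `q`, `X₀` does not. -/
theorem step_tri (b : ℕ) (F' : Finset (Finset ℕ)) (q : ℕ) (X₀ : Finset ℕ)
    (hq : ∀ X ∈ F', ¬ (q ∈ X₀ ↔ q ∈ X))
    (ih : ∃ (X : Fin (b + 1) → Finset ℕ) (p : Fin b → ℕ), (∀ i, X i ∈ F') ∧ Tri b X p) :
    ∃ (X : Fin (b + 2) → Finset ℕ) (p : Fin (b + 1) → ℕ), (∀ i, X i = X₀ ∨ X i ∈ F') ∧ Tri (b + 1) X p := by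
  obtain ⟨X', p', hX', hT⟩ := ih
  refine ⟨Fin.cons X₀ X', Fin.cons q p', ?_, ?_⟩
  · intro i
    refine Fin.cases ?_ (fun j => ?_) i
    · left; rfl
    · right; simpa using hX' j
  · have hlast : (Fin.cons X₀ X' : Fin (b + 2) → Finset ℕ) (Fin.last (b + 1)) = X' (Fin.last b) := by
      rw [← Fin.succ_last, Fin.cons_succ]
    intro i
    rw [hlast]
    refine Fin.cases ?_ (fun i' => ?_) i
    · refine ⟨?_, ?_⟩
      · simpa using hq _ (hX' (Fin.last b))
      · intro j hj
        refine Fin.cases (fun h0 => ?_) (fun j' _ => ?_) j hj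
        · exact absurd h0 (by simp)
        · rw [Fin.cons_succ, Fin.cons_zero]
          have h1 := hq _ (hX' (Fin.last b))
          have h2 := hq _ (hX' j')
          tauto
    · have h := hT i'
      refine ⟨?_, ?_⟩
      · have h1 : (Fin.castSucc (Fin.succ i') : Fin (b + 2)) = Fin.succ (Fin.castSucc i') := by
          simp
        rw [h1, Fin.cons_succ, Fin.cons_succ]
        exact h.1
      · intro j hj
        refine Fin.cases (fun h0 => ?_) (fun j' h' => ?_) j hj
        · exact absurd h0 (by simp)
        · rw [Fin.cons_succ, Fin.cons_succ]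
          apply h.2
          have h1 : (Fin.castSucc (Fin.succ i') : Fin (b + 2)) = Fin.succ (Fin.castSucc i') := by
            simp
          rw [h1] at h'
          exact Fin.succ_lt_succ_iff.1 h'

theorem split_tri (b : ℕ) (F : Finset (Finset ℕ)) (h : 2 ^ b ≤ F.card) :
    ∃ (X : Fin (b + 1) → Finset ℕ) (p : Fin b → ℕ), (∀ i, X i ∈ F) ∧ Tri b X p := by
  classical
  induction b generalizing F with
  | zero =>
    have : F.Nonempty := by
      rw [← Finset.card_pos]; simpa using h
    obtain ⟨X, hX⟩ := this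
    exact ⟨fun _ => X, Fin.elim0, fun _ => hX, fun i => i.elim0⟩
  | succ b ih =>
    have h1 : 1 < F.card := by
      have : 2 ^ (b + 1) = 2 * 2 ^ b := by ring
      have : 0 < 2 ^ b := by positivity
      omega
    obtain ⟨A, hA, B, hB, hne⟩ := Finset.one_lt_card.1 h1
    have : ∃ q, ¬ (q ∈ A ↔ q ∈ B) := by
      by_contra hcon
      push Not at hcon
      exact hne (Finset.ext hcon)
    obtain ⟨q, hq⟩ := this
    have hsum := Finset.card_filter_add_card_filter_not (s := F) (fun X => q ∈ X)
    have hpow : 2 ^ (b + 1) = 2 * 2 ^ b := by ring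
    have hn1 : ∃ X ∈ F, q ∈ X := by
      by_cases hqa : q ∈ A
      · exact ⟨A, hA, hqa⟩
      · exact ⟨B, hB, by tauto⟩
    have hn2 : ∃ X ∈ F, q ∉ X := by
      by_cases hqa : q ∈ A
      · exact ⟨B, hB, by tauto⟩
      · exact ⟨A, hA, hqa⟩
    by_cases hc : 2 ^ b ≤ (F.filter (fun X => q ∈ X)).card
    · obtain ⟨X₀, hX₀, hqX₀⟩ := hn2
      obtain ⟨X, p, hX, hT⟩ := step_tri b (F.filter (fun X => q ∈ X)) q X₀
        (by
          intro X hX
          rw [mem_filter] at hX
          tauto) (ih _ hc)
      refine ⟨X, p, ?_, hT⟩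
      intro i
      rcases hX i with h | h
      · rw [h]; exact hX₀
      · exact (mem_filter.1 h).1
    · have hc' : 2 ^ b ≤ (F.filter (fun X => ¬ q ∈ X)).card := by omega
      obtain ⟨X₀, hX₀, hqX₀⟩ := hn1
      obtain ⟨X, p, hX, hT⟩ := step_tri b (F.filter (fun X => ¬ q ∈ X)) q X₀
        (by
          intro X hX
          rw [mem_filter] at hX
          tauto) (ih _ hc')
      refine ⟨X, p, ?_, hT⟩
      intro i
      rcases hX i with h | h
      · rw [h]; exact hX₀
      · exact (mem_filter.1 h).1

end Pool.Agent.Zs91
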