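import Pool.Agent.W_2c7c9d_h91.Lvl

/-! # MP_2c7c9d_co: the Fourier bound -/

set_option autoImplicit false

noncomputable section

namespace Pool.Agent.Zs91

open Finset

variable {G : Type} [AddCommGroup G] [Fintype G]

open Classical in
theorem theta_le (A : Finset G) (hA : A.Nonempty) (L : ℕ) {t : ℕ} (ht : 0 < t) {η M : ℝ} (hη : 0 < η)
    (ht1 : (3 * t + 1) ^ 2 * (2 * η) ≤ 1) (hM : 0 < M)
    (hH : ∀ (H : AddSubgroup G) (x : G),
      ((A.filter (fun a => a - x ∉ H)).card : ℝ) ≤ 9 * t ^ 2 * η * A.card → M ≤ Nat.card H) :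
    theta A L ≤ 2 / (t * A.card) + 1 / M + (√(1 - η / 2)) ^ L := by
  have ht' : (1 : ℝ) ≤ t := by exact_mod_cast ht
  have hη1 : η ≤ 1 := by nlinarith [mul_nonneg (sub_nonneg.2 ht') hη.le, hη]
  have h1 := theta_split A hA L hη hη1 rfl
  have h2 := level A hA ht hη rfl ht1 hM hH
  linarith

end Pool.Agent.Zs91
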