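import Pool.Agent.W_2c7c9d_h91.ChnE
import Pool.Agent.W_2c7c9d_h91.ChnD

/-! # MP_2c7c9d_co: re-ordering a good arrangement: conclusion

Throughout `s` has period `k`, `pre s k = 0`, `m = D + 3`, `w = 4 m`, and all rotations of `s` are `Good k w D`.
`pre (fun j => s (v + j)) x` is the difference of the vertices `v + x` and `v` (`pre_add`).

* `finish`: `clean_exists` gives a clean vertex `v₀`; replace `s` by its rotation (`rt (rt s v₀) v = rt s (v₀ + v)`; the
  multiset of its values over a period is the same, `map_rot`) and use `chain_exists` at `0`, `chain_perm`, `chain_distinct`;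
  `l = L.map (rt s v₀)`. -/

set_option autoImplicit false

noncomputable section

namespace Pool.Agent.Zs91

open Finset

variable {G : Type} [AddCommGroup G] {k D m w : ℕ} {s : ℕ → G}

theorem finish (hper : ∀ j, s (j + k) = s j) (h0 : ∀ j, s j ≠ 0) (hsum : pre s k = 0)
    (hm : m = D + 3) (hk : 8 * m ≤ k) (hgood : ∀ v, Good k (4 * m) D (rt s v)) :
    ∃ l : List G, (l : Multiset G) = (Multiset.range k).map s ∧
      ∀ t t', t < t' → t' < k → (l.take t).sum ≠ (l.take t').sum := by
  obtain ⟨v₀, hx⟩ : ∃ v₀, Clean k m s v₀ := by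
    obtain ⟨x, -, -, hx⟩ := clean_exists hper hm hk hgood 0
    exact ⟨_, hx⟩
  have hper' : ∀ j, rt s v₀ (j + k) = rt s v₀ j := fun j => by
    change s (v₀ + (j + k)) = s (v₀ + j)
    rw [← add_assoc, hper]
  have hrt : ∀ v, rt (rt s v₀) v = rt s (v₀ + v) := fun v => by
    funext j
    change s (v₀ + (v + j)) = s (v₀ + v + j)
    rw [add_assoc]
  have hgood' : ∀ v, Good k (4 * m) D (rt (rt s v₀) v) := fun v => by
    rw [hrt]
    exact hgood _
  have hc : Clean k m (rt s v₀) 0 := fun y h1 h2 => by
    rw [hrt, add_zero]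
    exact hx y h1 h2
  obtain ⟨L, hL⟩ := chain_exists hper' (fun j => h0 _) hm hk hgood' 0 (by omega) hc
  have hp := (chain_perm hL).2
  rw [Nat.sub_zero, ← List.range_eq_range'] at hp
  refine ⟨L.map (rt s v₀), ?_, fun t t' h1 h2 => ?_⟩
  · rw [← map_rot hper v₀, ← Multiset.map_coe, Multiset.coe_eq_coe.2 hp]
    rfl
  · rw [← List.map_take, ← List.map_take]
    exact chain_distinct hper' (pre_rot hper hsum v₀) hk hL h1 h2

end Pool.Agent.Zs91
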