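import Pool.Agent.W_2c7c9d_h91.Vn

/-! # MP_2c7c9d_co: groups of characters

* `perp_card`: `∑_{χ ∈ K} ∑_{g} χ g = |G|` (only `χ = 1` contributes, `AddChar.sum_eq_ite`) and
  `= ∑_g ∑_{χ ∈ K} χ g = |perp K| |K|` (if `χ₀ g ≠ 1` for some `χ₀ ∈ K` the sum over `K` is `0`: multiply by `χ₀`).
* `coset`: if `vn χ ≤ ρ` for all `χ ∈ K` then `hs χ ^ 2 ≥ k² - ρ² / 2` (`vn_sq`); average over `χ ∈ K`
  (`∑_{χ ∈ K} hs χ ^ 2 = ∑_{x,y} ∑_{χ ∈ K} χ (x - y) = |K| #{(x, y) | x - y ∈ perp K}`):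
  `#{(x, y) ∈ A² | x - y ∈ perp K} ≥ k² - ρ² / 2`, so some `y ∈ A` has
  `k * #{x ∈ A | x - y ∉ perp K} ≤ ρ² / 2` (`Finset.exists_le_of_sum_le` or similar). -/

set_option autoImplicit false

noncomputable section

namespace Pool.Agent.Zs91

open Finset

variable {G : Type} [AddCommGroup G] [Fintype G]

/-- The common kernel of a group of characters. -/
def perp (K : Subgroup (AddChar G ℂ)) : AddSubgroup G where
  carrier := {g | ∀ χ ∈ K, χ g = 1}
  zero_mem' := fun χ _ => AddChar.map_zero_eq_one χ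
  add_mem' := fun {a b} ha hb χ hχ => by
    rw [AddChar.map_add_eq_mul, ha χ hχ, hb χ hχ, mul_one]
  neg_mem' := fun {a} ha χ hχ => by
    rw [AddChar.map_neg_eq_inv, ha χ hχ, inv_one]

private theorem inner_sum (K : Subgroup (AddChar G ℂ)) [Fintype K] (g : G) [Decidable (g ∈ perp K)] :
    ∑ χ : K, (χ : AddChar G ℂ) g = if g ∈ perp K then (Fintype.card K : ℂ) else 0 := by
  split_ifs with h
  · have h5 : ∀ χ : K, (χ : AddChar G ℂ) g = 1 := fun χ => h χ χ.2
    simp [h5]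
  · have h' : ∃ χ₀ ∈ K, χ₀ g ≠ 1 := by
      by_contra hc
      push Not at hc
      exact h hc
    obtain ⟨χ₀, h0, h1⟩ := h'
    have h2 : χ₀ g * ∑ χ : K, (χ : AddChar G ℂ) g = ∑ χ : K, (χ : AddChar G ℂ) g := by
      rw [Finset.mul_sum]
      exact Fintype.sum_equiv (Equiv.mulLeft (⟨χ₀, h0⟩ : K)) _ _ (fun χ => by simp [AddChar.mul_apply])
    have h3 : (χ₀ g - 1) * ∑ χ : K, (χ : AddChar G ℂ) g = 0 := by
      rw [sub_mul, h2, one_mul, sub_self]
    rcases mul_eq_zero.1 h3 with h4 | h4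
    · exact absurd (sub_eq_zero.1 h4) h1
    · exact h4

private theorem outer_sum (K : Subgroup (AddChar G ℂ)) [Fintype K] :
    ∑ χ : K, ∑ g : G, (χ : AddChar G ℂ) g = (Fintype.card G : ℂ) := by
  classical
  have h : ∀ χ : K, ∑ g : G, (χ : AddChar G ℂ) g = if χ = 1 then (Fintype.card G : ℂ) else 0 := by
    intro χ
    rw [AddChar.sum_eq_ite]
    have : ((χ : AddChar G ℂ) = 0) ↔ χ = 1 := by
      constructor
      · intro h
        exact Subtype.ext h
      · intro h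
        rw [h]
        rfl
    simp only [this]
  rw [Finset.sum_congr rfl fun χ _ => h χ]
  simp

theorem perp_card (K : Subgroup (AddChar G ℂ)) : Nat.card (perp K) * Nat.card K = Fintype.card G := by
  classical
  have : Fintype K := Fintype.ofFinite K
  have h1 := outer_sum K
  rw [Finset.sum_comm, Finset.sum_congr rfl fun g _ => inner_sum K g, Finset.sum_ite,
    Finset.sum_const_zero, add_zero, Finset.sum_const, nsmul_eq_mul] at h1
  have h2 : (univ.filter fun g : G => g ∈ perp K).card = Nat.card (perp K) := by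
    rw [Nat.card_eq_fintype_card, Fintype.card_subtype]
  rw [h2, ← Nat.card_eq_fintype_card (α := K)] at h1
  exact_mod_cast h1

private theorem hs_sq (A : Finset G) (χ : AddChar G ℂ) :
    ((hs A χ ^ 2 : ℝ) : ℂ) = ∑ x ∈ A, ∑ y ∈ A, χ (x - y) := by
  rw [hs, Complex.ofReal_pow, ← Complex.mul_conj', map_sum, Finset.sum_mul_sum]
  refine Finset.sum_congr rfl fun x _ => Finset.sum_congr rfl fun y _ => ?_
  rw [sub_eq_add_neg, AddChar.map_add_eq_mul, AddChar.map_neg_eq_conj]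

open Classical in
theorem coset (A : Finset G) (hA : A.Nonempty) (K : Subgroup (AddChar G ℂ)) {ρ : ℝ}
    (hK : ∀ χ ∈ K, vn A χ ≤ ρ) :
    ∃ x ∈ A, ((A.filter (fun a => a - x ∉ perp K)).card : ℝ) * A.card ≤ ρ ^ 2 / 2 := by
  have : Fintype K := Fintype.ofFinite K
  have hkey : ∀ χ : K, (A.card : ℝ) ^ 2 - ρ ^ 2 / 2 ≤ hs A χ ^ 2 := by
    intro χ
    have h1 := vn_sq A (χ : AddChar G ℂ)
    have h2 : vn A (χ : AddChar G ℂ) ^ 2 ≤ ρ ^ 2 :=
      pow_le_pow_left₀ (vn_nonneg A _) (hK χ.1 χ.2) 2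
    linarith
  have hcard : 0 < (Fintype.card K : ℝ) := by
    exact_mod_cast Fintype.card_pos
  -- the average
  have hav : ((∑ χ : K, hs A χ ^ 2 : ℝ) : ℂ) =
      ((Fintype.card K : ℝ) * ∑ x ∈ A, ((A.filter (fun a => a - x ∈ perp K)).card : ℝ) : ℝ) := by
    push_cast
    have h3 : ∀ χ : K, ((hs A χ : ℝ) : ℂ) ^ 2 = ∑ x ∈ A, ∑ y ∈ A, (χ : AddChar G ℂ) (x - y) := by
      intro χ
      rw [← hs_sq]
      push_cast
      rfl
    rw [Finset.sum_congr rfl fun χ _ => h3 χ, Finset.sum_comm, Finset.mul_sum]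
    rw [Finset.sum_congr rfl fun x _ => Finset.sum_comm]
    rw [Finset.sum_comm]
    refine Finset.sum_congr rfl fun y _ => ?_
    rw [Finset.sum_congr rfl fun x _ => inner_sum K (x - y), ← Finset.sum_filter, Finset.sum_const,
      nsmul_eq_mul, mul_comm]
  have hav' : (∑ χ : K, hs A χ ^ 2 : ℝ) =
      (Fintype.card K : ℝ) * ∑ x ∈ A, ((A.filter (fun a => a - x ∈ perp K)).card : ℝ) := by
    exact_mod_cast hav
  have hlow : (Fintype.card K : ℝ) * ((A.card : ℝ) ^ 2 - ρ ^ 2 / 2) ≤ ∑ χ : K, hs A χ ^ 2 := by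
    have := Finset.sum_le_sum (s := (univ : Finset K)) fun χ _ => hkey χ
    rw [Finset.sum_const, nsmul_eq_mul, Finset.card_univ] at this
    exact this
  rw [hav'] at hlow
  have hlow' := le_of_mul_le_mul_left hlow hcard
  -- complement
  have hsplit : ∀ x ∈ A, ((A.filter (fun a => a - x ∈ perp K)).card : ℝ) +
      ((A.filter (fun a => a - x ∉ perp K)).card : ℝ) = A.card := by
    intro x _
    exact_mod_cast Finset.card_filter_add_card_filter_not (s := A) (fun a => a - x ∈ perp K)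
  have hsum : (∑ x ∈ A, ((A.filter (fun a => a - x ∉ perp K)).card : ℝ)) ≤ ρ ^ 2 / 2 := by
    have h4 := Finset.sum_congr (rfl : A = A) hsplit
    rw [Finset.sum_add_distrib, Finset.sum_const, nsmul_eq_mul] at h4
    nlinarith [h4, hlow']
  obtain ⟨x, hx, hle⟩ := Finset.exists_le_of_sum_le (s := A) hA
    (f := fun x => ((A.filter (fun a => a - x ∉ perp K)).card : ℝ) * A.card)
    (g := fun _ => ρ ^ 2 / 2) (by
      rw [Finset.sum_const, nsmul_eq_mul, ← Finset.sum_mul, mul_comm]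
      exact mul_le_mul_of_nonneg_left hsum (Nat.cast_nonneg _))
  exact ⟨x, hx, hle⟩

end Pool.Agent.Zs91
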