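import Pool.Agent.W_2c7c9d_h91.Tsp
import Pool.Agent.W_2c7c9d_h91.Prp

/-! # MP_2c7c9d_co: the level set of `vn`

* `level`: `Λ = {χ | vn χ ≤ ρ}`, `K = Subgroup.closure Λ`, `k = A.card`.  Case 1: for some `1 ≤ i ≤ t` no `χ ∈ K` has
  `(3 i - 1) ρ < vn χ ≤ 3 i ρ`; then `vn ≤ (3 i - 1) ρ ≤ 3 t ρ` on `K` (`Subgroup.closure_induction_right` or similar, multiply
  by one element of `Λ` or its inverse at a time: `vn_mul`, `vn_inv`, `vn_one`), `coset` with `3 t ρ` gives `x` with
  `#{a ∈ A | a - x ∉ perp K} ≤ 9 t² η k`, so `M ≤ |perp K|` and `|Λ| ≤ |K| = |G| / |perp K| ≤ |G| / M` (`perp_card`).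
  Case 2: choose `g i ∈ K`, `1 ≤ i ≤ t`, with `(3 i - 1) ρ < vn (g i) ≤ 3 i ρ`; the sets `g i Λ` are disjoint subsets of
  `{vn ≤ (3 t + 1) ρ} ⊆ {vn ≤ k}` (on `g i Λ`: `(3 i - 2) ρ < vn ≤ (3 i + 1) ρ`), so `t |Λ| ≤ 2 |G| / k` (`few_big`). -/

set_option autoImplicit false

noncomputable section

namespace Pool.Agent.Zs91

open Finset

variable {G : Type} [AddCommGroup G] [Fintype G]

open Classical in
theorem level (A : Finset G) (hA : A.Nonempty) {t : ℕ} (ht : 0 < t) {η ρ M : ℝ} (hη : 0 < η)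
    (hρ : ρ = A.card * √(2 * η)) (ht1 : (3 * t + 1) ^ 2 * (2 * η) ≤ 1) (hM : 0 < M)
    (hH : ∀ (H : AddSubgroup G) (x : G),
      ((A.filter (fun a => a - x ∉ H)).card : ℝ) ≤ 9 * t ^ 2 * η * A.card → M ≤ Nat.card H) :
    ((univ.filter (fun χ : AddChar G ℂ => vn A χ ≤ ρ)).card : ℝ) / Fintype.card G ≤
      2 / (t * A.card) + 1 / M := by
  have hk : (0 : ℝ) < A.card := by exact_mod_cast hA.card_pos
  have hG : (0 : ℝ) < Fintype.card G := by exact_mod_cast Fintype.card_pos
  have htR : (0 : ℝ) < t := by exact_mod_cast ht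
  have hs0 : 0 < √(2 * η) := Real.sqrt_pos.2 (by positivity)
  have hρ0 : 0 < ρ := by rw [hρ]; positivity
  have hρ2 : ρ ^ 2 = 2 * η * (A.card : ℝ) ^ 2 := by
    rw [hρ, mul_pow, Real.sq_sqrt (by positivity)]; ring
  have hρk : (3 * t + 1) * ρ ≤ A.card := by
    have h1 : ((3 * t + 1) * ρ) ^ 2 ≤ (A.card : ℝ) ^ 2 := by
      rw [mul_pow, hρ2]
      nlinarith [mul_le_mul_of_nonneg_right ht1 (sq_nonneg (A.card : ℝ))]
    exact le_of_sq_le_sq h1 hk.le
  set Λ : Finset (AddChar G ℂ) := univ.filter (fun χ : AddChar G ℂ => vn A χ ≤ ρ) with hΛ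
  set K : Subgroup (AddChar G ℂ) := Subgroup.closure (Λ : Set (AddChar G ℂ)) with hK
  have hmem : ∀ χ, χ ∈ Λ ↔ vn A χ ≤ ρ := by intro χ; simp [hΛ]
  have hΛK : ∀ χ ∈ Λ, χ ∈ K := fun χ hχ => Subgroup.subset_closure hχ
  by_cases hcase : ∃ i : ℕ, 1 ≤ i ∧ i ≤ t ∧ ∀ χ ∈ K, ¬ ((3 * i - 1) * ρ < vn A χ ∧ vn A χ ≤ 3 * i * ρ)
  · obtain ⟨i, hi1, hit, hi⟩ := hcase
    have hi1R : (1 : ℝ) ≤ i := by exact_mod_cast hi1
    have hitR : (i : ℝ) ≤ t := by exact_mod_cast hit
    have key : ∀ χ ∈ K, vn A χ ≤ (3 * i - 1) * ρ := by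
      intro χ hχ
      refine Subgroup.closure_induction_right (p := fun χ _ => vn A χ ≤ (3 * i - 1) * ρ) ?_ ?_ ?_ hχ
      · rw [vn_one]; nlinarith
      · intro x hx y hy hp
        have h1 : vn A (x * y) ≤ 3 * i * ρ := by
          have := vn_mul A x y
          have h2 := (hmem y).1 hy
          linarith
        by_contra hc
        exact hi _ (K.mul_mem hx (hΛK y hy)) ⟨lt_of_not_ge hc, h1⟩
      · intro x hx y hy hp
        have h1 : vn A (x * y⁻¹) ≤ 3 * i * ρ := by
          have := vn_mul A x y⁻¹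
          rw [vn_inv] at this
          have h2 := (hmem y).1 hy
          linarith
        by_contra hc
        exact hi _ (K.mul_mem hx (K.inv_mem (hΛK y hy))) ⟨lt_of_not_ge hc, h1⟩
    have key2 : ∀ χ ∈ K, vn A χ ≤ 3 * t * ρ := by
      intro χ hχ
      refine (key χ hχ).trans ?_
      nlinarith
    obtain ⟨x, hxA, hx⟩ := coset A hA K key2
    have hMle : M ≤ Nat.card (perp K) := by
      refine hH (perp K) x ?_
      have h3 : (3 * t * ρ) ^ 2 / 2 = (9 * t ^ 2 * η * A.card) * A.card := by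
        rw [mul_pow, hρ2]; ring
      rw [h3] at hx
      exact le_of_mul_le_mul_right hx hk
    have hcardK : (Λ.card : ℝ) ≤ Nat.card K := by
      have : Λ.card ≤ Nat.card K := by
        rw [← Nat.card_eq_finsetCard Λ]
        exact Nat.card_le_card_of_injective (fun χ : Λ => (⟨χ.1, hΛK χ.1 χ.2⟩ : K))
          fun a b hab => Subtype.ext (congrArg (fun z : K => (z : AddChar G ℂ)) hab)
      exact_mod_cast this
    have hpc : (Nat.card (perp K) : ℝ) * Nat.card K = Fintype.card G := by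
      exact_mod_cast perp_card K
    have h4 : (Λ.card : ℝ) / Fintype.card G ≤ 1 / M := by
      rw [div_le_div_iff₀ hG hM, one_mul, ← hpc]
      have : (0 : ℝ) ≤ Nat.card K := by positivity
      have h5 : (Λ.card : ℝ) * M ≤ Nat.card K * Nat.card (perp K) :=
        mul_le_mul hcardK hMle hM.le this
      linarith
    have : (0 : ℝ) ≤ 2 / (t * A.card) := by positivity
    linarith
  · push Not at hcase
    have hcase' : ∀ i : ℕ, ∃ g : AddChar G ℂ, 1 ≤ i → i ≤ t →
        ((3 * i - 1) * ρ < vn A g ∧ vn A g ≤ 3 * i * ρ) := by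
      intro i
      by_cases h : 1 ≤ i ∧ i ≤ t
      · obtain ⟨g, _, hg⟩ := hcase i h.1 h.2
        exact ⟨g, fun _ _ => hg⟩
      · exact ⟨1, fun h1 h2 => absurd ⟨h1, h2⟩ h⟩
    choose g hg using hcase'
    have hinj : (Finset.Icc 1 t ×ˢ Λ).card ≤
        (univ.filter (fun χ : AddChar G ℂ => vn A χ ≤ A.card)).card := by
      refine Finset.card_le_card_of_injOn (fun p => g p.1 * p.2) ?_ ?_
      · rintro ⟨i, χ⟩ hp
        simp only [Finset.coe_product, Set.mem_prod, Finset.mem_coe, Finset.mem_Icc, hmem] at hp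
        obtain ⟨⟨h1, h2⟩, h3⟩ := hp
        simp only [Finset.coe_filter, Finset.mem_univ, true_and, Set.mem_ofPred_eq]
        have h4 := vn_mul A (g i) χ
        have h5 := (hg i h1 h2).2
        have h6 : (i : ℝ) ≤ t := by exact_mod_cast h2
        nlinarith
      · rintro ⟨i, χ⟩ hp ⟨j, ψ⟩ hq hpq
        simp only [Finset.coe_product, Set.mem_prod, Finset.mem_coe, Finset.mem_Icc, hmem] at hp hq
        obtain ⟨⟨h1, h2⟩, h3⟩ := hp
        obtain ⟨⟨h1', h2'⟩, h3'⟩ := hq
        simp only at hpq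
        have up : ∀ (i : ℕ) (χ : AddChar G ℂ), 1 ≤ i → i ≤ t → vn A χ ≤ ρ →
            (3 * i - 2) * ρ < vn A (g i * χ) ∧ vn A (g i * χ) ≤ (3 * i + 1) * ρ := by
          intro i χ h1 h2 h3
          obtain ⟨h4, h5⟩ := hg i h1 h2
          constructor
          · have h6 := vn_mul A (g i * χ) χ⁻¹
            rw [mul_assoc, mul_inv_cancel, mul_one, vn_inv] at h6
            linarith
          · have h6 := vn_mul A (g i) χ
            linarith
        have ui := up i χ h1 h2 h3
        have uj := up j ψ h1' h2' h3'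
        rw [hpq] at ui
        have hij : i = j := by
          rcases lt_trichotomy i j with h | h | h
          · exfalso
            have : (i : ℝ) + 1 ≤ j := by exact_mod_cast h
            nlinarith [ui.1, ui.2, uj.1, uj.2]
          · exact h
          · exfalso
            have : (j : ℝ) + 1 ≤ i := by exact_mod_cast h
            nlinarith [ui.1, ui.2, uj.1, uj.2]
        subst hij
        have : χ = ψ := mul_left_cancel hpq
        rw [this]
    rw [Finset.card_product, Nat.card_Icc, Nat.add_sub_cancel] at hinj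
    have hfb := few_big A hA
    have h7 : ((t : ℝ) * Λ.card) * A.card ≤ 2 * Fintype.card G := by
      have : ((t : ℝ) * Λ.card) ≤ ((univ.filter (fun χ : AddChar G ℂ => vn A χ ≤ A.card)).card : ℝ) := by
        exact_mod_cast hinj
      exact (mul_le_mul_of_nonneg_right this hk.le).trans hfb
    have h8 : (Λ.card : ℝ) / Fintype.card G ≤ 2 / (t * A.card) := by
      rw [div_le_div_iff₀ hG (by positivity)]
      linarith
    have : (0 : ℝ) ≤ 1 / M := by positivity
    linarith

end Pool.Agent.Zs91
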