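import Pool.Agent.W_2c7c9d_h91.Red

/-! # MP_2c7c9d_co: rotations; the final list

* `exists_good`: the rotation by `v` of `sq a` is `sq` of the arrangement `rotE v a` (`a` precomposed with the addition of
  `v`); `a ↦ rotE v a` is a bijection, so at most `k * #bad < k !` arrangements have a bad rotation.
* `ord_of_finish`: the multiset of the `sq a j`, `j < k`, is `A.val` (`a` is a bijection from `Fin k` to `A`), so `l` has no
  repetitions, its elements are the elements of `A`, `l.length = k`.  Partial sums: for `i + 1 < k`, `j + 1 < k` use `hd`; if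
  `i + 1 = k` the sum is `∑ A = 0 = (l.take 0).sum`, use `hd` with `t = 0`. -/

set_option autoImplicit false

noncomputable section

namespace Pool.Agent.Zs91

open Finset Nat

section rot

variable {G : Type} {k : ℕ} [NeZero k] {A : Finset G}

def rotE (v : ℕ) (a : Fin k ≃ {x // x ∈ A}) : Fin k ≃ {x // x ∈ A} :=
  (Equiv.addRight (Fin.ofNat k v)).trans a

theorem sq_rotE (v : ℕ) (a : Fin k ≃ {x // x ∈ A}) : (fun j => sq a (v + j)) = sq (rotE v a) := by
  funext j
  simp only [sq, per, rotE, Equiv.trans_apply, Equiv.coe_addRight]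
  congr 2
  ext
  simp [Fin.val_add, Fin.ofNat, Nat.add_comm]

theorem rotE_mod (v : ℕ) (a : Fin k ≃ {x // x ∈ A}) : rotE (v % k) a = rotE v a := by
  have h : (Fin.ofNat k (v % k)) = Fin.ofNat k v := by
    ext
    simp [Fin.ofNat]
  simp only [rotE, h]

end rot

open Classical in
theorem exists_good {G : Type} [AddCommGroup G] {k : ℕ} [NeZero k] {A : Finset G} {w D : ℕ}
    (hA : A.card = k)
    (h : (k : ℝ) * ((univ.filter (fun a : Fin k ≃ {x // x ∈ A} => ¬ Good k w D (sq a))).card : ℝ) < k !) :
    ∃ a : Fin k ≃ {x // x ∈ A}, ∀ v, Good k w D (fun j => sq a (v + j)) := by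
  by_contra hcon
  push Not at hcon
  have h1 : (univ : Finset (Fin k ≃ {x // x ∈ A})) ⊆ (range k).biUnion fun v =>
      univ.filter (fun a : Fin k ≃ {x // x ∈ A} => ¬ Good k w D (sq (rotE v a))) := by
    intro a _
    obtain ⟨v, hv⟩ := hcon a
    rw [sq_rotE, ← rotE_mod] at hv
    rw [mem_biUnion]
    exact ⟨v % k, mem_range.2 (Nat.mod_lt _ (NeZero.pos k)), by simpa using hv⟩
  have h2 : ∀ v, (univ.filter (fun a : Fin k ≃ {x // x ∈ A} => ¬ Good k w D (sq (rotE v a)))).card =
      (univ.filter (fun a : Fin k ≃ {x // x ∈ A} => ¬ Good k w D (sq a))).card := by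
    intro v
    let e : (Fin k ≃ {x // x ∈ A}) ≃ (Fin k ≃ {x // x ∈ A}) :=
      Equiv.equivCongr (Equiv.addRight (Fin.ofNat k v)).symm (Equiv.refl _)
    have he : ∀ a, e a = rotE v a := fun a => by
      ext i; simp [e, rotE, Equiv.equivCongr]
    refine card_bij (fun a _ => e a) ?_ ?_ ?_
    · intro a ha
      simpa [he] using ha
    · intro a _ b _ hab
      exact e.injective hab
    · intro b hb
      refine ⟨e.symm b, ?_, by simp⟩
      have : rotE v (e.symm b) = b := by rw [← he]; simp
      simpa [this] using hb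
  have h3 := card_le_card h1
  have h4 : (univ : Finset (Fin k ≃ {x // x ∈ A})).card = k ! := by
    rw [Finset.card_univ, Fintype.card_equiv (Fintype.equivOfCardEq (by simp [hA])), Fintype.card_fin]
  rw [h4] at h3
  have h5 := h3.trans card_biUnion_le
  simp only [h2, sum_const, card_range, smul_eq_mul] at h5
  have h6 : ((k ! : ℕ) : ℝ) ≤ (k : ℝ) *
      ((univ.filter (fun a : Fin k ≃ {x // x ∈ A} => ¬ Good k w D (sq a))).card : ℝ) := by
    exact_mod_cast h5
  linarith

/-- The final list. -/
theorem ord_of_finish {G : Type} [AddCommGroup G] {k : ℕ} [NeZero k] {A : Finset G} (hA : A.card = k)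
    (hsum : A.sum (fun a => a) = 0) (a : Fin k ≃ {x // x ∈ A}) {l : List G}
    (hl : (l : Multiset G) = (Multiset.range k).map (sq a))
    (hd : ∀ t t', t < t' → t' < k → (l.take t).sum ≠ (l.take t').sum) : Ord A := by
  have hsq : ∀ i (hi : i < k), sq a i = (a ⟨i, hi⟩ : G) := fun i hi => per_lt _ hi
  have hnd : ((Multiset.range k).map (sq a)).Nodup := by
    refine Multiset.Nodup.map_on ?_ (Multiset.nodup_range k)
    intro i hi j hj hij
    have hi' := Multiset.mem_range.1 hi
    have hj' := Multiset.mem_range.1 hj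
    rw [hsq i hi', hsq j hj'] at hij
    have h1 := a.injective (Subtype.ext hij)
    exact congrArg Fin.val h1
  have hA2 : (Multiset.range k).map (sq a) = A.val := by
    refine (Multiset.Nodup.ext hnd A.nodup).2 ?_
    intro x
    rw [Multiset.mem_map]
    constructor
    · rintro ⟨i, hi, rfl⟩
      rw [hsq i (Multiset.mem_range.1 hi)]
      exact (a ⟨i, Multiset.mem_range.1 hi⟩).2
    · intro hx
      obtain ⟨i, hi⟩ := a.surjective ⟨x, hx⟩
      refine ⟨i.val, Multiset.mem_range.2 i.2, ?_⟩
      rw [hsq i.val i.2, Fin.eta, hi]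
  have hlA : (l : Multiset G) = A.val := hl.trans hA2
  have hlen : l.length = k := by
    have h1 := congrArg Multiset.card hl
    rwa [Multiset.coe_card, Multiset.card_map, Multiset.card_range] at h1
  have hls : l.sum = 0 := by
    have h1 := congrArg Multiset.sum hlA
    rw [Multiset.sum_coe] at h1
    rw [h1, ← hsum, Finset.sum_eq_multiset_sum, Multiset.map_id']
  have key : ∀ i j : ℕ, i < j → j < k → (l.take (i + 1)).sum ≠ (l.take (j + 1)).sum := by
    intro i j hij hj
    rcases Nat.lt_or_ge (j + 1) k with h | h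
    · exact hd _ _ (by omega) h
    · have h1 : j + 1 = l.length := by omega
      rw [h1, List.take_length, hls]
      have h2 := hd 0 (i + 1) (by omega) (by omega)
      rw [List.take_zero, List.sum_nil] at h2
      exact h2.symm
  refine ⟨l, ?_, ?_, ?_⟩
  · rw [← Multiset.coe_nodup, hlA]
    exact A.nodup
  · intro x
    rw [← Multiset.mem_coe, hlA]
    rfl
  · intro i j hij
    have hi := i.2
    have hj := j.2
    rcases lt_trichotomy i.val j.val with h | h | h
    · exact absurd hij (key _ _ h (by omega))
    · exact Fin.ext h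
    · exact absurd hij.symm (key _ _ h (by omega))

end Pool.Agent.Zs91
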