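import Pool.Agent.W_2c7c9d_h91.Cnt
import Pool.Agent.W_2c7c9d_h91.Fou
import Pool.Agent.W_2c7c9d_h91.Fsh
import Pool.Agent.W_2c7c9d_h91.Asy
import Pool.Agent.W_2c7c9d_h91.Rot

/-! # MP_2c7c9d_co: assembly

* `main_fin`: `params`, `theta_le` (`M = k ^ (1 + κ)`), `bad_card`, `exists_good`, `finish`.
* `main`: `reduce`. -/

set_option autoImplicit false

noncomputable section

namespace Pool.Agent.Zs91

open Finset Nat

theorem theta_nonneg {G : Type} [AddCommGroup G] [Fintype G] (A : Finset G) (L : ℕ) : 0 ≤ theta A L := by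
  unfold theta
  positivity

theorem bad_small {G : Type} [AddCommGroup G] [Fintype G] {k : ℕ} [NeZero k] {A : Finset G}
    (hA : A.card = k) {w L R r : ℕ} {b Θ : ℝ} (hΘ : theta A L ≤ Θ)
    (hb : b ≤ ((4 : ℝ) ^ w * (k + 1)) ^ r * (2 * k ! * theta A L ^ r) +
      (w + 1) * (k + 1) * ((4 : ℝ) ^ w * (2 * R + 1)) ^ 7 * (2 * k ! / (k : ℝ) ^ 6) +
      (4 : ℝ) ^ w * (2 * k ! / (k : ℝ) ^ 2))
    (h : (k : ℝ) * (((4 : ℝ) ^ w * (k + 1)) ^ r * (2 * Θ ^ r) +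
      (w + 1) * (k + 1) * ((4 : ℝ) ^ w * (2 * R + 1)) ^ 7 * (2 / (k : ℝ) ^ 6) +
      (4 : ℝ) ^ w * (2 / (k : ℝ) ^ 2)) < 1) : (k : ℝ) * b < k ! := by
  have hf : (0 : ℝ) < (k ! : ℝ) := by exact_mod_cast Nat.factorial_pos k
  have hk : (0 : ℝ) ≤ (k : ℝ) := Nat.cast_nonneg k
  have h1 : theta A L ^ r ≤ Θ ^ r := pow_le_pow_left₀ (theta_nonneg A L) hΘ r
  have h2 : b ≤ (k ! : ℝ) * (((4 : ℝ) ^ w * (k + 1)) ^ r * (2 * Θ ^ r) +
      (w + 1) * (k + 1) * ((4 : ℝ) ^ w * (2 * R + 1)) ^ 7 * (2 / (k : ℝ) ^ 6) +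
      (4 : ℝ) ^ w * (2 / (k : ℝ) ^ 2)) := by
    have h3 : ((4 : ℝ) ^ w * (k + 1)) ^ r * (2 * k ! * theta A L ^ r) ≤
        (k ! : ℝ) * (((4 : ℝ) ^ w * (k + 1)) ^ r * (2 * Θ ^ r)) := by
      have h4 : 0 ≤ (k ! : ℝ) * (((4 : ℝ) ^ w * (k + 1)) ^ r * 2) := by positivity
      have h5 := mul_le_mul_of_nonneg_left h1 h4
      calc ((4 : ℝ) ^ w * (k + 1)) ^ r * (2 * k ! * theta A L ^ r)
          = (k ! : ℝ) * (((4 : ℝ) ^ w * (k + 1)) ^ r * 2) * theta A L ^ r := by ring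
        _ ≤ (k ! : ℝ) * (((4 : ℝ) ^ w * (k + 1)) ^ r * 2) * Θ ^ r := h5
        _ = _ := by ring
    refine hb.trans ?_
    have h6 : (w + 1) * (k + 1) * ((4 : ℝ) ^ w * (2 * R + 1)) ^ 7 * (2 * k ! / (k : ℝ) ^ 6) =
        (k ! : ℝ) * ((w + 1) * (k + 1) * ((4 : ℝ) ^ w * (2 * R + 1)) ^ 7 * (2 / (k : ℝ) ^ 6)) := by
      ring
    have h7 : (4 : ℝ) ^ w * (2 * k ! / (k : ℝ) ^ 2) =
        (k ! : ℝ) * ((4 : ℝ) ^ w * (2 / (k : ℝ) ^ 2)) := by ring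
    rw [h6, h7]
    refine (add_le_add (add_le_add h3 le_rfl) le_rfl).trans (le_of_eq ?_)
    ring
  calc (k : ℝ) * b ≤ (k : ℝ) * ((k ! : ℝ) * (((4 : ℝ) ^ w * (k + 1)) ^ r * (2 * Θ ^ r) +
      (w + 1) * (k + 1) * ((4 : ℝ) ^ w * (2 * R + 1)) ^ 7 * (2 / (k : ℝ) ^ 6) +
      (4 : ℝ) ^ w * (2 / (k : ℝ) ^ 2))) := mul_le_mul_of_nonneg_left h2 hk
    _ = (k ! : ℝ) * ((k : ℝ) * (((4 : ℝ) ^ w * (k + 1)) ^ r * (2 * Θ ^ r) +
      (w + 1) * (k + 1) * ((4 : ℝ) ^ w * (2 * R + 1)) ^ 7 * (2 / (k : ℝ) ^ 6) +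
      (4 : ℝ) ^ w * (2 / (k : ℝ) ^ 2))) := by ring
    _ < (k ! : ℝ) * 1 := mul_lt_mul_of_pos_left h hf
    _ = k ! := mul_one _

open Classical in
theorem main_fin {κ : ℝ} (h0 : 0 < κ) (h1 : κ ≤ 1 / 10) :
    ∃ k₀ : ℕ, ∀ (G : Type) [AddCommGroup G] [Finite G] (A : Finset G), k₀ ≤ A.card → (0 : G) ∉ A →
      A.sum (fun a => a) = 0 →
      (∀ (H : AddSubgroup G) (x : G), (Nat.card H : ℝ) ≤ (A.card : ℝ) ^ (1 + κ) →
        (A.card : ℝ) ^ (1 / 2 + κ) < ((A.filter (fun a => a - x ∉ H)).card : ℝ)) → Ord A := by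
  obtain ⟨r, k₁, hp⟩ := params h0 h1
  refine ⟨max k₁ 1, ?_⟩
  intro G _ _ A hk hA0 hsum hH
  obtain ⟨k, hkA⟩ : ∃ k, A.card = k := ⟨_, rfl⟩
  rw [hkA] at hk hH
  have hk1 : k₁ ≤ k := le_trans (le_max_left _ _) hk
  have hk2 : 1 ≤ k := le_trans (le_max_right _ _) hk
  haveI : NeZero k := ⟨by omega⟩
  haveI : Fintype G := Fintype.ofFinite G
  have hkR : (0 : ℝ) < (k : ℝ) := by exact_mod_cast hk2
  have hAne : A.Nonempty := by
    rw [← Finset.card_pos, hkA]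
    exact hk2
  obtain ⟨t, L, R, η, ht, hη, hR0, ht1, ht2, hk8, hR, hrL, hRw, hfin⟩ := hp k hk1
  have hM : (0 : ℝ) < (k : ℝ) ^ (1 + κ) := Real.rpow_pos_of_pos hkR _
  have hth : theta A L ≤ 2 / (t * (k : ℝ)) + 1 / (k : ℝ) ^ (1 + κ) + (√(1 - η / 2)) ^ L := by
    have := theta_le A hAne L ht hη ht1 hM (fun H x hle => by
      by_contra hcon
      have h2 := hH H x (not_le.1 hcon).le
      rw [hkA] at hle
      linarith)
    rwa [hkA] at this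
  have hbad := bad_card (w := 4 * (64 * (r + 1) + 3)) (L := L) (R := R) (r := r) hkA hR0 hR hrL hRw
  have hlt := bad_small hkA (w := 4 * (64 * (r + 1) + 3)) (L := L) (R := R) (r := r) hth hbad hfin
  obtain ⟨a, ha⟩ := exists_good hkA hlt
  have hper : ∀ j, sq a (j + k) = sq a j := fun j => per_add _ j
  have hne : ∀ j, sq a j ≠ 0 := fun j h => hA0 (h ▸ (a _).2)
  have hpre : pre (sq a) k = 0 := by
    unfold sq
    rw [pre_per, ← hsum, ← Finset.sum_coe_sort A]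
    exact Equiv.sum_comp a (fun x : {x // x ∈ A} => (x : G))
  obtain ⟨l, hl, hd⟩ := finish (D := 64 * (r + 1)) (m := 64 * (r + 1) + 3) hper hne hpre rfl hk8 ha
  exact ord_of_finish hkA hsum a hl hd

open Classical in
theorem main {κ : ℝ} (h0 : 0 < κ) :
    ∃ k₀ : ℕ, ∀ (G : Type) [AddCommGroup G] (A : Finset G), k₀ ≤ A.card → (0 : G) ∉ A →
      A.sum (fun a => a) = 0 →
      (∀ (H : AddSubgroup G) (x : G), (H : Set G).Finite →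
        (Nat.card H : ℝ) ≤ (A.card : ℝ) ^ (1 + κ) →
        (A.card : ℝ) ^ (1 / 2 + κ) < ((A.filter (fun a => a - x ∉ H)).card : ℝ)) → Ord A := by
  obtain ⟨k₀, hk₀⟩ := main_fin (κ := min κ (1 / 10)) (lt_min h0 (by norm_num)) (min_le_right _ _)
  refine ⟨max k₀ 1, ?_⟩
  intro G _ A hk hA0 hsum hH
  have hk1 : k₀ ≤ A.card := le_trans (le_max_left _ _) hk
  have hk2 : 1 ≤ A.card := le_trans (le_max_right _ _) hk
  have hk3 : (1 : ℝ) ≤ (A.card : ℝ) := by exact_mod_cast hk2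
  refine reduce (κ := min κ (1 / 10)) (k₀ := k₀) hk₀ G A hk1 hA0 hsum ?_
  intro H x hf hc
  refine lt_of_le_of_lt ?_ (hH H x hf (hc.trans ?_))
  · exact Real.rpow_le_rpow_of_exponent_le hk3 (by linarith [min_le_left κ (1 / 10)])
  · exact Real.rpow_le_rpow_of_exponent_le hk3 (by linarith [min_le_left κ (1 / 10)])

end Pool.Agent.Zs91
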