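import Pool.Agent.W_2c7c9d_h91.Defs
import Pool.Agent.W_2c7c9d_h91.Desc
import Pool.Agent.W_2c7c9d_h91.ExtC

/-! # MP_2c7c9d_co: counting bijections with pivots

* `pivot`: the restriction of `a ∈ E` to `J \ P` determines the restriction to `J`, so a fibre of the map
  `E → (J \ P → α)` has at most `(k - J.card) !` elements (`ext_card`: all members of the fibre agree on `J` with one of them);
  hence `E.card ≤ k ^ (J.card - P.card) * (k - J.card) !` (`Finset.card_le_mul_card_image` or
  `Finset.card_eq_sum_card_fiberwise`); multiply by `k ^ P.card` and use `desc` (`N = J.card`). -/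

set_option autoImplicit false

noncomputable section

namespace Pool.Agent.Zs91

open Finset Nat

theorem pivot {α : Type} [Fintype α] [DecidableEq α] {k : ℕ} (hα : Fintype.card α = k)
    (J P : Finset (Fin k)) (hP : P ⊆ J) (hJ : J.card ^ 2 ≤ k) (E : Finset (Fin k ≃ α))
    (h : ∀ a ∈ E, ∀ a' ∈ E, (∀ x ∈ J \ P, a x = a' x) → ∀ x ∈ P, a x = a' x) :
    E.card * k ^ P.card ≤ 2 * k ! := by
  classical
  let ρ : (Fin k ≃ α) → ({x // x ∈ J \ P} → α) := fun a x => a x
  have h1 : E.card ≤ (k - J.card)! * (E.image ρ).card := by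
    refine Finset.card_le_mul_card_image E _ fun b hb => ?_
    obtain ⟨a₀, ha₀, rfl⟩ := Finset.mem_image.1 hb
    rw [← ext_card hα J a₀]
    refine Finset.card_le_card fun a ha => ?_
    rw [Finset.mem_filter] at ha
    rw [Finset.mem_filter]
    refine ⟨Finset.mem_univ _, fun x hx => ?_⟩
    have h2 : ∀ x ∈ J \ P, a x = a₀ x := fun x hx => congrFun ha.2 ⟨x, hx⟩
    by_cases hxP : x ∈ P
    · exact h a ha.1 a₀ ha₀ h2 x hxP
    · exact h2 x (Finset.mem_sdiff.2 ⟨hx, hxP⟩)
  have h3 : (E.image ρ).card ≤ k ^ (J.card - P.card) := by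
    refine (Finset.card_le_univ _).trans (le_of_eq ?_)
    rw [Fintype.card_fun, hα, Fintype.card_coe, Finset.card_sdiff_of_subset hP]
  have h4 : P.card ≤ J.card := Finset.card_le_card hP
  calc E.card * k ^ P.card ≤ ((k - J.card)! * k ^ (J.card - P.card)) * k ^ P.card :=
        Nat.mul_le_mul_right _ (h1.trans (Nat.mul_le_mul_left _ h3))
    _ = k ^ J.card * (k - J.card)! := by
        rw [mul_assoc, ← pow_add, Nat.sub_add_cancel h4, mul_comm]
    _ ≤ 2 * k ! := desc hJ

end Pool.Agent.Zs91
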