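import Pool.Agent.W_2c7c9d_h91.RedB

/-! # MP_2c7c9d_co: reduction to finite groups

* `reduce`: `exists_map` with `K = ⌊|A| ^ (1 + κ)⌋₊`; the image `A' = φ A` has as many elements as `A` (`φ` is injective on
  `A`), `0 ∉ A'`, sum `0`, the hypothesis of `hfin` holds (for `H', x'` take `H, x`: `a - x ∉ H` implies `φ a - x' ∉ H'`), and an
  ordering of `A'` is the image of an ordering of `A` (pull the list back with the inverse of `φ` on `A`); equal partial
  sums of `A` have equal images. -/

set_option autoImplicit false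

noncomputable section

namespace Pool.Agent.Zs91

open Finset

/-- `A` has an ordering with pairwise distinct partial sums. -/
def Ord {G : Type} [AddCommGroup G] (A : Finset G) : Prop :=
  ∃ l : List G, l.Nodup ∧ (∀ x, x ∈ l ↔ x ∈ A) ∧
    ∀ i j : Fin l.length, (l.take (i.val + 1)).sum = (l.take (j.val + 1)).sum → i = j

open Classical in
theorem reduce {κ : ℝ} {k₀ : ℕ}
    (hfin : ∀ (G : Type) [AddCommGroup G] [Finite G] (A : Finset G), k₀ ≤ A.card → (0 : G) ∉ A →
      A.sum (fun a => a) = 0 →
      (∀ (H : AddSubgroup G) (x : G), (Nat.card H : ℝ) ≤ (A.card : ℝ) ^ (1 + κ) →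
        (A.card : ℝ) ^ (1 / 2 + κ) < ((A.filter (fun a => a - x ∉ H)).card : ℝ)) → Ord A)
    (G : Type) [AddCommGroup G] (A : Finset G) (hk : k₀ ≤ A.card) (h0 : (0 : G) ∉ A)
    (hsum : A.sum (fun a => a) = 0)
    (hH : ∀ (H : AddSubgroup G) (x : G), (H : Set G).Finite →
      (Nat.card H : ℝ) ≤ (A.card : ℝ) ^ (1 + κ) →
        (A.card : ℝ) ^ (1 / 2 + κ) < ((A.filter (fun a => a - x ∉ H)).card : ℝ)) : Ord A := by
  classical
  obtain ⟨Q, _, _, φ, h1, h2, h3⟩ := exists_map A h0 ⌊(A.card : ℝ) ^ (1 + κ)⌋₊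
  have hcl : ∀ a ∈ A, a ∈ AddSubgroup.closure (A : Set G) := fun a ha =>
    AddSubgroup.subset_closure (Finset.mem_coe.mpr ha)
  set f : G → Q := fun a =>
    if ha : a ∈ AddSubgroup.closure (A : Set G) then φ ⟨a, ha⟩ else 0 with hf
  have hfc : ∀ a (ha : a ∈ AddSubgroup.closure (A : Set G)), f a = φ ⟨a, ha⟩ := by
    intro a ha
    simp only [hf, dif_pos ha]
  have hf0 : f 0 = 0 := by
    rw [hfc 0 (zero_mem _)]
    exact map_zero φ
  have hfadd : ∀ x y, x ∈ AddSubgroup.closure (A : Set G) →
      y ∈ AddSubgroup.closure (A : Set G) → f (x + y) = f x + f y := by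
    intro x y hx hy
    rw [hfc x hx, hfc y hy, hfc _ (add_mem hx hy), ← map_add]
    rfl
  have hlist : ∀ m : List G, (∀ x ∈ m, x ∈ A) →
      m.sum ∈ AddSubgroup.closure (A : Set G) ∧ f m.sum = (m.map f).sum := by
    intro m
    induction m with
    | nil =>
      intro _
      exact ⟨by simp, by simpa using hf0⟩
    | cons x m ih =>
      intro hm
      have hx := hcl x (hm x (by simp))
      obtain ⟨i1, i2⟩ := ih fun y hy => hm y (by simp [hy])
      refine ⟨?_, ?_⟩
      · rw [List.sum_cons]
        exact add_mem hx i1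
      · rw [List.sum_cons, hfadd _ _ hx i1, i2, List.map_cons, List.sum_cons]
  have hinj : Set.InjOn f (A : Set G) := by
    intro a ha b hb hab
    rw [hfc a (hcl a ha), hfc b (hcl b hb)] at hab
    exact h2 a ha b hb _ _ hab
  have hcard : (A.image f).card = A.card := card_image_of_injOn hinj
  have hord : Ord (A.image f) := by
    apply hfin Q (A.image f)
    · rw [hcard]; exact hk
    · intro h
      obtain ⟨a, ha, h⟩ := mem_image.mp h
      rw [hfc a (hcl a ha)] at h
      exact h1 a ha _ h
    · rw [sum_image fun a ha b hb h => hinj ha hb h]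
      have h4 : ∀ T : Finset G, T ⊆ A → (∑ a ∈ T, a ∈ AddSubgroup.closure (A : Set G)) ∧
          f (∑ a ∈ T, a) = ∑ a ∈ T, f a := by
        intro T
        induction T using Finset.induction_on with
        | empty => intro _; exact ⟨by simp, by simpa using hf0⟩
        | insert x T hx ih =>
          intro hT
          have hxc := hcl x (hT (mem_insert_self _ _))
          obtain ⟨i1, i2⟩ := ih fun y hy => hT (mem_insert_of_mem hy)
          rw [sum_insert hx, sum_insert hx]
          exact ⟨add_mem hxc i1, by rw [hfadd _ _ hxc i1, i2]⟩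
      rw [← (h4 A subset_rfl).2, hsum, hf0]
    · intro H' x' hH'
      rw [hcard] at hH' ⊢
      obtain ⟨H, x, g1, g2, g3⟩ := h3 H' x' (Nat.le_floor hH')
      have h5 : (Nat.card H : ℝ) ≤ (A.card : ℝ) ^ (1 + κ) :=
        (Nat.cast_le.mpr g2).trans (Nat.floor_le (Real.rpow_nonneg (Nat.cast_nonneg _) _))
      refine (hH H x g1 h5).trans_le ?_
      rw [Nat.cast_le]
      have h6 : (A.filter (fun a => a - x ∉ H)).image f ⊆
          (A.image f).filter (fun a => a - x' ∉ H') := by
        intro y hy
        obtain ⟨a, ha, rfl⟩ := mem_image.mp hy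
        obtain ⟨ha1, ha2⟩ := mem_filter.mp ha
        refine mem_filter.mpr ⟨mem_image_of_mem _ ha1, fun h => ha2 ?_⟩
        rw [hfc a (hcl a ha1)] at h
        exact g3 a ha1 _ h
      have h7 : ((A.filter (fun a => a - x ∉ H)).image f).card =
          (A.filter (fun a => a - x ∉ H)).card :=
        card_image_of_injOn fun a ha b hb h =>
          hinj (mem_filter.mp ha).1 (mem_filter.mp hb).1 h
      rw [← h7]
      exact card_le_card h6
  obtain ⟨l', hnd, hmem, hps⟩ := hord
  have hex : ∀ q ∈ A.image f, ∃ a ∈ A, f a = q := fun q hq => mem_image.mp hq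
  choose! g hg1 hg2 using hex
  have hgl : ∀ q ∈ l', f (g q) = q := fun q hq => hg2 q ((hmem q).mp hq)
  refine ⟨l'.map g, ?_, ?_, ?_⟩
  · refine (List.nodup_map_iff_inj_on hnd).mpr fun x hx y hy hxy => ?_
    rw [← hgl x hx, ← hgl y hy, hxy]
  · intro x
    rw [List.mem_map]
    constructor
    · rintro ⟨q, hq, rfl⟩
      exact hg1 q ((hmem q).mp hq)
    · intro hx
      have hq : f x ∈ A.image f := mem_image_of_mem _ hx
      exact ⟨f x, (hmem _).mpr hq, hinj (hg1 _ hq) hx (hg2 _ hq)⟩
  · intro i j hij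
    have key : ∀ m : ℕ, f ((l'.map g).take m).sum = (l'.take m).sum := by
      intro m
      rw [(hlist ((l'.map g).take m) ?_).2]
      · rw [← List.map_take, List.map_map]
        congr 1
        conv_rhs => rw [← List.map_id (l'.take m)]
        apply List.map_congr_left
        intro q hq
        exact hgl q (List.mem_of_mem_take hq)
      · intro x hx
        obtain ⟨q, hq, rfl⟩ := List.mem_map.mp (List.mem_of_mem_take hx)
        exact hg1 q ((hmem q).mp hq)
    have h4 := congrArg f hij
    rw [key, key] at h4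
    have hlen : (l'.map g).length = l'.length := List.length_map _
    have h5 := hps ⟨i.val, hlen ▸ i.2⟩ ⟨j.val, hlen ▸ j.2⟩ h4
    exact Fin.ext (Fin.mk.inj_iff.mp h5)

end Pool.Agent.Zs91
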