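import Pool.Agent.W_2c7c9d_h91.Defs

/-! # MP_2c7c9d_co: finite quotients of finitely generated abelian groups

* `exists_char`: `CharacterModule.exists_character_apply_ne_zero_of_ne_zero` gives `c : G →+ AddCircle (1 : ℚ)` with
  `c g ≠ 0`; the range of `c` is finitely generated and torsion, so it is finite (`AddCircle (1 : ℚ)` is a torsion
  group; `AddCommGroup.finite_of_fg_torsion`).  `Q` = the range (or `ZMod N` by `N • c = 0`).
* `exists_quot`: for every `g ∈ F` take the finite group of `exists_char` and let `Q` be the product over `F`. -/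

set_option autoImplicit false

noncomputable section

namespace Pool.Agent.Zs91

open Finset

theorem ra_torsion (x : AddCircle (1 : ℚ)) : IsOfFinAddOrder x := by
  obtain ⟨q, rfl⟩ := QuotientAddGroup.mk_surjective x
  rw [isOfFinAddOrder_iff_nsmul_eq_zero]
  refine ⟨q.den, q.pos, ?_⟩
  rw [← QuotientAddGroup.mk_nsmul, QuotientAddGroup.eq_zero_iff, AddSubgroup.mem_zmultiples_iff]
  refine ⟨q.num, ?_⟩
  simp only [zsmul_eq_mul, mul_one, nsmul_eq_mul]
  rw [mul_comm]
  exact (Rat.mul_den_eq_num q).symm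

theorem exists_char {G : Type} [AddCommGroup G] (hG : AddGroup.FG G) {g : G} (hg : g ≠ 0) :
    ∃ (Q : Type) (_ : AddCommGroup Q) (_ : Finite Q) (φ : G →+ Q), φ g ≠ 0 := by
  obtain ⟨c, hc⟩ := CharacterModule.exists_character_apply_ne_zero_of_ne_zero hg
  let c' : G →+ AddCircle (1 : ℚ) := c
  have hc' : c' g ≠ 0 := hc
  haveI := hG
  have h1 : AddGroup.FG c'.range := AddGroup.fg_range c'
  have h2 : Finite c'.range := by
    apply AddCommGroup.finite_of_fg_isAddTorsion
    intro x
    have hx := ra_torsion x.1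
    rw [isOfFinAddOrder_iff_nsmul_eq_zero] at hx ⊢
    obtain ⟨n, hn, hx⟩ := hx
    exact ⟨n, hn, Subtype.ext hx⟩
  refine ⟨c'.range, inferInstance, h2, c'.rangeRestrict, ?_⟩
  intro h
  exact hc' (congrArg Subtype.val h)

theorem exists_quot {G : Type} [AddCommGroup G] (hG : AddGroup.FG G) (F : Finset G) (hF : (0 : G) ∉ F) :
    ∃ (Q : Type) (_ : AddCommGroup Q) (_ : Finite Q) (φ : G →+ Q), ∀ g ∈ F, φ g ≠ 0 := by
  have h : ∀ g : F, ∃ (Q : Type) (_ : AddCommGroup Q) (_ : Finite Q) (φ : G →+ Q), φ g.1 ≠ 0 := by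
    intro g
    exact exists_char hG (fun h => hF (h ▸ g.2))
  choose Q i1 i2 φ hφ using h
  refine ⟨∀ g : F, Q g, inferInstance, inferInstance, AddMonoidHom.pi φ, ?_⟩
  intro g hg h0
  exact hφ ⟨g, hg⟩ (congrFun h0 ⟨g, hg⟩)

end Pool.Agent.Zs91
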