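import Pool.Agent.W_2c7c9d_h91.RedA

/-! # MP_2c7c9d_co: a finite quotient that respects the hypothesis

* `exists_map`: apply `exists_quot` to the subgroup `G₀` generated by `A` with `F` the union of: the elements of `A`, the
  nonzero differences `a - a'`, and for every `B ⊆ A`, with `H_B` the subgroup generated by the differences of `B`: all
  nonzero elements of `H_B` if `H_B` is finite, and the nonzero differences of `K + 1` distinct elements of `H_B` if it
  is infinite.  Let `φ : G₀ →+ Q`.  Given `H' ≤ Q` with at most `K` elements and `x'`, let `B = {a ∈ A | φ a - x' ∈ H'}`.  Then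
  `φ` maps `H_B` into `H'`, so `H_B` is finite (otherwise `φ` takes `K + 1` different values on it), `φ` is injective on it,
  `Nat.card H_B ≤ K`, and `B ⊆ {a | a - x ∈ H_B}` for any `x ∈ B` (if `B` is empty take `H = ⊥`, `x = 0`; `Nat.card H' ≥ 1`
  gives `1 ≤ K`). -/

set_option autoImplicit false

noncomputable section

namespace Pool.Agent.Zs91

open Finset

open Classical in
theorem rb_sub {G : Type} [AddCommGroup G] (H : AddSubgroup G) (K : ℕ) :
    ∃ F : Finset G, (0 : G) ∉ F ∧ ∀ (Q : Type) (_ : AddCommGroup Q) (_ : Finite Q) (φ : G →+ Q),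
      (∀ g ∈ F, φ g ≠ 0) → ∀ H' : AddSubgroup Q, (∀ h ∈ H, φ h ∈ H') → Nat.card H' ≤ K →
        (H : Set G).Finite ∧ Nat.card H ≤ K := by
  by_cases hfin : (H : Set G).Finite
  · refine ⟨hfin.toFinset.erase 0, by simp, ?_⟩
    intro Q _ _ φ hφ H' hH hK
    refine ⟨hfin, ?_⟩
    let f : H → H' := fun h => ⟨φ h.1, hH h.1 h.2⟩
    have hinj : Function.Injective f := by
      intro a b hab
      by_contra hne
      have h1 : (a.1 - b.1) ≠ 0 := by
        intro h0; exact hne (Subtype.ext (sub_eq_zero.mp h0))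
      have h2 : φ (a.1 - b.1) ≠ 0 := by
        apply hφ
        rw [Finset.mem_erase]
        refine ⟨h1, ?_⟩
        rw [Set.Finite.mem_toFinset]
        exact H.sub_mem a.2 b.2
      apply h2
      rw [map_sub, sub_eq_zero]
      exact congrArg Subtype.val hab
    exact (Nat.card_le_card_of_injective f hinj).trans hK
  · obtain ⟨S, hS, hcard⟩ := (show (H : Set G).Infinite from hfin).exists_subset_card_eq (K + 1)
    refine ⟨((S ×ˢ S).image (fun p => p.1 - p.2)).erase 0, by simp, ?_⟩
    intro Q _ _ φ hφ H' hH hK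
    exfalso
    let f : S → H' := fun h => ⟨φ h.1, hH h.1 (hS h.2)⟩
    have hinj : Function.Injective f := by
      intro a b hab
      by_contra hne
      have h1 : (a.1 - b.1) ≠ 0 := by
        intro h0; exact hne (Subtype.ext (sub_eq_zero.mp h0))
      have h2 : φ (a.1 - b.1) ≠ 0 := by
        apply hφ
        rw [Finset.mem_erase]
        refine ⟨h1, ?_⟩
        rw [Finset.mem_image]
        exact ⟨(a.1, b.1), Finset.mem_product.mpr ⟨a.2, b.2⟩, rfl⟩
      apply h2
      rw [map_sub, sub_eq_zero]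
      exact congrArg Subtype.val hab
    have := Nat.card_le_card_of_injective f hinj
    rw [Nat.card_eq_fintype_card, Fintype.card_coe, hcard] at this
    omega

open Classical in
theorem exists_map {G : Type} [AddCommGroup G] (A : Finset G) (h0 : (0 : G) ∉ A) (K : ℕ) :
    ∃ (Q : Type) (_ : AddCommGroup Q) (_ : Finite Q) (φ : AddSubgroup.closure (A : Set G) →+ Q),
      (∀ a ∈ A, ∀ ha, φ ⟨a, ha⟩ ≠ 0) ∧
      (∀ a ∈ A, ∀ b ∈ A, ∀ ha hb, φ ⟨a, ha⟩ = φ ⟨b, hb⟩ → a = b) ∧
      ∀ (H' : AddSubgroup Q) (x' : Q), Nat.card H' ≤ K →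
        ∃ (H : AddSubgroup G) (x : G), (H : Set G).Finite ∧ Nat.card H ≤ K ∧
          ∀ a ∈ A, ∀ ha, φ ⟨a, ha⟩ - x' ∈ H' → a - x ∈ H := by
  let HB : Finset G → AddSubgroup (AddSubgroup.closure (A : Set G)) := fun B =>
    AddSubgroup.closure {x | ∃ a ∈ B, ∃ b ∈ B, (x : G) = a - b}
  let FB : Finset G → Finset (AddSubgroup.closure (A : Set G)) := fun B => (rb_sub (HB B) K).choose
  have hFB : ∀ B, (0 : AddSubgroup.closure (A : Set G)) ∉ FB B ∧ ∀ (Q : Type) (_ : AddCommGroup Q) (_ : Finite Q)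
      (φ : AddSubgroup.closure (A : Set G) →+ Q),
      (∀ g ∈ FB B, φ g ≠ 0) → ∀ H' : AddSubgroup Q, (∀ h ∈ HB B, φ h ∈ H') → Nat.card H' ≤ K →
        ((HB B) : Set (AddSubgroup.closure (A : Set G))).Finite ∧ Nat.card (HB B) ≤ K := fun B =>
    (rb_sub (HB B) K).choose_spec
  let S : Finset G := (A ∪ (A ×ˢ A).image (fun p => p.1 - p.2)).erase 0
  let F : Finset (AddSubgroup.closure (A : Set G)) :=
    (S.subtype (fun x => x ∈ AddSubgroup.closure (A : Set G))) ∪ A.powerset.biUnion FB
  have hF0 : (0 : AddSubgroup.closure (A : Set G)) ∉ F := by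
    intro h
    rcases Finset.mem_union.mp h with h | h
    · rw [Finset.mem_subtype] at h
      simp [S] at h
    · obtain ⟨B, _, hB⟩ := Finset.mem_biUnion.mp h
      exact (hFB B).1 hB
  obtain ⟨Q, i1, i2, φ, hφ⟩ := exists_quot (G := AddSubgroup.closure (A : Set G)) inferInstance F hF0
  refine ⟨Q, i1, i2, φ, ?_, ?_, ?_⟩
  · intro a ha ha'
    apply hφ
    apply Finset.mem_union_left
    rw [Finset.mem_subtype]
    simp only [S, Finset.mem_erase, Finset.mem_union]
    exact ⟨fun h => h0 (h ▸ ha), Or.inl ha⟩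
  · intro a ha b hb ha' hb' hab
    by_contra hne
    have : φ (⟨a, ha'⟩ - ⟨b, hb'⟩) ≠ 0 := by
      apply hφ
      apply Finset.mem_union_left
      rw [Finset.mem_subtype]
      simp only [S, Finset.mem_erase, Finset.mem_union, Finset.mem_image]
      refine ⟨sub_ne_zero.mpr hne, Or.inr ⟨(a, b), Finset.mem_product.mpr ⟨ha, hb⟩, rfl⟩⟩
    apply this
    rw [map_sub, sub_eq_zero]
    exact hab
  · intro H' x' hK
    let B : Finset G := A.filter (fun a => ∀ ha, φ ⟨a, ha⟩ - x' ∈ H')
    have hsub : ∀ h ∈ HB B, φ h ∈ H' := by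
      intro h hh
      have : HB B ≤ H'.comap φ := by
        rw [AddSubgroup.closure_le]
        rintro x ⟨a, ha, b, hb, hx⟩
        rw [SetLike.mem_coe, AddSubgroup.mem_comap]
        have ha1 := (Finset.mem_filter.mp ha)
        have hb1 := (Finset.mem_filter.mp hb)
        have ha2 : a ∈ AddSubgroup.closure (A : Set G) := AddSubgroup.subset_closure ha1.1
        have hb2 : b ∈ AddSubgroup.closure (A : Set G) := AddSubgroup.subset_closure hb1.1
        have hx2 : x = ⟨a, ha2⟩ - ⟨b, hb2⟩ := Subtype.ext hx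
        rw [hx2, map_sub]
        have h1 := H'.sub_mem (ha1.2 ha2) (hb1.2 hb2)
        have h2 : φ ⟨a, ha2⟩ - x' - (φ ⟨b, hb2⟩ - x') = φ ⟨a, ha2⟩ - φ ⟨b, hb2⟩ := by abel
        rwa [h2] at h1
      exact this hh
    have hBF : ∀ g ∈ FB B, φ g ≠ 0 := by
      intro g hg
      apply hφ
      apply Finset.mem_union_right
      rw [Finset.mem_biUnion]
      exact ⟨B, Finset.mem_powerset.mpr (Finset.filter_subset _ _), hg⟩
    obtain ⟨hf, hc⟩ := (hFB B).2 Q i1 i2 φ hBF H' hsub hK
    refine ⟨(HB B).map (AddSubgroup.closure (A : Set G)).subtype,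
      if h : B.Nonempty then h.choose else 0, ?_, ?_, ?_⟩
    · rw [AddSubgroup.coe_map]
      exact hf.image _
    · rw [Nat.card_congr ((HB B).equivMapOfInjective (AddSubgroup.closure (A : Set G)).subtype
        (AddSubgroup.subtype_injective _)).toEquiv] at hc
      exact hc
    · intro a ha ha' hmem
      have haB : a ∈ B := Finset.mem_filter.mpr ⟨ha, fun _ => hmem⟩
      have hne : B.Nonempty := ⟨a, haB⟩
      rw [dif_pos hne]
      have hc1 := hne.choose_spec
      have hc2 : hne.choose ∈ AddSubgroup.closure (A : Set G) :=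
        AddSubgroup.subset_closure (Finset.mem_filter.mp hc1).1
      rw [AddSubgroup.mem_map]
      refine ⟨⟨a, ha'⟩ - ⟨hne.choose, hc2⟩, ?_, rfl⟩
      apply AddSubgroup.subset_closure
      exact ⟨a, haB, hne.choose, hc1, rfl⟩

end Pool.Agent.Zs91
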