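import Pool.Agent.W_2c7c9d_h91.Defs

/-! # MP_2c7c9d_co: re-ordering a good arrangement: definitions and clean vertices

Throughout `s` has period `k`, `pre s k = 0`, `m = D + 3`, `w = 4 m`, and all rotations of `s` are `Good k w D`.
`pre (fun j => s (v + j)) x` is the difference of the vertices `v + x` and `v` (`pre_add`).

* `pre_rot`: `pre (fun j => s (v + j)) k = 0` (periodicity; induction on `v`).
* `pre_shift`: `pre_add` and `pre_rot`.
* `map_rot`: induction on `v` (one step: `Multiset.range (k + 1)` in two ways).
* `Clean k m s v`: no vertex `v + x`, `m ≤ x ≤ k - m`, is equal to the vertex `v`.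
* `clean_exists`: otherwise every `range x`, `1 ≤ x ≤ m - 1`, is dangerous for the rotation by `v` with `n = m`:
  for the vertex `v + x` there is `y`, `m ≤ y ≤ k - m`, with `pre (s (v + x + ·)) y = 0`, so
  `∑_{range x} = pre (s (v + ·)) (x + y)` (`pre_add`), `u = x + y ∈ [m, k]`, `Y = ∅`.  These are `m - 1 = D + 2 > D` sets. -/

set_option autoImplicit false

noncomputable section

namespace Pool.Agent.Zs91

open Finset

variable {G : Type} [AddCommGroup G] {k D m w : ℕ} {s : ℕ → G}

/-- The rotation of `s` by `v`. -/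
abbrev rt (s : ℕ → G) (v : ℕ) : ℕ → G := fun j => s (v + j)

def Clean (k m : ℕ) (s : ℕ → G) (v : ℕ) : Prop := ∀ x, m ≤ x → x + m ≤ k → pre (rt s v) x ≠ 0

/-- A block `[v, v + n)` with a good order `ρ` of its steps (relative to `v`). -/
structure BC (k m w : ℕ) (s : ℕ → G) (v n : ℕ) (ρ : List ℕ) : Prop where
  perm : ρ.Perm (List.range n)
  low : m ≤ n
  pos : 0 < n
  high : n ≤ w
  bd : v + n ≤ k
  clean : Clean k m s v
  safe : ∀ i, 0 < i → i < n → ¬ Dng k w (rt s v) n (ρ.take i).toFinset
  cont : ∀ i l, i + l ≤ n → 0 < l → l < n → (((ρ.drop i).take l).map (rt s v)).sum ≠ 0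

inductive Chn (k m w : ℕ) (s : ℕ → G) : ℕ → List ℕ → Prop
  | nil : Chn k m w s k []
  | cons (v n : ℕ) (ρ L : List ℕ) (h : BC k m w s v n ρ) (hL : Chn k m w s (v + n) L) :
      Chn k m w s v (ρ.map (fun j => v + j) ++ L)

theorem pre_rot (hper : ∀ j, s (j + k) = s j) (hsum : pre s k = 0) (v : ℕ) : pre (rt s v) k = 0 := by
  induction v with
  | zero =>
    rw [← hsum]
    refine sum_congr rfl fun j _ => ?_
    show s (0 + j) = s j
    rw [zero_add]
  | succ v ih =>
    have h1 : ∑ j ∈ range (k + 1), s (v + j) = ∑ j ∈ range k, s (v + j) + s (v + k) :=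
      sum_range_succ _ _
    have h2 : ∑ j ∈ range (k + 1), s (v + j) = ∑ j ∈ range k, s (v + (j + 1)) + s (v + 0) :=
      sum_range_succ' _ _
    have h3 : ∑ j ∈ range k, s (v + j) = 0 := ih
    have h4 : pre (rt s (v + 1)) k = ∑ j ∈ range k, s (v + (j + 1)) := by
      refine sum_congr rfl fun j _ => ?_
      show s (v + 1 + j) = s (v + (j + 1))
      congr 1
      omega
    rw [h1, h3, zero_add, add_zero, hper v] at h2
    rw [h4]
    exact left_eq_add.1 (h2.trans (add_comm _ _))

/-- The vertex `v` is the vertex `v + k`. -/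
theorem pre_shift (hper : ∀ j, s (j + k) = s j) (hsum : pre s k = 0) (v : ℕ) :
    pre s (v + k) = pre s v := by
  rw [pre_add, pre_rot hper hsum v, add_zero]

theorem map_rot (hper : ∀ j, s (j + k) = s j) (v : ℕ) :
    (Multiset.range k).map (rt s v) = (Multiset.range k).map s := by
  induction v with
  | zero =>
    congr 1
    funext j
    show s (0 + j) = s j
    rw [zero_add]
  | succ v ih =>
    rw [← ih]
    have h1 : Multiset.range (k + 1) = 0 ::ₘ (Multiset.range k).map Nat.succ := by
      exact congrArg (fun l : List ℕ => (l : Multiset ℕ)) (List.range_succ_eq_map (n := k))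
    have h2 : (Multiset.range (k + 1)).map (rt s v) = rt s v k ::ₘ (Multiset.range k).map (rt s v) := by
      rw [Multiset.range_succ, Multiset.map_cons]
    have h3 : (Multiset.range (k + 1)).map (rt s v) =
        rt s v 0 ::ₘ (Multiset.range k).map (rt s (v + 1)) := by
      rw [h1, Multiset.map_cons, Multiset.map_map]
      congr 2
      funext j
      show s (v + (j + 1)) = s (v + 1 + j)
      congr 1
      omega
    have h4 : rt s v k = rt s v 0 := hper v
    rw [h2, h4] at h3
    exact ((Multiset.cons_inj_right _).1 h3).symm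

theorem clean_exists (hper : ∀ j, s (j + k) = s j) (hm : m = D + 3) (hk : 8 * m ≤ k)
    (hgood : ∀ v, Good k (4 * m) D (rt s v)) (v : ℕ) : ∃ x, 0 < x ∧ x < m ∧ Clean k m s (v + x) := by
  by_contra hcon
  push Not at hcon
  have h1 := (hgood v).few m (by omega) ((Ico 1 m).image range) (by
    intro X hX
    obtain ⟨x, hx, rfl⟩ := mem_image.1 hX
    rw [mem_Ico] at hx
    have h2 := hcon x (by omega) hx.2
    unfold Clean at h2
    push Not at h2
    obtain ⟨y, hy1, hy2, hy3⟩ := h2
    refine ⟨range_subset_range.2 hx.2.le, nonempty_range_iff.2 (by omega), ?_, x + y, ∅, by omega,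
      by omega, by simp, by simp, ?_⟩
    · intro h
      have := congrArg card h
      simp only [card_range] at this
      omega
    · have h3 : pre (fun j => rt s v (x + j)) y = 0 := by
        rw [← hy3]
        refine sum_congr rfl fun j _ => ?_
        show s (v + (x + j)) = s (v + x + j)
        congr 1
        omega
      rw [sum_empty, add_zero, pre_add, h3, add_zero]
      rfl)
  rw [card_image_of_injective _ (fun a b h => by
    have := congrArg card h
    simpa using this), Nat.card_Ico] at h1
  omega

end Pool.Agent.Zs91
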