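import Mathlib

/-! # MP_2c7c9d_co: swaps of pairs of positions

`e : ι × Bool ↪ Fin k` lists `2 |ι|` different positions in pairs; `tau e ε` swaps the positions `e (i, false)` and
`e (i, true)` for every `i` with `ε i = true`.

* `tau_pos`, `tau_out`: `Equiv.Perm.viaFintypeEmbedding_apply_image`,
  `Equiv.Perm.viaFintypeEmbedding_apply_not_mem_range` (or similar names).
* `sum_tau`: `∑_{x ∈ U} (f (τ x) - f x)`: only the positions `e (i, _)` with `ε i` contribute; if both positions of the pair
  `i` are in `U` the contribution is `0`, if only the `false` one is in `U` it is `f (e (i, true)) - f (e (i, false))`.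
  (Write `∑_{x ∈ U} g x` with `g x = f (τ x) - f x` as the sum of `if x ∈ U then g x else 0` over the image of `e`, i.e. over
  `ι × Bool` (`g` vanishes outside), split it with `Fintype.sum_prod_type`, `Fintype.sum_bool`, and compare term by term.) -/

set_option autoImplicit false

noncomputable section

namespace Pool.Agent.Zs91

open Finset Nat

/-- The permutation of `ι × Bool` that flips the second coordinate where `ε` is true. -/
def flip {ι : Type} (ε : ι → Bool) : Equiv.Perm (ι × Bool) where
  toFun x := (x.1, xor x.2 (ε x.1))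
  invFun x := (x.1, xor x.2 (ε x.1))
  left_inv x := by ext <;> simp
  right_inv x := by ext <;> simp

def tau {ι : Type} [Fintype ι] {k : ℕ} (e : ι × Bool ↪ Fin k) (ε : ι → Bool) : Equiv.Perm (Fin k) :=
  (flip ε).viaFintypeEmbedding e

section tau

variable {ι : Type} [Fintype ι] {k : ℕ} (e : ι × Bool ↪ Fin k) (ε : ι → Bool)

theorem tau_pos (i : ι) (b : Bool) : tau e ε (e (i, b)) = e (i, xor b (ε i)) := by
  unfold tau
  rw [Equiv.Perm.viaFintypeEmbedding_apply_image]
  rfl

theorem tau_out {x : Fin k} (hx : ∀ y, e y ≠ x) : tau e ε x = x := by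
  unfold tau
  apply Equiv.Perm.viaFintypeEmbedding_apply_notMem_range
  rintro ⟨y, hy⟩
  exact hx y hy

theorem sum_tau {G : Type} [AddCommGroup G] (U : Finset (Fin k))
    (hU : ∀ i, e (i, true) ∈ U → e (i, false) ∈ U) (f : Fin k → G) :
    ∑ x ∈ U, f (tau e ε x) = ∑ x ∈ U, f x +
      ∑ i, if ε i = true ∧ e (i, false) ∈ U ∧ e (i, true) ∉ U then f (e (i, true)) - f (e (i, false))
        else 0 := by
  have h1 : ∑ x ∈ U, f (tau e ε x) = ∑ x ∈ U, f x + ∑ x ∈ U, (f (tau e ε x) - f x) := by
    rw [Finset.sum_sub_distrib]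
    abel
  rw [h1]
  congr 1
  have h2 : ∑ x ∈ U, (f (tau e ε x) - f x) =
      ∑ x : Fin k, if x ∈ U then f (tau e ε x) - f x else 0 := by
    rw [Finset.sum_ite_mem, Finset.univ_inter]
  have h3 : (∑ x : Fin k, if x ∈ U then f (tau e ε x) - f x else 0) =
      ∑ x ∈ (univ : Finset (ι × Bool)).map e, if x ∈ U then f (tau e ε x) - f x else 0 := by
    symm
    apply Finset.sum_subset (Finset.subset_univ _)
    intro x _ hx
    have h4 : tau e ε x = x := tau_out e ε fun y hy => hx (by
      rw [Finset.mem_map]
      exact ⟨y, Finset.mem_univ _, hy⟩)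
    rw [h4, sub_self, ite_self]
  rw [h2, h3, Finset.sum_map, Fintype.sum_prod_type]
  apply Finset.sum_congr rfl
  intro i _
  rw [Fintype.sum_bool, tau_pos, tau_pos]
  have h5 := hU i
  cases hε : ε i
  · simp
  · by_cases ht : e (i, true) ∈ U
    · simp [ht, h5 ht]
    · by_cases hf : e (i, false) ∈ U
      · simp [ht, hf]
      · simp [ht, hf]

end tau

end Pool.Agent.Zs91
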