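import Pool.Agent.W_2c7c9d_h91.Vn

/-! # MP_2c7c9d_co: the weight of one character; Parseval

* `term_le`: `∑_{x,y} ‖1 + χ (x - y)‖ / 2 ≤ k (∑ ‖1 + χ (x - y)‖² / 4) ^ (1/2)` (Cauchy-Schwarz, `k = A.card`) and
  `‖1 + χ (x - y)‖² = 2 + 2 Re (χ x * conj (χ y))`, whose sum is `2 k² + 2 hs²`.
* `term_le_one`: every term is at most `1`.
* `parseval`: `∑_χ ‖∑_x χ x‖² = ∑_{x,y} ∑_χ χ (x - y) = |G| k` (orthogonality, `AddChar.sum_apply_eq_ite`). -/

set_option autoImplicit false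

noncomputable section

namespace Pool.Agent.Zs91

open Finset

variable {G : Type} [AddCommGroup G] [Fintype G]

theorem tm_sub (χ : AddChar G ℂ) (x y : G) : χ (x - y) = χ x * (starRingEnd ℂ) (χ y) := by
  rw [sub_eq_add_neg, AddChar.map_add_eq_mul, AddChar.map_neg_eq_conj]

theorem tm_hs (A : Finset G) (χ : AddChar G ℂ) : ∑ x ∈ A, ∑ y ∈ A, (χ (x - y)).re = hs A χ ^ 2 := by
  have h1 : ((hs A χ ^ 2 : ℝ) : ℂ) = ∑ x ∈ A, ∑ y ∈ A, χ (x - y) := by
    unfold hs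
    rw [← Complex.normSq_eq_norm_sq, ← Complex.mul_conj, map_sum, Finset.sum_mul_sum]
    refine Finset.sum_congr rfl fun x _ => Finset.sum_congr rfl fun y _ => ?_
    rw [tm_sub]
  have h2 := congrArg Complex.re h1
  rw [Complex.ofReal_re] at h2
  rw [h2, Complex.re_sum]
  refine Finset.sum_congr rfl fun x _ => ?_
  rw [Complex.re_sum]

theorem tm_sq (χ : AddChar G ℂ) (x : G) : ‖1 + χ x‖ ^ 2 = 2 + 2 * (χ x).re := by
  have h1 : ‖χ x‖ = 1 := AddChar.norm_apply χ x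
  have h2 : (χ x).re * (χ x).re + (χ x).im * (χ x).im = 1 := by
    rw [← Complex.normSq_apply, Complex.normSq_eq_norm_sq, h1, one_pow]
  rw [← Complex.normSq_eq_norm_sq, Complex.normSq_apply]
  simp only [Complex.add_re, Complex.one_re, Complex.add_im, Complex.one_im]
  nlinarith [h2]

theorem term_le (A : Finset G) (hA : A.Nonempty) (χ : AddChar G ℂ) :
    (∑ x ∈ A, ∑ y ∈ A, ‖1 + χ (x - y)‖ / 2) / (A.card : ℝ) ^ 2 ≤
      √((1 + hs A χ ^ 2 / (A.card : ℝ) ^ 2) / 2) := by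
  have hk : (0 : ℝ) < A.card := by exact_mod_cast hA.card_pos
  apply Real.le_sqrt_of_sq_le
  rw [div_pow, div_le_iff₀ (by positivity)]
  have h1 : (∑ x ∈ A, ∑ y ∈ A, ‖1 + χ (x - y)‖ / 2) ^ 2 ≤
      ((A.card : ℝ) ^ 2) * ∑ x ∈ A, ∑ y ∈ A, (‖1 + χ (x - y)‖ / 2) ^ 2 := by
    rw [← Finset.sum_product', ← Finset.sum_product']
    have := sq_sum_le_card_mul_sum_sq (s := A ×ˢ A) (f := fun p : G × G => ‖1 + χ (p.1 - p.2)‖ / 2)
    rw [Finset.card_product] at this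
    push_cast at this
    rw [← pow_two] at this
    exact this
  have h2 : ∑ x ∈ A, ∑ y ∈ A, (‖1 + χ (x - y)‖ / 2) ^ 2 = ((A.card : ℝ) ^ 2 + hs A χ ^ 2) / 2 := by
    have h3 : ∀ x ∈ A, ∀ y ∈ A, (‖1 + χ (x - y)‖ / 2) ^ 2 = 1 / 2 + (χ (x - y)).re / 2 := by
      intro x _ y _
      rw [div_pow, tm_sq]; ring
    rw [Finset.sum_congr rfl fun x hx => Finset.sum_congr rfl fun y hy => h3 x hx y hy]
    simp only [Finset.sum_add_distrib, Finset.sum_const, ← Finset.sum_div, nsmul_eq_mul]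
    rw [tm_hs]
    ring
  rw [h2] at h1
  have h4 : (1 + hs A χ ^ 2 / (A.card : ℝ) ^ 2) / 2 * ((A.card : ℝ) ^ 2) ^ 2 =
      (A.card : ℝ) ^ 2 * (((A.card : ℝ) ^ 2 + hs A χ ^ 2) / 2) := by
    field_simp
  rw [h4]
  exact h1

theorem term_le_one (A : Finset G) (hA : A.Nonempty) (χ : AddChar G ℂ) :
    (∑ x ∈ A, ∑ y ∈ A, ‖1 + χ (x - y)‖ / 2) / (A.card : ℝ) ^ 2 ≤ 1 := by
  have hk : (0 : ℝ) < A.card := by exact_mod_cast hA.card_pos
  rw [div_le_one (by positivity)]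
  calc ∑ x ∈ A, ∑ y ∈ A, ‖1 + χ (x - y)‖ / 2 ≤ ∑ x ∈ A, ∑ y ∈ A, (1 : ℝ) := by
        refine Finset.sum_le_sum fun x _ => Finset.sum_le_sum fun y _ => ?_
        have h1 : ‖χ (x - y)‖ = 1 := AddChar.norm_apply χ _
        have h2 := norm_add_le (1 : ℂ) (χ (x - y))
        rw [h1, norm_one] at h2
        linarith
    _ = (A.card : ℝ) ^ 2 := by
        simp only [Finset.sum_const, nsmul_eq_mul, mul_one]
        ring

theorem parseval (A : Finset G) :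
    ∑ χ : AddChar G ℂ, hs A χ ^ 2 = (Fintype.card G : ℝ) * A.card := by
  classical
  have h1 : ∑ χ : AddChar G ℂ, hs A χ ^ 2 = ∑ x ∈ A, ∑ y ∈ A, (∑ χ : AddChar G ℂ, χ (x - y)).re := by
    rw [Finset.sum_congr rfl fun χ _ => (tm_hs A χ).symm, Finset.sum_comm]
    refine Finset.sum_congr rfl fun x _ => ?_
    rw [Finset.sum_comm]
    refine Finset.sum_congr rfl fun y _ => ?_
    rw [Complex.re_sum]
  rw [h1]
  have h2 : ∀ x ∈ A, ∑ y ∈ A, (∑ χ : AddChar G ℂ, χ (x - y)).re = Fintype.card G := by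
    intro x hx
    rw [Finset.sum_eq_single x]
    · rw [AddChar.sum_apply_eq_ite, if_pos (sub_self x), Complex.natCast_re]
    · intro y _ hy
      rw [AddChar.sum_apply_eq_ite, if_neg (fun h => hy (sub_eq_zero.mp h).symm), Complex.zero_re]
    · intro h; exact absurd hx h
  rw [Finset.sum_congr rfl h2, Finset.sum_const, nsmul_eq_mul, mul_comm]

end Pool.Agent.Zs91
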