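import Pool.Agent.W_2c7c9d_h91.Trm

/-! # MP_2c7c9d_co: splitting of theta

* `theta_split`: the terms with `vn ≤ ρ` are at most `1` (`term_le_one`); for the others `hs² < (1 - η) k²` by `vn_sq`
  (`ρ² = 2 η k²`), so the term is at most `(√(1 - η/2)) ^ L` by `term_le`; there are `|G|` characters
  (`AddChar.card_eq`).
* `few_big`: characters with `vn ≤ k` have `hs² ≥ k² / 2` (`vn_sq`); `parseval`. -/

set_option autoImplicit false

noncomputable section

namespace Pool.Agent.Zs91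

open Finset

variable {G : Type} [AddCommGroup G] [Fintype G]

open Classical in
theorem theta_split (A : Finset G) (hA : A.Nonempty) (L : ℕ) {η ρ : ℝ} (hη : 0 < η) (hη1 : η ≤ 1)
    (hρ : ρ = A.card * √(2 * η)) :
    theta A L ≤ ((univ.filter (fun χ : AddChar G ℂ => vn A χ ≤ ρ)).card : ℝ) / Fintype.card G +
      (√(1 - η / 2)) ^ L := by
  have hk : (0 : ℝ) < A.card := by exact_mod_cast hA.card_pos
  have hG : (0 : ℝ) < Fintype.card G := by exact_mod_cast Fintype.card_pos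
  have hρ2 : ρ ^ 2 = 2 * η * (A.card : ℝ) ^ 2 := by
    rw [hρ, mul_pow, Real.sq_sqrt (by positivity)]; ring
  have hρ0 : 0 ≤ ρ := by rw [hρ]; positivity
  have hterm : ∀ χ : AddChar G ℂ,
      ((∑ x ∈ A, ∑ y ∈ A, ‖1 + χ (x - y)‖ / 2) / (A.card : ℝ) ^ 2) ^ L ≤
        (if vn A χ ≤ ρ then 1 else 0) + (√(1 - η / 2)) ^ L := by
    intro χ
    have h0 : 0 ≤ (∑ x ∈ A, ∑ y ∈ A, ‖1 + χ (x - y)‖ / 2) / (A.card : ℝ) ^ 2 := by positivity
    have hc : 0 ≤ (√(1 - η / 2)) ^ L := pow_nonneg (Real.sqrt_nonneg _) _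
    by_cases h : vn A χ ≤ ρ
    · rw [if_pos h]
      have h1 := pow_le_one₀ (n := L) h0 (term_le_one A hA χ)
      linarith
    · rw [if_neg h, zero_add]
      have h1 : ρ ^ 2 < vn A χ ^ 2 := by
        have h2 := lt_of_not_ge h
        exact pow_lt_pow_left₀ h2 hρ0 two_ne_zero
      rw [vn_sq, hρ2] at h1
      have h3 : hs A χ ^ 2 / (A.card : ℝ) ^ 2 ≤ 1 - η := by
        rw [div_le_iff₀ (by positivity)]
        nlinarith
      have h4 : (1 + hs A χ ^ 2 / (A.card : ℝ) ^ 2) / 2 ≤ 1 - η / 2 := by linarith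
      exact pow_le_pow_left₀ h0 ((term_le A hA χ).trans (Real.sqrt_le_sqrt h4)) L
  have hcard : Fintype.card (AddChar G ℂ) = Fintype.card G := AddChar.card_eq
  have h1 : ∑ χ : AddChar G ℂ,
      ((∑ x ∈ A, ∑ y ∈ A, ‖1 + χ (x - y)‖ / 2) / (A.card : ℝ) ^ 2) ^ L ≤
        ((univ.filter (fun χ : AddChar G ℂ => vn A χ ≤ ρ)).card : ℝ) +
          Fintype.card G * (√(1 - η / 2)) ^ L := by
    refine (sum_le_sum fun χ _ => hterm χ).trans (le_of_eq ?_)
    rw [sum_add_distrib, sum_boole, sum_const, Finset.card_univ, hcard, nsmul_eq_mul]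
  unfold theta
  rw [div_le_iff₀ hG]
  have h2 : (((univ.filter (fun χ : AddChar G ℂ => vn A χ ≤ ρ)).card : ℝ) / Fintype.card G +
      (√(1 - η / 2)) ^ L) * Fintype.card G =
      ((univ.filter (fun χ : AddChar G ℂ => vn A χ ≤ ρ)).card : ℝ) +
          Fintype.card G * (√(1 - η / 2)) ^ L := by
    rw [add_mul, div_mul_cancel₀ _ hG.ne', mul_comm (Fintype.card G : ℝ)]
  rw [h2]
  exact h1

open Classical in
theorem few_big (A : Finset G) (hA : A.Nonempty) :
    ((univ.filter (fun χ : AddChar G ℂ => vn A χ ≤ A.card)).card : ℝ) * A.card ≤ 2 * Fintype.card G := by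
  have hk : (0 : ℝ) < A.card := by exact_mod_cast hA.card_pos
  have h1 : ∀ χ ∈ univ.filter (fun χ : AddChar G ℂ => vn A χ ≤ A.card),
      (A.card : ℝ) ^ 2 / 2 ≤ hs A χ ^ 2 := by
    intro χ hχ
    rw [mem_filter] at hχ
    have h2 : vn A χ ^ 2 ≤ (A.card : ℝ) ^ 2 := pow_le_pow_left₀ (vn_nonneg A χ) hχ.2 2
    rw [vn_sq] at h2
    linarith
  have h2 : ((univ.filter (fun χ : AddChar G ℂ => vn A χ ≤ A.card)).card : ℝ) *
      ((A.card : ℝ) ^ 2 / 2) ≤ (Fintype.card G : ℝ) * A.card := by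
    rw [← parseval A, ← nsmul_eq_mul, ← sum_const]
    refine (sum_le_sum h1).trans ?_
    exact sum_le_sum_of_subset_of_nonneg (filter_subset _ _) fun χ _ _ => sq_nonneg _
  have h3 : (((univ.filter (fun χ : AddChar G ℂ => vn A χ ≤ A.card)).card : ℝ) * A.card) * A.card ≤
      (2 * Fintype.card G) * A.card := by nlinarith
  exact le_of_mul_le_mul_right h3 hk

end Pool.Agent.Zs91
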