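import Pool.Agent.W_2c7c9d_h91.Defs

/-! # MP_2c7c9d_co: the pseudonorm `vn`

`vn A χ` is the `ℓ²` norm of `(χ x - χ y)_{x, y ∈ A}`, `hs A χ = ‖∑ x ∈ A, χ x‖`.

* `vn_sq`: `‖χ x - χ y‖² = 2 - 2 Re (χ x * conj (χ y))` (`‖χ x‖ = 1`, `AddChar.norm_apply`), sum over `x, y`
  (`∑_{x,y} χ x conj (χ y) = ‖∑ χ x‖²`).
* `vn_inv`: `χ⁻¹ x = conj (χ x)` (`AddChar.inv_apply_eq_conj`).
* `vn_mul`: `χ x ψ x - χ y ψ y = χ x (ψ x - ψ y) + (χ x - χ y) ψ y` and Minkowski in `ℓ²` (e.g. the norm of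
  `EuclideanSpace ℂ (A × A)`, or `Real.Lp_add_le` with `p = 2`); the factors `χ x`, `ψ y` have modulus 1. -/

set_option autoImplicit false

noncomputable section

namespace Pool.Agent.Zs91

open Finset

variable {G : Type} [AddCommGroup G] [Fintype G]

def hs (A : Finset G) (χ : AddChar G ℂ) : ℝ := ‖∑ x ∈ A, χ x‖

def vn (A : Finset G) (χ : AddChar G ℂ) : ℝ := √(∑ x ∈ A, ∑ y ∈ A, ‖χ x - χ y‖ ^ 2)

theorem vn_nonneg (A : Finset G) (χ : AddChar G ℂ) : 0 ≤ vn A χ := Real.sqrt_nonneg _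

private theorem Vn_norm_sub_sq (a b : ℂ) (ha : ‖a‖ = 1) (hb : ‖b‖ = 1) :
    ‖a - b‖ ^ 2 = 2 - 2 * (a * (starRingEnd ℂ) b).re := by
  rw [← Complex.normSq_eq_norm_sq, Complex.normSq_sub, Complex.normSq_eq_norm_sq,
    Complex.normSq_eq_norm_sq, ha, hb]
  ring

theorem vn_sq (A : Finset G) (χ : AddChar G ℂ) :
    vn A χ ^ 2 = 2 * ((A.card : ℝ) ^ 2 - hs A χ ^ 2) := by
  have h0 : 0 ≤ ∑ x ∈ A, ∑ y ∈ A, ‖χ x - χ y‖ ^ 2 :=
    sum_nonneg fun x _ => sum_nonneg fun y _ => by positivity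
  have h1 : ∀ x : G, ‖χ x‖ = 1 := fun x => AddChar.norm_apply χ x
  have h2 : hs A χ ^ 2 = ∑ x ∈ A, ∑ y ∈ A, (χ x * (starRingEnd ℂ) (χ y)).re := by
    rw [hs, ← Complex.normSq_eq_norm_sq]
    have h3 : ((Complex.normSq (∑ x ∈ A, χ x) : ℝ) : ℂ) =
        ∑ x ∈ A, ∑ y ∈ A, χ x * (starRingEnd ℂ) (χ y) := by
      rw [← Complex.mul_conj, map_sum, sum_mul_sum]
    have h4 := congrArg Complex.re h3
    rw [Complex.ofReal_re] at h4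
    rw [h4]
    simp only [Complex.re_sum]
  rw [vn, Real.sq_sqrt h0, h2]
  simp only [Vn_norm_sub_sq _ _ (h1 _) (h1 _), sum_sub_distrib, sum_const, ← mul_sum, nsmul_eq_mul]
  ring

theorem vn_one (A : Finset G) : vn A 1 = 0 := by
  simp [vn]

theorem vn_inv (A : Finset G) (χ : AddChar G ℂ) : vn A χ⁻¹ = vn A χ := by
  have h1 : ∀ x y : G, ‖χ⁻¹ x - χ⁻¹ y‖ = ‖χ x - χ y‖ := by
    intro x y
    rw [AddChar.inv_apply, AddChar.inv_apply, AddChar.map_neg_eq_conj, AddChar.map_neg_eq_conj,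
      ← map_sub, RCLike.norm_conj]
  simp only [vn, h1]

private theorem Vn_minkowski (A : Finset G) (f g : G → G → ℂ) :
    √(∑ x ∈ A, ∑ y ∈ A, ‖f x y + g x y‖ ^ 2) ≤
      √(∑ x ∈ A, ∑ y ∈ A, ‖f x y‖ ^ 2) + √(∑ x ∈ A, ∑ y ∈ A, ‖g x y‖ ^ 2) := by
  have key : ∀ h : G → G → ℂ, √(∑ x ∈ A, ∑ y ∈ A, ‖h x y‖ ^ 2) =
      ‖(WithLp.toLp 2 (fun p : {q : G × G // q ∈ A ×ˢ A} => h p.1.1 p.1.2) :
        EuclideanSpace ℂ {q : G × G // q ∈ A ×ˢ A})‖ := by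
    intro h
    rw [EuclideanSpace.norm_eq, ← Finset.sum_product']
    congr 1
    exact (Finset.sum_coe_sort (A ×ˢ A) (fun p => ‖h p.1 p.2‖ ^ 2)).symm
  rw [key, key, key]
  refine le_trans (le_of_eq ?_) (norm_add_le _ _)
  rfl

theorem vn_mul (A : Finset G) (χ ψ : AddChar G ℂ) : vn A (χ * ψ) ≤ vn A χ + vn A ψ := by
  have h1 : ∀ χ : AddChar G ℂ, ∀ x : G, ‖χ x‖ = 1 := fun χ x => AddChar.norm_apply χ x
  have h2 := Vn_minkowski A (fun x y => (χ x - χ y) * ψ y) (fun x y => χ x * (ψ x - ψ y))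
  simp only [norm_mul, h1, mul_one, one_mul] at h2
  refine le_trans (le_of_eq ?_) h2
  rw [vn]
  congr 1
  refine sum_congr rfl fun x _ => sum_congr rfl fun y _ => ?_
  rw [AddChar.mul_apply, AddChar.mul_apply]
  congr 2
  ring

end Pool.Agent.Zs91
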